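import Mathlib

set_option autoImplicit false

namespace Pool.Agent.P.MP_c8ecb2_nt.H29

open Finset
open scoped Classical Pointwise

/-- The two growth rates of the balls. -/
structure Sc where
  M : ℕ
  L : ℕ
  hM : 16 ≤ M
  hL : M ≤ L

namespace Sc

variable (s : Sc)

/-- `z` lies in the arithmetic ball of level `j` and multiplier `m` with generators `P`. -/
def In (P : Finset ℤ) (j m : ℕ) (z : ℤ) : Prop :=
  ∃ c : ℤ → ℤ, (∀ p, |c p| ≤ m * (s.M : ℤ) ^ j) ∧ |z - ∑ p ∈ P, c p * p| ≤ m * (s.L : ℤ) ^ j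

variable {s} {P P' Q : Finset ℤ} {j j' m m' : ℕ} {z z' : ℤ}

theorem In.small (h : |z| ≤ m * (s.L : ℤ) ^ j) : s.In P j m z :=
  ⟨0, fun _ => by simp only [Pi.zero_apply, abs_zero]; positivity, by simpa using h⟩

theorem In.zero : s.In P j m 0 := In.small (by simp only [abs_zero]; positivity)

theorem In.cast (h : s.In P j m z) (hz : z = z') : s.In P j m z' := hz ▸ h

theorem In.self : s.In P j m (z - z) := In.zero.cast (by simp)

theorem In.add (h : s.In P j m z) (h' : s.In P j m' z') : s.In P j (m + m') (z + z') := by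
  obtain ⟨c, h1, h2⟩ := h
  obtain ⟨c', h3, h4⟩ := h'
  refine ⟨c + c', fun p => (abs_add_le _ _).trans ?_, ?_⟩
  · push_cast
    linarith [h1 p, h3 p]
  · simp only [Pi.add_apply, add_mul, sum_add_distrib]
    rw [show ∀ a b : ℤ, z + z' - (a + b) = z - a + (z' - b) from fun _ _ => by ring]
    refine (abs_add_le _ _).trans ?_
    push_cast
    linarith

theorem In.neg (h : s.In P j m z) : s.In P j m (-z) := by
  obtain ⟨c, h1, h2⟩ := h
  refine ⟨-c, fun p => by simpa using h1 p, ?_⟩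
  simp only [Pi.neg_apply, neg_mul, sum_neg_distrib]
  rwa [show ∀ a : ℤ, -z - -a = -(z - a) from fun _ => by ring, abs_neg]

theorem In.sub (h : s.In P j m z) (h' : s.In P j m' z') : s.In P j (m + m') (z - z') :=
  (h.add h'.neg).cast (by ring)

theorem In.symm (h : s.In P j m (z - z')) : s.In P j m (z' - z) := h.neg.cast (by ring)

theorem In.mono (h : s.In P j m z) (hP : P ⊆ P') (hj : j ≤ j') (hm : m ≤ m') : s.In P' j' m' z := by
  obtain ⟨c, h1, h2⟩ := h
  have a1 : (1 : ℤ) ≤ s.M := by have := s.hM; omega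
  have a2 : (1 : ℤ) ≤ s.L := by have := s.hM; have := s.hL; omega
  refine ⟨fun p => if p ∈ P then c p else 0, fun p => ?_, ?_⟩
  · dsimp only
    split_ifs
    · exact (h1 p).trans (by gcongr)
    · simp only [abs_zero]; positivity
  · have : ∑ p ∈ P', (if p ∈ P then c p else 0) * p = ∑ p ∈ P, c p * p := by
      rw [← sum_subset hP fun p _ hp => by simp [hp]]
      exact sum_congr rfl fun p hp => by simp [hp]
    rw [this]
    exact h2.trans (by gcongr)

theorem In.up (h : s.In P j m z) (hm : m ≤ s.M) : s.In P (j + 1) 1 z := by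
  obtain ⟨c, h1, h2⟩ := h
  have a1 : (m : ℤ) ≤ s.M := by omega
  have a2 : (m : ℤ) ≤ s.L := by have := s.hL; omega
  refine ⟨c, fun p => (h1 p).trans ?_, h2.trans ?_⟩ <;>
  · rw [pow_succ', Nat.cast_one, one_mul]
    gcongr

theorem In.lift (h : s.In P j m z) (hP : P ⊆ P') (hj : j < j') (hm : m ≤ s.M) : s.In P' j' 1 z :=
  (h.up hm).mono hP hj le_rfl

theorem In.lift' (h : s.In P j m z) (hj : j < j') (hm : m ≤ 16) : s.In P j' 1 z :=
  h.lift subset_rfl hj (hm.trans s.hM)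

theorem In.lev (h : s.In P j m z) (hj : j ≤ j') : s.In P j' m z := h.mono subset_rfl hj le_rfl

theorem In.comb {e : ℤ → ℤ} (h : ∀ p, |e p| ≤ m) : s.In P j m (∑ p ∈ P, e p * p) := by
  have a1 : (1 : ℤ) ≤ (s.M : ℤ) ^ j := one_le_pow₀ (by have := s.hM; omega)
  refine ⟨e, fun p => (h p).trans (le_mul_of_one_le_right (by positivity) a1), ?_⟩
  simp only [sub_self, abs_zero]
  positivity

theorem In.mem (h : z ∈ P) : s.In P j 1 z :=
  ((In.comb (P := {z}) (e := fun _ => 1) (m := 1) (j := j) fun _ => by simp).cast (by simp)).mono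
    (singleton_subset_iff.2 h) le_rfl le_rfl

variable (s)

/-- `C` covers `X`. -/
def Cv (P : Finset ℤ) (j m : ℕ) (C X : Finset ℤ) : Prop := ∀ z ∈ X, ∃ c ∈ C, s.In P j m (z - c)

/-- Covering number. -/
noncomputable def cov (P : Finset ℤ) (j : ℕ) (X : Finset ℤ) : ℕ :=
  sInf {n | ∃ C : Finset ℤ, C.card = n ∧ s.Cv P j 1 C X}

/-- The part of `X` in a ball. -/
noncomputable def ball (P : Finset ℤ) (j : ℕ) (c : ℤ) (X : Finset ℤ) : Finset ℤ :=
  X.filter fun z => s.In P j 1 (z - c)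

/-- The largest number of points of `B` in a ball. -/
noncomputable def conc (P : Finset ℤ) (j : ℕ) (B : Finset ℤ) : ℕ :=
  sSup (Set.range fun z => (s.ball P j z B).card)

/-- The points of `A` captured by `Q` at level `j`. -/
noncomputable def cap (P Q : Finset ℤ) (j : ℕ) (p : ℤ) (A : Finset ℤ) : Finset ℤ :=
  A.filter fun a => s.In (P ∪ Q) j 1 (a - p) ∧ ¬s.In P j 1 (a - p)

/-- The points of `A` in an annulus. -/
noncomputable def ann (P : Finset ℤ) (t : ℕ) (p : ℤ) (A : Finset ℤ) : Finset ℤ :=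
  A.filter fun a => s.In P (t + 6) 1 (a - p) ∧ ¬s.In P t 1 (a - p)

/-- The unstable points of `A`. -/
noncomputable def uns (P : Finset ℤ) (t : ℕ) (A : Finset ℤ) : Finset ℤ :=
  A.filter fun a => 2 * (s.ball P t a A).card ≤ (s.ball P (t + 6) a A).card

variable {s} {A B C X Y W : Finset ℤ} {c p : ℤ}

theorem mem_ball : z ∈ s.ball P j c X ↔ z ∈ X ∧ s.In P j 1 (z - c) := mem_filter

theorem ball_subset : s.ball P j c X ⊆ X := filter_subset _ _

theorem ball_mono (hP : P ⊆ P') (hj : j ≤ j') (hX : X ⊆ Y) : s.ball P j c X ⊆ s.ball P' j' c Y :=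
  fun _ hz => mem_ball.2 ⟨hX (mem_ball.1 hz).1, (mem_ball.1 hz).2.mono hP hj le_rfl⟩

theorem Cv.mono (h : s.Cv P j m C X) (hP : P ⊆ P') (hj : j ≤ j') (hm : m ≤ m') (hC : C ⊆ A)
    (hX : Y ⊆ X) : s.Cv P' j' m' A Y := fun z hz =>
  let ⟨c, h1, h2⟩ := h z (hX hz)
  ⟨c, hC h1, h2.mono hP hj hm⟩

theorem Cv.refl : s.Cv P j m X X := fun z hz => ⟨z, hz, In.self⟩

theorem Cv.add (h : s.Cv P j m A X) (h' : s.Cv P j m' B Y) (hW : W ⊆ X + Y) :
    s.Cv P j (m + m') (A + B) W := fun z hz => by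
  obtain ⟨x, hx, y, hy, rfl⟩ := mem_add.1 (hW hz)
  obtain ⟨a, a1, a2⟩ := h x hx
  obtain ⟨b, b1, b2⟩ := h' y hy
  exact ⟨a + b, add_mem_add a1 b1, (a2.add b2).cast (by ring)⟩

theorem Cv.union (h : s.Cv P j m A X) (h' : s.Cv P j m B Y) (hW : W ⊆ X ∪ Y) :
    s.Cv P j m (A ∪ B) W := fun z hz => by
  rcases mem_union.1 (hW hz) with hz | hz
  · exact h.mono subset_rfl le_rfl le_rfl subset_union_left subset_rfl z hz
  · exact h'.mono subset_rfl le_rfl le_rfl subset_union_right subset_rfl z hz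

theorem cov_le (h : s.Cv P j 1 C X) : s.cov P j X ≤ C.card := Nat.sInf_le ⟨C, rfl, h⟩

theorem Cv.cov_le (h : s.Cv P j m C X) (hP : P ⊆ P') (hj : j < j') (hm : m ≤ s.M) :
    s.cov P' j' X ≤ C.card := Sc.cov_le fun z hz =>
  let ⟨c, h1, h2⟩ := h z hz
  ⟨c, h1, h2.lift hP hj hm⟩

theorem cov_spec (s : Sc) (P : Finset ℤ) (j : ℕ) (X : Finset ℤ) :
    ∃ C : Finset ℤ, C.card = s.cov P j X ∧ s.Cv P j 1 C X :=
  Nat.sInf_mem (s := {n | ∃ C : Finset ℤ, C.card = n ∧ s.Cv P j 1 C X}) ⟨_, X, rfl, Cv.refl⟩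

theorem cov_le_card : s.cov P j X ≤ X.card := cov_le Cv.refl

theorem cov_mono (hP : P ⊆ P') (hj : j ≤ j') (hX : Y ⊆ X) : s.cov P' j' Y ≤ s.cov P j X := by
  obtain ⟨C, h1, h2⟩ := s.cov_spec P j X
  exact h1 ▸ cov_le (h2.mono hP hj le_rfl subset_rfl hX)

theorem cov_union (hW : W ⊆ X ∪ Y) : s.cov P j W ≤ s.cov P j X + s.cov P j Y := by
  obtain ⟨C, h1, h2⟩ := s.cov_spec P j X
  obtain ⟨D, h3, h4⟩ := s.cov_spec P j Y
  exact (cov_le (h2.union h4 hW)).trans (h1 ▸ h3 ▸ card_union_le _ _)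

theorem cov_empty : s.cov P j ∅ = 0 := Nat.le_zero.1 cov_le_card

theorem cov_biUnion {J : Type} (S : Finset J) (V : J → Finset ℤ) :
    s.cov P j (S.biUnion V) ≤ ∑ i ∈ S, s.cov P j (V i) := by
  induction S using Finset.induction_on with
  | empty => simp [cov_empty]
  | insert i S hi ih =>
    rw [biUnion_insert, sum_insert hi]
    exact (cov_union subset_rfl).trans (by omega)

theorem cov_add (hj : j < j') (hW : W ⊆ X + Y) : s.cov P j' W ≤ s.cov P j X * s.cov P j Y := by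
  obtain ⟨C, h1, h2⟩ := s.cov_spec P j X
  obtain ⟨D, h3, h4⟩ := s.cov_spec P j Y
  exact ((h2.add h4 hW).cov_le subset_rfl hj (by have := s.hM; omega)).trans
    (h1 ▸ h3 ▸ card_add_le)

theorem one_le_cov (h : X.Nonempty) : 1 ≤ s.cov P j X := by
  obtain ⟨C, h1, h2⟩ := s.cov_spec P j X
  obtain ⟨z, hz⟩ := h
  obtain ⟨c, hc, -⟩ := h2 z hz
  exact h1 ▸ card_pos.2 ⟨c, hc⟩

theorem cov_ball : s.cov P j (s.ball P j c X) ≤ 1 :=
  cov_le (C := {c}) fun _ hz => ⟨c, mem_singleton_self c, (mem_ball.1 hz).2⟩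

theorem sum_cov_le {J : Type} (S : Finset J) (V : J → Finset ℤ) (hX : ∀ i ∈ S, V i ⊆ X)
    (h : ∀ i ∈ S, ∀ i' ∈ S, ∀ z ∈ V i, ∀ z' ∈ V i', s.In P j 2 (z - z') → i = i') :
    ∑ i ∈ S, s.cov P j (V i) ≤ s.cov P j X := by
  obtain ⟨C, h1, h2⟩ := s.cov_spec P j X
  set D := fun i => C.filter fun c => ∃ z ∈ V i, s.In P j 1 (z - c) with hD
  calc _ ≤ ∑ i ∈ S, (D i).card := sum_le_sum fun i hi => cov_le fun z hz => by
        obtain ⟨c, c1, c2⟩ := h2 z (hX i hi hz)
        exact ⟨c, mem_filter.2 ⟨c1, z, hz, c2⟩, c2⟩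
    _ = (S.biUnion D).card := (card_biUnion fun i hi i' hi' hne => disjoint_left.2 fun c a1 a2 => by
        obtain ⟨-, z, z1, z2⟩ := mem_filter.1 a1
        obtain ⟨-, z', z3, z4⟩ := mem_filter.1 a2
        exact hne (h i hi i' hi' z z1 z' z3 ((z2.sub z4).cast (by ring)))).symm
    _ ≤ _ := h1 ▸ card_le_card (biUnion_subset.2 fun i _ => filter_subset _ _)

theorem exists_sep (s : Sc) (P : Finset ℤ) (j : ℕ) (S : Finset ℤ) : ∃ V ⊆ S,
    (∀ v ∈ V, ∀ v' ∈ V, s.In P j 1 (v - v') → v = v') ∧ s.Cv P j 1 V S := by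
  induction S using Finset.induction_on with
  | empty => exact ⟨∅, subset_rfl, by simp, Cv.refl⟩
  | insert a S ha ih =>
    obtain ⟨V, h1, h2, h3⟩ := ih
    by_cases h : ∃ v ∈ V, s.In P j 1 (a - v)
    · exact ⟨V, h1.trans (subset_insert _ _), h2, forall_mem_insert _ _ _ |>.2 ⟨h, h3⟩⟩
    · refine ⟨insert a V, insert_subset_insert _ h1, fun v hv v' hv' hi => ?_,
        forall_mem_insert _ _ _ |>.2 ⟨⟨a, mem_insert_self _ _, In.self⟩,
          h3.mono subset_rfl le_rfl le_rfl (subset_insert _ _) subset_rfl⟩⟩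
      rcases mem_insert.1 hv with rfl | hw <;> rcases mem_insert.1 hv' with rfl | hw'
      · rfl
      · exact absurd ⟨v', hw', hi⟩ h
      · exact absurd ⟨v, hw, hi.symm⟩ h
      · exact h2 v hw v' hw' hi

theorem le_conc (z : ℤ) : (s.ball P j z B).card ≤ s.conc P j B :=
  le_csSup ⟨B.card, by rintro _ ⟨z, rfl⟩; exact card_le_card ball_subset⟩ ⟨z, rfl⟩

theorem conc_spec (s : Sc) (P : Finset ℤ) (j : ℕ) (B : Finset ℤ) :
    ∃ z, (s.ball P j z B).card = s.conc P j B :=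
  Nat.sSup_mem (Set.range_nonempty _)
    ⟨B.card, by rintro _ ⟨z, rfl⟩; exact card_le_card ball_subset⟩

theorem conc_union : s.conc P j (A ∪ B) ≤ s.conc P j A + s.conc P j B := by
  obtain ⟨z, hz⟩ := s.conc_spec P j (A ∪ B)
  rw [← hz, ball, filter_union]
  exact (card_union_le _ _).trans (add_le_add (le_conc z) (le_conc z))

theorem conc_add : s.conc P j (B + A) ≤ s.conc P j B * A.card := by
  obtain ⟨z, hz⟩ := s.conc_spec P j (B + A)
  rw [← hz, mul_comm]
  refine (card_le_card (t := A.biUnion fun a => (s.ball P j (z - a) B).image (· + a))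
    fun w hw => ?_).trans (card_biUnion_le_card_mul _ _ _ fun a _ => card_image_le.trans (le_conc _))
  obtain ⟨w1, w2⟩ := mem_ball.1 hw
  obtain ⟨b, hb, a, ha, rfl⟩ := mem_add.1 w1
  exact mem_biUnion.2 ⟨a, ha, mem_image.2 ⟨b, mem_ball.2 ⟨hb, w2.cast (by ring)⟩, rfl⟩⟩

theorem conc_empty : s.conc P j ∅ = 0 := by
  obtain ⟨z, hz⟩ := s.conc_spec P j ∅
  rw [← hz]
  simp [ball]

theorem sum_ann (t I : ℕ) : ∑ i ∈ range I, (s.ann P (t + 6 * i) p A).card ≤ A.card := by
  suffices h : ∑ i ∈ range I, (s.ann P (t + 6 * i) p A).card ≤ (s.ball P (t + 6 * I) p A).card from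
    h.trans (card_le_card ball_subset)
  induction I with
  | zero => simp
  | succ I ih =>
    rw [sum_range_succ]
    refine (Nat.add_le_add_right ih _).trans ?_
    rw [← card_union_of_disjoint (disjoint_left.2 fun a h1 h2 =>
      (mem_filter.1 h2).2.2 (mem_ball.1 h1).2)]
    exact card_le_card (union_subset (ball_mono subset_rfl (by omega) subset_rfl) fun a ha =>
      mem_ball.2 ⟨(mem_filter.1 ha).1, (mem_filter.1 ha).2.1⟩)

theorem sum_uns (t I : ℕ) : ∑ i ∈ range I, (s.uns P (t + 6 * i) A).card ≤ A.card * A.card.size := by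
  simp only [uns, card_filter]
  rw [sum_comm]
  refine sum_le_card_nsmul _ _ _ fun a ha => (Nat.lt_size.2 ?_).le
  refine le_trans ?_ (card_le_card (ball_subset (s := s) (P := P) (j := t + 6 * I) (c := a)))
  induction I with
  | zero => simpa using ⟨a, mem_ball.2 ⟨ha, In.self⟩⟩
  | succ I ih =>
    rw [sum_range_succ, show t + 6 * (I + 1) = t + 6 * I + 6 by ring]
    split_ifs with h
    · rw [pow_succ]
      omega
    · exact ih.trans (card_le_card (ball_mono subset_rfl (by omega) subset_rfl))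

theorem stable_close {t : ℕ} {a a' : ℤ} (ha : a ∈ A \ s.uns P t A) (ha' : a' ∈ A \ s.uns P t A)
    (h : s.In P (t + 5) 1 (a - a')) : s.In P (t + 1) 1 (a - a') := by
  by_contra hn
  have d : Disjoint (s.ball P t a A) (s.ball P t a' A) := disjoint_left.2 fun z h1 h2 =>
    hn (((mem_ball.1 h2).2.sub (mem_ball.1 h1).2).cast (by ring) |>.lift' (by omega) (by omega))
  have k : ∀ b b' : ℤ, s.In P (t + 5) 1 (b - b') → s.ball P t b A ⊆ s.ball P (t + 6) b' A :=
    fun b b' hb z hz => mem_ball.2 ⟨(mem_ball.1 hz).1, ((((mem_ball.1 hz).2.lev (by omega)).add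
      hb).cast (by ring)).lift' (by omega) (by omega)⟩
  have h1 := card_le_card (union_subset (k a a In.self) (k a' a h.symm))
  have h2 := card_le_card (union_subset (k a a' h) (k a' a' In.self))
  rw [card_union_of_disjoint d] at h1 h2
  obtain ⟨b1, b2⟩ := mem_sdiff.1 ha
  obtain ⟨b3, b4⟩ := mem_sdiff.1 ha'
  rw [uns, mem_filter] at b2 b4
  have b5 := not_and.1 b2 b1
  have b6 := not_and.1 b4 b3
  omega

theorem capture (s : Sc) (A : Finset ℤ) (p : ℤ) (J q θ : ℕ) (hθ : 0 < θ) (P : Finset ℤ) :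
    ∃ Q₁ : Finset ℤ, Q₁.card * θ ≤ q * ((J + 1) * A.card) ∧
      ∀ Q j, Q.card ≤ q → j ≤ J → (s.cap (P ∪ Q₁) Q j p A).card < θ := by
  set Φ := fun P => ∑ j ∈ range (J + 1), (A.filter fun a => ¬s.In P j 1 (a - p)).card with hΦ
  suffices h : ∀ n P, Φ P = n → ∃ Q₁ : Finset ℤ, Q₁.card * θ ≤ q * n ∧
      ∀ Q j, Q.card ≤ q → j ≤ J → (s.cap (P ∪ Q₁) Q j p A).card < θ by
    obtain ⟨Q₁, h1, h2⟩ := h _ P rfl
    refine ⟨Q₁, h1.trans (Nat.mul_le_mul_left _ ?_), h2⟩
    simpa using sum_le_card_nsmul (range (J + 1)) _ A.card fun j _ => card_filter_le _ _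
  intro n
  induction n using Nat.strong_induction_on with
  | _ n ih =>
    intro P hP
    by_cases h : ∀ Q j, Q.card ≤ q → j ≤ J → (s.cap P Q j p A).card < θ
    · exact ⟨∅, by simp, by simpa using h⟩
    push Not at h
    obtain ⟨Q, j, h1, h2, h3⟩ := h
    have h4 : Φ (P ∪ Q) + θ ≤ n := by
      have hj : j ∈ range (J + 1) := mem_range.2 (by omega)
      rw [← hP]
      simp only [hΦ]
      rw [← add_sum_erase _ _ hj, ← add_sum_erase _ _ hj, add_right_comm]
      refine add_le_add ((Nat.add_le_add_left h3 _).trans ?_) (sum_le_sum fun i _ =>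
        card_le_card (monotone_filter_right _ fun a _ ha hb => ha (hb.mono subset_union_left le_rfl le_rfl)))
      rw [← card_union_of_disjoint (disjoint_left.2 fun a a1 a2 => by
        exact (mem_filter.1 a1).2 (mem_filter.1 a2).2.1)]
      refine card_le_card (union_subset (monotone_filter_right _ fun a _ ha hb =>
        ha (hb.mono subset_union_left le_rfl le_rfl)) (monotone_filter_right _ fun a _ ha => ha.2))
    obtain ⟨Q₁, h5, h6⟩ := ih _ (by omega) (P ∪ Q) rfl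
    refine ⟨Q ∪ Q₁, ?_, by simpa only [union_assoc] using h6⟩
    have := card_union_le Q Q₁
    calc _ ≤ (q + Q₁.card) * θ := Nat.mul_le_mul_right _ (by omega)
      _ ≤ q * (Φ (P ∪ Q) + θ) := by rw [add_mul, mul_add]; omega
      _ ≤ _ := Nat.mul_le_mul_left _ h4

theorem region (s : Sc) (P : Finset ℤ) (j : ℕ) (c : ℤ) (Z : Finset ℤ) : ∃ m, 2 ≤ m ∧
    m ≤ Z.card + 2 ∧ ∀ z ∈ Z, s.In P j (m + 1) (z - c) → s.In P j m (z - c) := by
  by_contra h
  push Not at h
  have : ∀ n ≤ Z.card + 1, n ≤ (Z.filter fun z => s.In P j (n + 2) (z - c)).card := fun n hn => by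
    induction n with
    | zero => simp
    | succ n ih =>
      obtain ⟨z, z1, z2, z3⟩ := h (n + 2) (by omega) (by omega)
      refine (Nat.succ_le_succ (ih (by omega))).trans (card_lt_card ?_)
      refine (ssubset_iff_of_subset (monotone_filter_right _ fun a _ ha =>
        ha.mono subset_rfl le_rfl (by omega))).2 ⟨z, mem_filter.2 ⟨z1, z2⟩, fun a => ?_⟩
      exact z3 (mem_filter.1 a).2
  have := (this _ le_rfl).trans (card_filter_le _ _)
  omega

end Sc

end Pool.Agent.P.MP_c8ecb2_nt.H29
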