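import Mathlib

set_option autoImplicit false

namespace Pool.Agent.P.MP_c8ecb2_nt.H29

open Filter Finset

/-- A scale going to infinity along an ultrafilter. -/
structure Cx where
  U : Ultrafilter ℕ
  l : ℕ → ℕ
  hl : Tendsto l U atTop
  h4 : ∀ k, 4 ≤ l k

namespace Cx

variable {X : Cx}

/-- Pointwise upper bound. -/
def le (X : Cx) (δ : ℝ) (k n : ℕ) (a : ℝ) : Prop := (n : ℝ) ≤ (X.l k : ℝ) ^ (a + δ)

/-- Pointwise lower bound. -/
def ge (X : Cx) (δ : ℝ) (k n : ℕ) (a : ℝ) : Prop := (X.l k : ℝ) ^ (a - δ) ≤ n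

/-- The exponent of `n` is at most `a`. -/
def Le (X : Cx) (n : ℕ → ℕ) (a : ℝ) : Prop := ∀ δ, 0 < δ → ∀ᶠ k in X.U, X.le δ k (n k) a

/-- The exponent of `n` is at least `a`. -/
def Ge (X : Cx) (n : ℕ → ℕ) (a : ℝ) : Prop := ∀ δ, 0 < δ → ∀ᶠ k in X.U, X.ge δ k (n k) a

theorem one_lt (X : Cx) (k : ℕ) : (1 : ℝ) < X.l k := by
  have : (4 : ℝ) ≤ X.l k := by exact_mod_cast X.h4 k
  linarith

theorem pos (X : Cx) (k : ℕ) : (0 : ℝ) < X.l k := by linarith [X.one_lt k]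

theorem rp_le (X : Cx) (k : ℕ) {a a' : ℝ} (h : a ≤ a') : (X.l k : ℝ) ^ a ≤ (X.l k : ℝ) ^ a' :=
  Real.rpow_le_rpow_of_exponent_le (X.one_lt k).le h

theorem rp_lt (X : Cx) (k : ℕ) {a a' : ℝ} (h : a < a') : (X.l k : ℝ) ^ a < (X.l k : ℝ) ^ a' :=
  Real.rpow_lt_rpow_of_exponent_lt (X.one_lt k) h

theorem rp_pos (X : Cx) (k : ℕ) (a : ℝ) : 0 < (X.l k : ℝ) ^ a := Real.rpow_pos_of_pos (X.pos k) a

theorem rp_add (X : Cx) (k : ℕ) (a a' : ℝ) :
    (X.l k : ℝ) ^ (a + a') = (X.l k : ℝ) ^ a * (X.l k : ℝ) ^ a' := Real.rpow_add (X.pos k) a a'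

theorem le.mono {δ δ' a a' : ℝ} {k n : ℕ} (h : X.le δ k n a) (h' : a + δ ≤ a' + δ') :
    X.le δ' k n a' := h.trans (X.rp_le k h')

theorem ge.mono {δ δ' a a' : ℝ} {k n : ℕ} (h : X.ge δ k n a) (h' : a' - δ' ≤ a - δ) :
    X.ge δ' k n a' := (X.rp_le k h').trans h

theorem ev_ge (X : Cx) (c : ℕ) : ∀ᶠ k in X.U, c ≤ X.l k := X.hl.eventually (eventually_ge_atTop c)

theorem ev_c (X : Cx) (c : ℝ) {δ : ℝ} (hδ : 0 < δ) : ∀ᶠ k in X.U, c ≤ (X.l k : ℝ) ^ δ :=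
  ((tendsto_rpow_atTop hδ).comp (tendsto_natCast_atTop_atTop.comp X.hl)).eventually_ge_atTop c

variable {n m s : ℕ → ℕ} {a a' : ℝ}

theorem Le.mono (h : X.Le n a) (hn : ∀ᶠ k in X.U, m k ≤ n k) : X.Le m a := fun δ hδ => by
  filter_upwards [h δ hδ, hn] with k h1 h2
  exact (Nat.cast_le.2 h2).trans h1

theorem Le.mono' (h : X.Le n a) (hn : ∀ k, m k ≤ n k) : X.Le m a := h.mono (.of_forall hn)

theorem Le.weak (h : X.Le n a) (ha : a ≤ a') : X.Le n a' := fun δ hδ =>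
  (h δ hδ).mono fun _ h1 => h1.mono (by linarith)

theorem Ge.mono (h : X.Ge n a) (hn : ∀ᶠ k in X.U, n k ≤ m k) : X.Ge m a := fun δ hδ => by
  filter_upwards [h δ hδ, hn] with k h1 h2
  exact h1.trans (Nat.cast_le.2 h2)

theorem Ge.mono' (h : X.Ge n a) (hn : ∀ k, n k ≤ m k) : X.Ge m a := h.mono (.of_forall hn)

theorem Ge.weak (h : X.Ge n a) (ha : a' ≤ a) : X.Ge n a' := fun δ hδ =>
  (h δ hδ).mono fun _ h1 => h1.mono (by linarith)

theorem Le.of_forall (h : ∀ δ, 0 < δ → X.Le n (a + δ)) : X.Le n a := fun δ hδ =>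
  (h (δ / 2) (by linarith) (δ / 2) (by linarith)).mono fun _ h1 => h1.mono (by linarith)

theorem Le.add (h : X.Le n a) (h' : X.Le m a) : X.Le (fun k => n k + m k) a := fun δ hδ => by
  filter_upwards [h (δ / 2) (by linarith), h' (δ / 2) (by linarith), X.ev_c 2 (half_pos hδ)]
    with k h1 h2 h3
  unfold le at *
  have := X.rp_pos k (a + δ / 2)
  rw [show a + δ = a + δ / 2 + δ / 2 by ring, X.rp_add]
  push_cast
  nlinarith

theorem Le.mul (h : X.Le n a) (h' : X.Le m a') : X.Le (fun k => n k * m k) (a + a') :=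
  fun δ hδ => by
    filter_upwards [h (δ / 2) (by linarith), h' (δ / 2) (by linarith)] with k h1 h2
    unfold le at *
    rw [show a + a' + δ = a + δ / 2 + (a' + δ / 2) by ring, X.rp_add]
    push_cast
    exact mul_le_mul h1 h2 (Nat.cast_nonneg _) (X.rp_pos k _).le

theorem Le.const (X : Cx) (c : ℕ) : X.Le (fun _ => c) 0 := fun δ hδ =>
  (X.ev_c c hδ).mono fun _ h => by simpa [le] using h

theorem Le.l (X : Cx) : X.Le X.l 1 := fun δ hδ => .of_forall fun k => by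
  have := X.rp_le k (show 1 ≤ 1 + δ by linarith)
  rwa [Real.rpow_one] at this

theorem Ge.l (X : Cx) : X.Ge X.l 1 := fun δ hδ => .of_forall fun k => by
  have := X.rp_le k (show 1 - δ ≤ 1 by linarith)
  rwa [Real.rpow_one] at this

theorem Le.of_zero (h : ∀ᶠ k in X.U, n k = 0) : X.Le n a := fun δ _ =>
  h.mono fun k hk => by simpa [le, hk] using (X.rp_pos k _).le

theorem Le.zero (X : Cx) (a : ℝ) : X.Le (fun _ => 0) a := Le.of_zero (.of_forall fun _ => rfl)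

theorem Le.cmul (h : X.Le n a) (c : ℕ) : X.Le (fun k => c * n k) a := by
  simpa using (Le.const X c).mul h

theorem Le.addc (h : X.Le n a) (ha : 0 ≤ a) (c : ℕ) : X.Le (fun k => n k + c) a :=
  h.add ((Le.const X c).weak ha)

theorem Le.pow (h : X.Le n a) (c : ℕ) : X.Le (fun k => n k ^ c) (c * a) := by
  induction c with
  | zero => simpa using Le.const X 1
  | succ c ih =>
    have := ih.mul h
    simp only [← pow_succ] at this
    exact this.weak (by push_cast; linarith)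

theorem Le.sum {J : Type} (S : Finset J) {φ : J → ℕ → ℕ} (h : ∀ j ∈ S, X.Le (φ j) a) :
    X.Le (fun k => ∑ j ∈ S, φ j k) a := by
  classical
  induction S using Finset.induction_on with
  | empty => simpa using Le.zero X a
  | insert j S hj ih =>
    simp only [sum_insert hj]
    exact (h j (mem_insert_self _ _)).add (ih fun i hi => h i (mem_insert_of_mem hi))

theorem Le.lt (h : X.Le n a) (h' : X.Ge m a') (ha : a < a') : ∀ᶠ k in X.U, n k < m k := by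
  filter_upwards [h ((a' - a) / 3) (by linarith), h' ((a' - a) / 3) (by linarith)] with k h1 h2
  have := X.rp_lt k (show a + (a' - a) / 3 < a' - (a' - a) / 3 by linarith)
  exact_mod_cast h1.trans_lt (this.trans_le h2)

theorem Ge.le_of (h' : X.Ge n a') (h : X.Le n a) : a' ≤ a := by
  by_contra ha
  obtain ⟨k, hk⟩ := (h.lt h' (not_le.1 ha)).exists
  omega

theorem not_ge (h : ¬X.Ge n a) : ∃ a' < a, X.Le n a' := by
  unfold Ge at h
  push Not at h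
  obtain ⟨δ, hδ, h⟩ := h
  refine ⟨a - δ, by linarith, fun δ' hδ' => ?_⟩
  filter_upwards [h] with k hk
  exact (not_le.1 hk).le.trans (X.rp_le k (by linarith))

theorem Ge.of_lt (h : ∀ a' < a, ¬X.Le n a') : X.Ge n a := by
  by_contra h'
  obtain ⟨a', h1, h2⟩ := not_ge h'
  exact h a' h1 h2

theorem Ge.of_add (h : X.Ge s a) (hs : ∀ᶠ k in X.U, s k ≤ n k + m k) (h' : X.Le m a')
    (ha : a' < a) : X.Ge n a := Ge.of_lt fun a'' h1 h2 => by
  have := h.le_of (((h2.weak (le_max_left _ a')).add (h'.weak (le_max_right a'' _))).mono hs)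
  rcases le_max_iff.1 this with h | h <;> linarith

theorem Ge.of_mul (h : X.Ge s a) (hs : ∀ᶠ k in X.U, s k ≤ n k * m k) (h' : X.Le m a') :
    X.Ge n (a - a') := Ge.of_lt fun a'' h1 h2 => by
  have := h.le_of ((h2.mul h').mono hs)
  linarith

theorem Le.of_mul (h : X.Le s a) (hs : ∀ᶠ k in X.U, n k * m k ≤ s k) (h' : X.Ge m a') :
    X.Le n (a - a') := fun δ hδ => by
  filter_upwards [h (δ / 2) (by linarith), h' (δ / 2) (by linarith), hs] with k h1 h2 h3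
  unfold le ge at *
  have h4 : (n k : ℝ) * m k ≤ s k := by exact_mod_cast h3
  have h5 := X.rp_pos k (a' - δ / 2)
  have h6 : (n k : ℝ) * (X.l k : ℝ) ^ (a' - δ / 2) ≤
      (X.l k : ℝ) ^ (a - a' + δ) * (X.l k : ℝ) ^ (a' - δ / 2) := by
    rw [← X.rp_add, show a - a' + δ + (a' - δ / 2) = a + δ / 2 by ring]
    exact (mul_le_mul_of_nonneg_left h2 (Nat.cast_nonneg _)).trans (h4.trans h1)
  exact le_of_mul_le_mul_right h6 h5

theorem Ge.pos (h : X.Ge n a) : ∀ᶠ k in X.U, 1 ≤ n k :=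
  (h 1 one_pos).mono fun k hk => by exact_mod_cast (X.rp_pos k _).trans_le hk

theorem Ge.of_pos (h : ∀ᶠ k in X.U, 1 ≤ n k) : X.Ge n 0 := fun δ hδ => h.mono fun k hk => by
  have := X.rp_le k (show 0 - δ ≤ 0 by linarith)
  rw [Real.rpow_zero] at this
  exact this.trans (by exact_mod_cast hk)

theorem Le.neg (h : X.Le n a) (ha : a < 0) : ∀ᶠ k in X.U, n k = 0 :=
  (h.lt (Ge.of_pos (n := fun _ => 1) (.of_forall fun _ => le_rfl)) ha).mono fun _ hk => by omega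

theorem Ge.pow (h : X.Ge n a) (c : ℕ) : X.Ge (fun k => n k ^ c) (c * a) := fun δ hδ => by
  have hc : (0 : ℝ) < c + 1 := by positivity
  filter_upwards [h (δ / (c + 1)) (by positivity)] with k hk
  unfold ge at *
  push_cast
  refine le_trans ?_ (pow_le_pow_left₀ (X.rp_pos k _).le hk c)
  rw [← Real.rpow_natCast, ← Real.rpow_mul (X.pos k).le]
  refine X.rp_le k ?_
  have : c * (δ / (c + 1)) ≤ δ := by
    rw [← mul_div_assoc, div_le_iff₀ hc]
    nlinarith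
  nlinarith

theorem Le.le_pow (h : X.Le n a) : ∃ c : ℕ, 1 ≤ c ∧ ∀ᶠ k in X.U, n k ≤ X.l k ^ c := by
  obtain ⟨c, hc⟩ := exists_nat_gt (max a 0)
  have h0 : 0 < c := by exact_mod_cast (le_max_right a 0).trans_lt hc
  refine ⟨c, h0, (h.lt ((Ge.l X).pow c) ?_).mono fun _ hk => hk.le⟩
  linarith [le_max_left a 0]

theorem size_l (X : Cx) : X.Le (fun k => (X.l k).size) 0 := fun δ hδ => by
  have t1 : Tendsto (fun k => (X.l k : ℝ)) X.U atTop := tendsto_natCast_atTop_atTop.comp X.hl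
  have t2 := t1.eventually ((isLittleO_log_rpow_atTop hδ).bound (show (0 : ℝ) < 1 / 4 by norm_num))
  filter_upwards [t2, X.ev_c 2 hδ] with k h1 h2
  unfold le
  rw [Real.norm_of_nonneg (Real.log_nonneg (X.one_lt k).le),
    Real.norm_of_nonneg (X.rp_pos k _).le] at h1
  have h3 : 2 ^ ((X.l k).size - 1) ≤ X.l k :=
    Nat.lt_size.1 (by have := Nat.size_pos.2 (show 0 < X.l k by have := X.h4 k; omega); omega)
  have h4 : (2 : ℝ) ^ ((X.l k).size - 1) ≤ X.l k := by exact_mod_cast h3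
  have h5 := Real.log_le_log (by positivity) h4
  rw [Real.log_pow] at h5
  have h6 := Real.log_two_gt_d9
  have h7 : ((X.l k).size : ℝ) ≤ ((X.l k).size - 1 : ℕ) + 1 := by
    exact_mod_cast (by omega : (X.l k).size ≤ (X.l k).size - 1 + 1)
  have h8 : (0 : ℝ) ≤ ((X.l k).size - 1 : ℕ) := Nat.cast_nonneg _
  rw [zero_add]
  nlinarith

/-- Subexponential sequences. -/
def SE (X : Cx) (n : ℕ → ℕ) : Prop := X.Le (fun k => (n k).size) 0

theorem size_mul (a b : ℕ) : (a * b).size ≤ a.size + b.size := by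
  rw [Nat.size_le, pow_add]
  exact Nat.mul_lt_mul'' (Nat.lt_size_self a) (Nat.lt_size_self b)

theorem size_add (a b : ℕ) : (a + b).size ≤ a.size + b.size + 1 := by
  rw [Nat.size_le, pow_succ, pow_add]
  have h1 := Nat.lt_size_self a
  have h2 := Nat.lt_size_self b
  have h3 : 0 < 2 ^ a.size := by positivity
  have h4 : 0 < 2 ^ b.size := by positivity
  nlinarith

theorem SE.mono (h : X.SE n) (hn : ∀ᶠ k in X.U, m k ≤ n k) : X.SE m :=
  Le.mono h (hn.mono fun _ hk => Nat.size_le_size hk)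

theorem SE.mono' (h : X.SE n) (hn : ∀ k, m k ≤ n k) : X.SE m := h.mono (.of_forall hn)

theorem SE.add (h : X.SE n) (h' : X.SE m) : X.SE fun k => n k + m k :=
  ((Le.add h h').addc le_rfl 1).mono' fun _ => size_add _ _

theorem SE.mul (h : X.SE n) (h' : X.SE m) : X.SE fun k => n k * m k :=
  (Le.add h h').mono' fun _ => size_mul _ _

theorem SE.const (X : Cx) (c : ℕ) : X.SE fun _ => c := Le.const X _

theorem SE.pow (h : X.SE n) (c : ℕ) : X.SE fun k => n k ^ c := by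
  induction c with
  | zero => simpa using SE.const X 1
  | succ c ih => simpa only [pow_succ] using ih.mul h

theorem SE.sum {J : Type} (S : Finset J) {φ : J → ℕ → ℕ} (h : ∀ j ∈ S, X.SE (φ j)) :
    X.SE fun k => ∑ j ∈ S, φ j k := by
  classical
  induction S using Finset.induction_on with
  | empty => simpa using SE.const X 0
  | insert j S hj ih =>
    simp only [sum_insert hj]
    exact (h j (mem_insert_self _ _)).add (ih fun i hi => h i (mem_insert_of_mem hi))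

theorem Le.se (h : X.Le n a) : X.SE n := by
  obtain ⟨c, -, hc⟩ := h.le_pow
  exact (SE.pow X.size_l c).mono hc

theorem SE.lt (h : X.SE n) : ∀ᶠ k in X.U, n k < 2 ^ X.l k :=
  (Le.lt h (Ge.l X) one_pos).mono fun _ hk => Nat.size_le.1 hk.le

/-- The natural number closest to `l ^ a` from above. -/
noncomputable def pw (X : Cx) (a : ℝ) (k : ℕ) : ℕ := ⌈(X.l k : ℝ) ^ a⌉₊

theorem pw_ge (X : Cx) (a : ℝ) : X.Ge (X.pw a) a := fun δ hδ => .of_forall fun k =>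
  (X.rp_le k (by linarith)).trans (Nat.le_ceil _)

theorem Le.of_lt_pw (h : ∀ᶠ k in X.U, n k < X.pw a k) : X.Le n a := fun δ hδ =>
  h.mono fun k hk => (Nat.lt_ceil.1 hk).le.trans (X.rp_le k (by linarith))

theorem pw_pos (X : Cx) (a : ℝ) (k : ℕ) : 0 < X.pw a k := Nat.ceil_pos.2 (X.rp_pos k a)

theorem pw_le (X : Cx) {a : ℝ} (ha : 0 ≤ a) : X.Le (X.pw a) a :=
  ((Le.of_lt_pw (n := fun k => X.pw a k - 1) (.of_forall fun k => by
    have := X.pw_pos a k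
    omega)).addc ha 1).mono' fun k => by omega

theorem diag (X : Cx) {Z : Type} (Φ : ℝ → ℕ → Z → Prop)
    (mono : ∀ δ δ' k z, 0 < δ → δ ≤ δ' → Φ δ k z → Φ δ' k z)
    (h : ∀ δ, 0 < δ → ∃ z : ℕ → Z, ∀ᶠ k in X.U, Φ δ k (z k)) :
    ∃ z : ℕ → Z, ∀ δ, 0 < δ → ∀ᶠ k in X.U, Φ δ k (z k) := by
  classical
  choose z hz using fun i : ℕ => h (1 / ((i : ℝ) + 1)) (by positivity)
  refine ⟨fun k => z (Nat.findGreatest (fun i : ℕ => Φ (1 / ((i : ℝ) + 1)) k (z i k)) (X.l k)) k,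
    fun δ hδ => ?_⟩
  obtain ⟨i, hi⟩ := exists_nat_one_div_lt hδ
  filter_upwards [hz i, X.ev_ge i] with k h1 h2
  have h3 := Nat.findGreatest_spec (P := fun i : ℕ => Φ (1 / ((i : ℝ) + 1)) k (z i k)) h2 h1
  have h4 := Nat.le_findGreatest (P := fun i : ℕ => Φ (1 / ((i : ℝ) + 1)) k (z i k)) h2 h1
  refine mono _ _ _ _ (by positivity) (le_trans ?_ hi.le) h3
  exact one_div_le_one_div_of_le (by positivity) (by exact_mod_cast Nat.succ_le_succ h4)

theorem inf_att (X : Cx) {Z : Type} (Ψ : ℝ → ℝ → ℕ → Z → Prop)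
    (shift : ∀ a a' δ δ' k z, 0 < δ → a ≤ a' → a' + δ ≤ a + δ' → Ψ a' δ k z → Ψ a δ' k z)
    (a₀ : ℝ) (h₀ : ∃ z : ℕ → Z, ∀ δ, 0 < δ → ∀ᶠ k in X.U, Ψ a₀ δ k (z k)) (c : ℝ)
    (bd : ∀ a (z : ℕ → Z), (∀ δ, 0 < δ → ∀ᶠ k in X.U, Ψ a δ k (z k)) → c ≤ a) :
    ∃ a ≤ a₀, (∃ z : ℕ → Z, ∀ δ, 0 < δ → ∀ᶠ k in X.U, Ψ a δ k (z k)) ∧
      ∀ a' (z : ℕ → Z), (∀ δ, 0 < δ → ∀ᶠ k in X.U, Ψ a' δ k (z k)) → a ≤ a' := by
  set S := {a | ∃ z : ℕ → Z, ∀ δ, 0 < δ → ∀ᶠ k in X.U, Ψ a δ k (z k)} with hS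
  have b : BddBelow S := ⟨c, fun a ⟨z, hz⟩ => bd a z hz⟩
  refine ⟨sInf S, csInf_le b h₀, X.diag _ (fun δ δ' k z h1 h2 =>
    shift _ _ _ _ _ _ h1 le_rfl (by linarith)) fun δ hδ => ?_, fun a' z hz => csInf_le b ⟨z, hz⟩⟩
  obtain ⟨a, ⟨z, hz⟩, ha⟩ := exists_lt_of_csInf_lt ⟨a₀, h₀⟩ (show sInf S < sInf S + δ / 2 by linarith)
  exact ⟨z, (hz (δ / 2) (by linarith)).mono fun k hk =>
    shift _ _ _ _ _ _ (by linarith) (csInf_le b ⟨z, hz⟩) (by linarith) hk⟩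

theorem markov {α R : Type} [Fintype R] {Γ : Finset α} (hΓ : Γ.Nonempty) (φ : R → α → ℕ) :
    ∃ γ ∈ Γ, ∀ r, φ r γ * Γ.card ≤ Fintype.card R * ∑ γ ∈ Γ, φ r γ := by
  obtain ⟨γ, hγ, h⟩ := exists_le_of_sum_le (s := Γ) hΓ
    (f := fun γ => (Γ.card : ℝ) * ∑ r, (φ r γ : ℝ) / ∑ γ ∈ Γ, (φ r γ : ℝ))
    (g := fun _ => (Fintype.card R : ℝ)) (by
      rw [← mul_sum, sum_comm, sum_const, nsmul_eq_mul]
      refine mul_le_mul_of_nonneg_left ?_ (Nat.cast_nonneg _)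
      refine (sum_le_card_nsmul _ _ 1 fun r _ => ?_).trans (by simp)
      rw [← sum_div]
      exact div_self_le_one _)
  refine ⟨γ, hγ, fun r => ?_⟩
  have h1 : (φ r γ : ℝ) ≤ ∑ γ ∈ Γ, (φ r γ : ℝ) :=
    single_le_sum (f := fun γ => (φ r γ : ℝ)) (fun _ _ => Nat.cast_nonneg _) hγ
  have h2 : (φ r γ : ℝ) / ∑ γ ∈ Γ, (φ r γ : ℝ) ≤ ∑ r, (φ r γ : ℝ) / ∑ γ ∈ Γ, (φ r γ : ℝ) :=
    single_le_sum (f := fun r => (φ r γ : ℝ) / ∑ γ ∈ Γ, (φ r γ : ℝ))
      (fun _ _ => by positivity) (mem_univ r)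
  have h3 := (mul_le_mul_of_nonneg_left h2 (Nat.cast_nonneg Γ.card)).trans h
  rcases (show (0 : ℝ) ≤ ∑ γ ∈ Γ, (φ r γ : ℝ) by positivity).eq_or_lt with h0 | h0
  · have : (φ r γ : ℝ) ≤ 0 := h0 ▸ h1
    have : φ r γ = 0 := by exact_mod_cast le_antisymm this (Nat.cast_nonneg _)
    simp [this]
  · rw [← mul_div_assoc, div_le_iff₀ h0, mul_comm] at h3
    exact_mod_cast h3

theorem typ {α R : Type} [Fintype R] [Nonempty α] {Γ : ℕ → Finset α} {g : ℝ}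
    (hΓ : X.Ge (fun k => (Γ k).card) g) (φ : R → ℕ → α → ℕ) (a : R → ℝ)
    (h : ∀ r, X.Le (fun k => ∑ γ ∈ Γ k, φ r k γ) (a r)) :
    ∃ γ : ℕ → α, (∀ᶠ k in X.U, γ k ∈ Γ k) ∧ ∀ r, X.Le (fun k => φ r k (γ k)) (a r - g) := by
  obtain ⟨γ, hγ⟩ := (hΓ.pos.mono fun k hk => markov (card_pos.1 hk) fun r => φ r k).choice
  exact ⟨γ, hγ.mono fun _ hk => hk.1, fun r =>
    ((h r).cmul (Fintype.card R)).of_mul (hγ.mono fun _ hk => hk.2 r) hΓ⟩

/-- A long window of levels. -/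
def Win (X : Cx) (σ τ : ℕ → ℕ) : Prop := X.Ge (fun k => τ k - σ k) 1

variable {σ τ σ' τ' : ℕ → ℕ}

theorem Win.ev (h : X.Win σ τ) (c : ℕ) : ∀ᶠ k in X.U, σ k + c ≤ τ k :=
  ((Le.const X c).lt h one_pos).mono fun _ hk => by omega

theorem Win.shift (h : X.Win σ τ) (c : ℕ)
    (h' : ∀ᶠ k in X.U, σ' k + τ k ≤ σ k + τ' k + c) : X.Win σ' τ' :=
  Ge.of_add h (h'.mono fun _ hk => by omega) (Le.const X c) one_pos

theorem Ge.div (h : X.Ge n a) (ha : 0 < a) {c : ℕ} (hc : 0 < c) : X.Ge (fun k => n k / c) a := by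
  have h1 : X.Ge (fun k => n k / c * c) a := h.of_add (m := fun _ => c) (.of_forall fun k => by
    have := Nat.div_add_mod (n k) c
    have := Nat.mod_lt (n k) hc
    rw [mul_comm]
    omega) (Le.const X c) ha
  simpa using h1.of_mul (.of_forall fun _ => le_rfl) (Le.const X c)

theorem Win.mid (h : X.Win σ τ) : ∃ ρ, X.Win σ ρ ∧ X.Win ρ τ :=
  ⟨fun k => σ k + (τ k - σ k) / 2, (Ge.div h one_pos two_pos).mono' fun k => by
    dsimp only; omega, (Ge.div h one_pos two_pos).mono' fun k => by dsimp only; omega⟩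

theorem Win.typ {R : Type} [Fintype R] (h : X.Win σ τ) (φ : R → ℕ → ℕ → ℕ) (a : R → ℝ)
    (N : R → ℕ → ℕ) (hN : ∀ r, X.Le (N r) (a r))
    (hφ : ∀ r k t I, ∑ i ∈ range I, φ r k (t + 6 * i) ≤ N r k) :
    ∃ t, X.Win σ t ∧ X.Win t τ ∧ ∀ r, X.Le (fun k => φ r k (t k)) (a r - 1) := by
  obtain ⟨ρ, h1, h2⟩ := h.mid
  obtain ⟨ρ', h3, h4⟩ := h2.mid
  obtain ⟨i, h5, h6⟩ := Cx.typ (X := X) (Γ := fun k => range ((ρ' k - ρ k) / 6)) (g := 1)
    (by simpa using Ge.div h3 one_pos (c := 6) (by norm_num))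
    (fun r k i => φ r k (ρ k + 6 * i)) a fun r => (hN r).mono' fun k => hφ r k _ _
  refine ⟨fun k => ρ k + 6 * i k, h1.mono' fun k => by dsimp only; omega, Ge.mono h4 ?_, h6⟩
  filter_upwards [h5] with k hk
  have := mem_range.1 hk
  omega

end Cx

end Pool.Agent.P.MP_c8ecb2_nt.H29
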