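import Pool.Agent.P.MP_c8ecb2_nt.H29.Calc

set_option autoImplicit false

namespace Pool.Agent.P.MP_c8ecb2_nt.H29

open Finset Filter

namespace Cx

variable {X : Cx}

theorem pw_mono (X : Cx) {a a' : ℝ} (h : a ≤ a') (k : ℕ) : X.pw a k ≤ X.pw a' k :=
  Nat.ceil_mono (X.rp_le k h)

/-- The total weight of the heavy points. -/
def hv (V : Finset ℤ) (w : ℤ → ℕ) (c : ℕ) : ℕ := ∑ v ∈ V.filter (c ≤ w ·), w v

theorem hv_mono {V : Finset ℤ} {w w' : ℤ → ℕ} {c c' : ℕ} (hw : ∀ v, w' v ≤ w v) (hc : c ≤ c') :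
    hv V w' c' ≤ hv V w c :=
  (sum_le_sum fun v _ => hw v).trans (sum_le_sum_of_subset
    (monotone_filter_right _ fun v _ h => hc.trans (h.trans (hw v))))

theorem dom {V : ℕ → Finset ℤ} {w : ℕ → ℕ → ℤ → ℕ} {σ t : ℕ → ℕ} {μ : ℝ}
    (hw : ∀ k s s' v, s ≤ s' → w k s' v ≤ w k s v) (hW : X.Win σ t)
    (hU : X.Le (fun k => ∑ v ∈ V k, w k (σ k) v) μ)
    (hL : ∀ s : ℕ → ℕ, X.Ge (fun k => ∑ v ∈ V k, w k (s k) v) μ) :
    ∃ (M ζ : ℝ) (s₁ s s₂ : ℕ → ℕ) (Γ : ℕ → Finset ℤ), 0 ≤ M ∧ 0 < ζ ∧ ζ ≤ 1 ∧ (μ - 1 < M → ζ = 1) ∧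
      (∀ᶠ k in X.U, σ k ≤ s₁ k ∧ s₁ k < s k ∧ s₂ k ≤ t k ∧ Γ k ⊆ V k) ∧ X.Win s s₂ ∧
      X.Le (fun k => hv (V k) (w k (s₁ k)) (X.pw (M + 1) k)) (μ - ζ) ∧
      X.Le (fun k => (Γ k).card) (μ - M) ∧ X.Ge (fun k => (Γ k).card) (μ - M) ∧
      X.Ge (fun k => ∑ v ∈ Γ k, w k (s₂ k) v) μ ∧ ∀ γ : ℕ → ℤ, (∀ᶠ k in X.U, γ k ∈ Γ k) →
        X.Ge (fun k => w k (s₂ k) (γ k)) M ∧ X.Le (fun k => w k (s k) (γ k)) M := by
  set S := {a | ∃ s : ℕ → ℕ, (∀ᶠ k in X.U, σ k ≤ s k) ∧ X.Win s t ∧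
    ¬X.Ge (fun k => hv (V k) (w k (s k)) (X.pw a k)) μ} with hS
  have z : ∀ a, μ < a → ∀ s : ℕ → ℕ, (∀ᶠ k in X.U, σ k ≤ s k) →
      ∀ᶠ k in X.U, hv (V k) (w k (s k)) (X.pw a k) = 0 := fun a ha s hs => by
    filter_upwards [hU.lt (X.pw_ge a) ha, hs] with k h1 h2
    refine sum_eq_zero fun v hv => ?_
    have := single_le_sum (f := w k (σ k)) (fun _ _ => Nat.zero_le _) (mem_filter.1 hv).1
    have := (mem_filter.1 hv).2
    have := hw k _ _ v h2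
    omega
  have ne : S.Nonempty := ⟨μ + 1, σ, .of_forall fun _ => le_rfl, hW, fun h => by
    obtain ⟨k, h1, h2⟩ := (h.pos.and (z (μ + 1) (by linarith) σ (.of_forall fun _ => le_rfl))).exists
    omega⟩
  have bd : ∀ a ∈ S, 0 ≤ a := fun a ⟨s, _, _, h⟩ => by
    by_contra ha
    refine h ((hL s).mono' fun k => ?_)
    have : X.pw a k ≤ 1 := (X.pw_mono (not_le.1 ha).le k).trans (by simp [pw])
    rw [hv, sum_filter]
    refine sum_le_sum fun v _ => ?_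
    split_ifs <;> omega
  set M := sInf S with hM
  have f1 : ∀ a < M, ∀ s : ℕ → ℕ, (∀ᶠ k in X.U, σ k ≤ s k) → X.Win s t →
      X.Ge (fun k => hv (V k) (w k (s k)) (X.pw a k)) μ := fun a ha s h1 h2 => by
    by_contra h
    exact absurd (csInf_le ⟨0, bd⟩ ⟨s, h1, h2, h⟩) (not_le.2 ha)
  have f2 : ∀ a, M < a → ∃ s : ℕ → ℕ, (∀ᶠ k in X.U, σ k ≤ s k) ∧ X.Win s t ∧ ∃ a' < μ,
      X.Le (fun k => hv (V k) (w k (s k)) (X.pw a k)) a' := fun a ha => by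
    obtain ⟨b, ⟨s, h1, h2, h3⟩, hb⟩ := exists_lt_of_csInf_lt ne ha
    obtain ⟨a', h4, h5⟩ := not_ge h3
    exact ⟨s, h1, h2, a', h4, h5.mono' fun k => hv_mono (fun _ => le_rfl) (X.pw_mono hb.le k)⟩
  obtain ⟨s₁, a1, a2, a', a3, a4⟩ := f2 (M + 1) (by linarith)
  obtain ⟨ζ, z1, z2, z3, z4⟩ : ∃ ζ : ℝ, 0 < ζ ∧ ζ ≤ 1 ∧ (μ - 1 < M → ζ = 1) ∧
      X.Le (fun k => hv (V k) (w k (s₁ k)) (X.pw (M + 1) k)) (μ - ζ) := by
    by_cases h : μ - 1 < M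
    · exact ⟨1, one_pos, le_rfl, fun _ => rfl, Le.of_zero (z _ (by linarith) _ a1)⟩
    · exact ⟨min (μ - a') 1, lt_min (by linarith) one_pos, min_le_right _ _, fun h' => absurd h' h,
        a4.weak (by linarith [min_le_left (μ - a') 1])⟩
  obtain ⟨y, hy⟩ := X.diag (Z := ℕ × ℕ × Finset ℤ) (fun δ k y => (s₁ k < y.1 ∧ y.2.1 ≤ t k ∧
    y.2.2 ⊆ V k) ∧ X.ge δ k (y.2.1 - y.1) 1 ∧ X.ge δ k (∑ v ∈ y.2.2, w k y.2.1 v) μ ∧
    ∀ v ∈ y.2.2, X.ge δ k (w k y.2.1 v) M ∧ X.le δ k (w k y.1 v) M)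
    (fun δ δ' k y _ h ⟨h1, h2, h3, h4⟩ => ⟨h1, h2.mono (by linarith), h3.mono (by linarith),
      fun v hv => ⟨(h4 v hv).1.mono (by linarith), (h4 v hv).2.mono (by linarith)⟩⟩) fun δ hδ => by
    obtain ⟨s', b1, b2, b', b3, b4⟩ := f2 (M + δ) (by linarith)
    have b5 : X.Win (fun k => max (s' k) (s₁ k + 1)) t :=
      Ge.of_lt fun c hc h => by
        rcases X.U.em fun k => s₁ k + 1 ≤ s' k with h' | h'
        · exact absurd (Ge.le_of (b2.shift 0 (h'.mono fun k hk => by omega)) h) (not_le.2 hc)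
        · exact absurd (Ge.le_of (a2.shift 1 (h'.mono fun k hk => by omega)) h) (not_le.2 hc)
    obtain ⟨s₂, b6, b7⟩ := b5.mid
    have b8 : ∀ᶠ k in X.U, σ k ≤ s₂ k := by
      filter_upwards [b1, b6.ev 0] with k h1 h2
      omega
    set s := fun k => max (s' k) (s₁ k + 1) with hs
    set Γ := fun k => (V k).filter fun v => X.pw (M - δ) k ≤ w k (s₂ k) v ∧
      w k (s k) v < X.pw (M + δ) k with hΓ
    have b9 : X.Ge (fun k => ∑ v ∈ Γ k, w k (s₂ k) v) μ :=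
      (f1 (M - δ) (by linarith) s₂ b8 b7).of_add (by
        filter_upwards [b6.ev 0] with k hk
        refine le_trans ?_ (Nat.add_le_add_left (hv_mono (w' := w k (s k))
          (fun v => hw k _ _ v (le_max_left _ _)) le_rfl) _)
        simp only [hv, hΓ, sum_filter, ← sum_add_distrib]
        refine sum_le_sum fun v _ => ?_
        have := hw k (s k) (s₂ k) v hk
        split_ifs <;> omega) b4 b3
    refine ⟨fun k => (s k, s₂ k, Γ k), ?_⟩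
    filter_upwards [b6 δ hδ, b9 δ hδ, b7.ev 0] with k c1 c2 c3
    exact ⟨⟨lt_max_of_lt_right (by omega), c3, filter_subset _ _⟩, c1, c2, fun v hv =>
      ⟨Nat.ceil_le.1 (mem_filter.1 hv).2.1, (Nat.lt_ceil.1 (mem_filter.1 hv).2.2).le⟩⟩
  have c1 := (hy 1 one_pos).mono fun _ hk => hk.1
  have c2 : X.Win (fun k => (y k).1) fun k => (y k).2.1 := fun δ hδ => (hy δ hδ).mono fun _ hk => hk.2.1
  have c3 : X.Ge (fun k => ∑ v ∈ (y k).2.2, w k (y k).2.1 v) μ :=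
    fun δ hδ => (hy δ hδ).mono fun _ hk => hk.2.2.1
  refine ⟨M, ζ, s₁, fun k => (y k).1, fun k => (y k).2.1, fun k => (y k).2.2, le_csInf ne bd, z1, z2,
    z3, (a1.and c1).mono fun _ hk => ⟨hk.1, hk.2⟩, c2, z4, Le.of_forall fun δ hδ => ?_,
    c3.of_mul (m := fun k => (y k).2.2.sup (w k (y k).1)) ?_ fun δ hδ => ?_, c3, fun γ hγ =>
    ⟨fun δ hδ => ?_, fun δ hδ => ?_⟩⟩
  · refine (hU.of_mul ?_ (X.pw_ge (M - δ))).weak (by linarith)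
    filter_upwards [hy δ hδ, c2.ev 0, a1] with k ⟨d1, _, _, d2⟩ d3 d4
    refine (card_nsmul_le_sum _ _ _ fun v hv => (Nat.ceil_le.2 (d2 v hv).1).trans
      (hw k (σ k) _ v (by omega))).trans (sum_le_sum_of_subset d1.2.2)
  · filter_upwards [c2.ev 0] with k d1
    exact sum_le_card_nsmul _ _ _ fun v hv => (hw k _ _ v d1).trans (le_sup hv)
  · filter_upwards [hy δ hδ] with k ⟨_, _, _, d2⟩
    rcases (y k).2.2.eq_empty_or_nonempty with h | h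
    · simpa [h, le] using (X.rp_pos k _).le
    · obtain ⟨v, v1, v2⟩ := exists_mem_eq_sup _ h (w k (y k).1)
      exact v2 ▸ (d2 v v1).2
  · filter_upwards [hy δ hδ, hγ] with k d1 d2 using (d1.2.2.2 _ d2).1
  · filter_upwards [hy δ hδ, hγ] with k d1 d2 using (d1.2.2.2 _ d2).2

end Cx

end Pool.Agent.P.MP_c8ecb2_nt.H29
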