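import Pool.Agent.P.MP_c8ecb2_nt.H29.Init

set_option autoImplicit false

namespace Pool.Agent.P.MP_c8ecb2_nt.H29

open Finset Filter H14 Cx Polynomial

theorem core {β θ : ℝ} (hβ : Base β) {c : ℕ → ℤ} {A : ℕ} (h1 : 1 ≤ A)
    (dig : ∀ n, (c n).natAbs ≤ A) (app : ∀ T : ℕ, |θ - ps β c T| ≤ A * β ^ (T : ℤ))
    (hθ : Irrational θ) {F : ℤ[X]} (hF : F ≠ 0) (h0 : (F.map (algebraMap ℤ ℝ)).eval θ = 0)
    (v : ℕ) : ∃ H : ℕ, 1 ≤ H ∧ ∀ᶠ k : ℕ in atTop, k ^ (v * H) < (Wn c 0 (2 ^ k ^ (2 * H))).card := by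
  obtain ⟨R, hR⟩ := not_St v Unit (fun _ => F.natDegree) (fun _ => v) fun _ => le_rfl
  refine ⟨3 * R + 8, by omega, ?_⟩
  by_contra h
  have := frequently_iff_neBot.1 (not_eventually.1 h)
  set U := Ultrafilter.of (atTop ⊓ principal {k : ℕ | ¬k ^ (v * (3 * R + 8)) <
    (Wn c 0 (2 ^ k ^ (2 * (3 * R + 8)))).card}) with hU
  have u1 : (U : Filter ℕ) ≤ atTop := (Ultrafilter.of_le _).trans inf_le_left
  have u2 := le_principal_iff.1 ((Ultrafilter.of_le _).trans inf_le_right : (U : Filter ℕ) ≤ _)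
  set X : Cx := ⟨U, fun k => max k 4, tendsto_atTop_mono (fun k => le_max_left _ _) u1,
    fun k => le_max_right _ _⟩ with hX
  choose f f1 f2 f3 f4 using fun k => exists_f hβ dig ((2 ^ X.l k ^ (6 * R + 14 + 1)) ^ X.l k)
  have a1 : X.Le (fun k => (Wn c 0 ((2 ^ X.l k ^ (6 * R + 14 + 1)) ^ X.l k)).card)
      ((v * (3 * R + 8) : ℕ) * 1) := ((Le.l X).pow _).mono (by
    filter_upwards [u2, u1 (eventually_ge_atTop 4)] with k a1 a2
    rw [show X.l k = k from max_eq_left a2, ← pow_mul, ← pow_succ,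
      show 6 * R + 14 + 1 + 1 = 2 * (3 * R + 8) by ring]
    exact not_lt.1 a1)
  obtain ⟨μ, m1, m2⟩ := Ctx.init ⟨X, fun k => 2 ^ X.l k ^ (6 * R + 14 + 1), fun k =>
      Nat.pow_le_pow_right two_pos (Nat.le_self_pow (by omega) _), β, hβ, f, f4,
      (a1.se.mul (SE.const X A)).mono' f3⟩ hθ hF h0 h1 (by simpa [ps] using app 0)
    (Q := 6 * R + 14) (η := 6 * R + 11) (by linarith [R.cast_nonneg (α := ℝ)])
    (by push_cast; linarith) (fun _ => rfl)
    (fun k => ⟨fun z hz => by simpa using (Wn_bd (f2 k hz)).1, by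
      dsimp only
      rw [f1]
      exact app _⟩) (a1.mono' fun k => card_le_card (f2 k))
  exact hR _ (3 * R + 8) _ _ (by linarith [R.cast_nonneg (α := ℝ)]) (by linarith)
    (fun _ _ => m1.trans_eq (by push_cast; ring)) m2

/-- A real number with bounded signed digits that is algebraic and irrational has more than
`(log N) ^ r` nonzero digits among the first `N`, for every `r`. -/
theorem sparse {β θ : ℝ} (hβ : Base β) {c : ℕ → ℤ} {A : ℕ} (h1 : 1 ≤ A)
    (dig : ∀ n, (c n).natAbs ≤ A) (app : ∀ T : ℕ, |θ - ps β c T| ≤ A * β ^ (T : ℤ))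
    (hθ : Irrational θ) (ha : IsAlgebraic ℚ θ) (r : ℕ) : ∀ᶠ N : ℕ in atTop,
      Real.log N ^ r + 1 ≤ (Wn c 0 N).card := by
  obtain ⟨F, hF, h0⟩ := (IsFractionRing.isAlgebraic_iff ℤ ℚ ℝ).2 ha
  rw [aeval_def, eval₂_eq_eval_map] at h0
  obtain ⟨H, h2, h3⟩ := core hβ h1 dig app hθ hF h0 (4 * r)
  obtain ⟨k₀, hk⟩ := eventually_atTop.1 (h3.and (eventually_ge_atTop 2))
  filter_upwards [eventually_ge_atTop (2 ^ k₀ ^ (2 * H))] with N hN
  have n0 : N ≠ 0 := by have := Nat.one_le_two_pow (n := k₀ ^ (2 * H)); omega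
  set k := (2 * H).nthRoot (Nat.log 2 N) with hk'
  have a1 : k ^ (2 * H) ≤ Nat.log 2 N := Nat.pow_nthRoot_le (.inl (by omega))
  have a2 : Nat.log 2 N < (k + 1) ^ (2 * H) := Nat.lt_pow_nthRoot_add_one (by omega) _
  obtain ⟨a3, a4⟩ := hk k ((Nat.le_nthRoot_iff (by omega)).2 (Nat.le_log_of_pow_le one_lt_two hN))
  have a5 := a3.trans_le (card_le_card (Wn_mono le_rfl
    ((Nat.pow_le_pow_right two_pos a1).trans (Nat.pow_log_le_self 2 n0))))
  have a6 : Real.log N ≤ ((k + 1) ^ (2 * H) : ℕ) := by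
    have b1 : (N : ℝ) ≤ 2 ^ ((k + 1) ^ (2 * H)) := by
      exact_mod_cast (Nat.lt_pow_succ_log_self one_lt_two N).le.trans
        (Nat.pow_le_pow_right two_pos a2)
    refine (Real.log_le_log (by positivity) b1).trans ?_
    rw [Real.log_pow]
    exact mul_le_of_le_one_right (Nat.cast_nonneg _) (by linarith [Real.log_two_lt_d9])
  have a7 : ((k + 1) ^ (2 * H)) ^ r ≤ k ^ (4 * r * H) := by
    calc _ ≤ ((k ^ 2) ^ (2 * H)) ^ r := by gcongr; nlinarith
      _ = _ := by rw [← pow_mul, ← pow_mul]; congr 1; ring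
  have a8 := pow_le_pow_left₀ (Real.log_natCast_nonneg N) a6 r
  have a9 : ((((k + 1) ^ (2 * H)) ^ r + 1 : ℕ) : ℝ) ≤ (Wn c 0 N).card := by
    exact_mod_cast (by omega : ((k + 1) ^ (2 * H)) ^ r + 1 ≤ (Wn c 0 N).card)
  push_cast at a8 a9
  linarith

theorem changes {b : ℕ} (hb : 2 ≤ b) {n : ℕ} (α : Fin n → ℝ) {x : ℝ}
    (hx : x ∈ Submodule.span ℚ (insert 1 (Set.range α))) (hi : Irrational x)
    (ha : IsAlgebraic ℚ x) {q : ℕ} (hq : 1 ≤ q) (s : ℕ) : ∀ᶠ N : ℕ in atTop,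
      Real.log N ^ s ≤ ((filter (fun i : ℕ => ∃ j,
        ⌊α j * (b : ℝ) ^ (i + q)⌋ % (b : ℤ) ≠ ⌊α j * (b : ℝ) ^ i⌋ % (b : ℤ))
          (Icc 1 N)).card : ℝ) := by
  classical
  have hβ : Base (b : ℝ)⁻¹ := ⟨b, hb, rfl⟩
  have hb0 : (0 : ℝ) < b := by positivity
  have hc : (b : ℤ) ^ q - 1 ≠ 0 := by
    have : (1 : ℤ) < (b : ℤ) ^ q := one_lt_pow₀ (by omega) (by omega)
    omega
  obtain ⟨r₀, y, hy, h⟩ := Submodule.mem_span_insert.1 hx
  obtain ⟨r, rfl⟩ := (Submodule.mem_span_range_iff_exists_fun ℚ).1 hy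
  obtain ⟨D, hD, z, hz⟩ := clear_den r
  set θ : ℝ := ∑ j, z j * (((b : ℝ) ^ q - 1) * α j) with hθ
  have e1 : θ = ((((b : ℤ) ^ q - 1) * D : ℤ) : ℝ) * (x - r₀) := by
    rw [h, hθ]
    simp only [Rat.smul_def, mul_one, add_sub_cancel_left, mul_sum, ← hz]
    push_cast
    exact sum_congr rfl fun j _ => by ring
  have e2 : Irrational θ := e1 ▸ (hi.sub_ratCast r₀).intCast_mul (mul_ne_zero hc hD)
  have e3 : IsAlgebraic ℚ θ :=
    e1 ▸ (isAlgebraic_intCast _).mul (ha.sub (isAlgebraic_ratCast ℚ r₀))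
  set c : ℕ → ℤ := fun i => ∑ j, z j * dg b q (α j) i with hc'
  obtain ⟨A, hA⟩ := exists_nat_ge
    (1 + |θ| + ∑ j, |(z j : ℝ)| * (|(dg b q (α j) 0 : ℝ)| + b))
  have p0 : 0 ≤ ∑ j, |(z j : ℝ)| * (|(dg b q (α j) 0 : ℝ)| + b) := by positivity
  have p1 := abs_nonneg θ
  have h2 := sparse hβ (c := c) (A := A) (by exact_mod_cast (by linarith : (1 : ℝ) ≤ A))
    (fun i => by
      have : |(c i : ℝ)| ≤ ∑ j, |(z j : ℝ)| * (|(dg b q (α j) 0 : ℝ)| + b) := by
        simp only [hc']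
        push_cast
        refine (abs_sum_le_sum_abs _ _).trans (sum_le_sum fun j _ => ?_)
        rw [abs_mul]
        gcongr
        exact_mod_cast dg_le hb q (α j) i
      have : (((c i).natAbs : ℕ) : ℝ) ≤ A := by
        rw [Nat.cast_natAbs, Int.cast_abs]
        linarith
      exact_mod_cast this)
    (fun T => by
      rcases T with _ | T
      · simp only [ps, range_zero, sum_empty, sub_zero, Nat.cast_zero, zpow_zero, mul_one]
        linarith
      have a1 : ps (b : ℝ)⁻¹ c (T + 1) = ∑ j, z j * ps (b : ℝ)⁻¹ (dg b q (α j)) (T + 1) := by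
        simp only [ps, hc', mul_sum]
        rw [sum_comm]
        push_cast
        simp only [sum_mul, mul_assoc]
      rw [a1, hθ, ← sum_sub_distrib]
      refine (abs_sum_le_sum_abs _ _).trans ?_
      have a2 : ∀ j ∈ univ, |(z j : ℝ) * (((b : ℝ) ^ q - 1) * α j) -
          z j * ps (b : ℝ)⁻¹ (dg b q (α j)) (T + 1)| ≤
          |(z j : ℝ)| * (|(dg b q (α j) 0 : ℝ)| + b) * (b : ℝ)⁻¹ ^ ((T + 1 : ℕ) : ℤ) :=
        fun j _ => by
          rw [← mul_sub, abs_mul, mul_assoc]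
          gcongr
          refine (dg_app hb q (α j) T).trans ?_
          calc 1 / (b : ℝ) ^ T = b * (b : ℝ)⁻¹ ^ ((T + 1 : ℕ) : ℤ) := by
                rw [zpow_natCast, inv_pow]
                field_simp
                ring
            _ ≤ _ := by
                gcongr
                linarith [abs_nonneg (dg b q (α j) 0 : ℝ)]
      refine (sum_le_sum a2).trans ?_
      rw [← sum_mul]
      gcongr
      linarith) e2 e3 s
  filter_upwards [h2] with N hN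
  set C := filter (fun i : ℕ => ∃ j,
    ⌊α j * (b : ℝ) ^ (i + q)⌋ % (b : ℤ) ≠ ⌊α j * (b : ℝ) ^ i⌋ % (b : ℤ)) (Icc 1 N) with hC
  have : (Wn c 0 N).card ≤ C.card + 1 := by
    refine card_image_le.trans ((card_le_card fun i hi => ?_).trans (card_insert_le 0 C))
    obtain ⟨i1, i2⟩ := mem_filter.1 hi
    have i3 := mem_Ico.1 i1
    by_cases i0 : i = 0
    · exact mem_insert.2 (.inl i0)
    refine mem_insert_of_mem (mem_filter.2 ⟨mem_Icc.2 ⟨by omega, by omega⟩, ?_⟩)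
    by_contra hcon
    push Not at hcon
    exact i2 (sum_eq_zero fun j _ => by simp [dg, i0, hcon j])
  have : ((Wn c 0 N).card : ℝ) ≤ C.card + 1 := by exact_mod_cast this
  linarith

end Pool.Agent.P.MP_c8ecb2_nt.H29
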