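import Pool.Agent.P.MP_c8ecb2_nt.H14.Final

set_option autoImplicit false

namespace Pool.Agent.P.MP_c8ecb2_nt.H29

open Finset H14
open scoped Classical Pointwise

/-- Integer Laurent polynomials. -/
abbrev LP := AddMonoidAlgebra ℤ ℤ

/-- Support. -/
def sp (Z : LP) : Finset ℤ := Z.coeff.support

/-- Restriction to a set of exponents. -/
noncomputable def res (κ : ℤ → Prop) (Z : LP) : LP := .ofCoeff (Z.coeff.filter κ)

/-- Sum of the absolute values of the coefficients. -/
def nrm (Z : LP) : ℕ := ∑ a ∈ sp Z, (Z.coeff a).natAbs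

/-- Evaluation at the reciprocal of the base. -/
noncomputable def ev {β : ℝ} (hβ : Base β) : LP →ₐ[ℤ] ℝ :=
  AddMonoidAlgebra.lift ℤ ℝ ℤ ⟨⟨fun a => β ^ a.toAdd, by simp⟩, fun _ _ => zpow_add₀ hβ.pos.ne' _ _⟩

variable {β : ℝ} {hβ : Base β} {κ θ : ℤ → Prop} {Z U V : LP} {a : ℤ}

theorem ev_apply (Z : LP) : ev hβ Z = ∑ a ∈ sp Z, (Z.coeff a : ℝ) * β ^ a := by
  rw [ev, AddMonoidAlgebra.lift_apply]
  exact sum_congr rfl fun a _ => by simp

theorem mem_sp : a ∈ sp Z ↔ Z.coeff a ≠ 0 := Finsupp.mem_support_iff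

theorem coeff_res : (res κ Z).coeff a = if κ a then Z.coeff a else 0 := Finsupp.filter_apply _ _ _

theorem mem_sp_res : a ∈ sp (res κ Z) ↔ a ∈ sp Z ∧ κ a := by
  rw [mem_sp, mem_sp, coeff_res]
  split_ifs with h <;> simp [h]

theorem sp_res_subset : sp (res κ Z) ⊆ sp Z := fun _ h => (mem_sp_res.1 h).1

theorem sp_res_mem {x : Finset ℤ} : sp (res (· ∈ x) Z) ⊆ x := fun _ h => (mem_sp_res.1 h).2

theorem res_add : res κ (U + V) = res κ U + res κ V := by
  ext a
  simp only [coeff_res, AddMonoidAlgebra.coeff_add, Finsupp.add_apply]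
  split_ifs <;> simp

theorem res_sub : res κ (U - V) = res κ U - res κ V := by
  ext a
  simp only [coeff_res, AddMonoidAlgebra.coeff_sub, Finsupp.sub_apply]
  split_ifs <;> simp

theorem res_congr (h : ∀ a ∈ sp Z, κ a ↔ θ a) : res κ Z = res θ Z := by
  ext a
  by_cases ha : a ∈ sp Z
  · simp only [coeff_res, h a ha]
  · simp only [coeff_res, not_not.1 (mem_sp.not.1 ha), ite_self]

theorem res_eq_self (h : ∀ a ∈ sp Z, κ a) : res κ Z = Z := by
  rw [res_congr (θ := fun _ => True) fun a ha => by simp [h a ha]]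
  ext a
  simp [coeff_res]

theorem res_eq_zero (h : ∀ a ∈ sp Z, ¬κ a) : res κ Z = 0 := by
  rw [res_congr (θ := fun _ => False) fun a ha => by simp [h a ha]]
  ext a
  simp [coeff_res]

theorem res_add_not (κ : ℤ → Prop) (Z : LP) : res κ Z + res (¬κ ·) Z = Z := by
  ext a
  simp only [coeff_res, AddMonoidAlgebra.coeff_add, Finsupp.add_apply]
  split_ifs <;> simp

theorem res_split {x y : Finset ℤ} (h : y ⊆ x) (Z : LP) :
    res (· ∈ x) Z = res (· ∈ y) Z + res (· ∈ x \ y) Z := by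
  ext a
  simp only [coeff_res, AddMonoidAlgebra.coeff_add, Finsupp.add_apply, mem_sdiff]
  by_cases h1 : a ∈ y
  · simp [h1, h h1]
  · simp [h1]

theorem sp_add : sp (U + V) ⊆ sp U ∪ sp V := Finsupp.support_add

theorem sp_sub : sp (U - V) ⊆ sp U ∪ sp V := Finsupp.support_sub

theorem sp_mul : sp (U * V) ⊆ sp U + sp V := AddMonoidAlgebra.support_coeff_mul_subset _ _

theorem sp_zero : sp 0 = ∅ := rfl

theorem sp_eq_empty (h : sp Z = ∅) : Z = 0 :=
  AddMonoidAlgebra.coeff_eq_zero.1 (Finsupp.support_eq_empty.1 h)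

theorem sp_single (a c : ℤ) : sp (.single a c) ⊆ {a} := Finsupp.support_single_subset

theorem sp_int (c : ℤ) : sp c ⊆ {0} := sp_single 0 c

theorem res_mul (h : ∀ u ∈ sp U, ∀ v ∈ sp V, κ (u + v) ↔ θ v) : res κ (U * V) = U * res θ V := by
  conv_lhs => rw [← res_add_not θ V, mul_add, res_add]
  rw [res_eq_self, res_eq_zero (κ := κ), add_zero] <;>
  · intro a ha
    obtain ⟨u, hu, v, hv, rfl⟩ := mem_add.1 (sp_mul ha)
    rw [h u hu v (mem_sp_res.1 hv).1]
    exact (mem_sp_res.1 hv).2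

theorem nrm_eq {S : Finset ℤ} (h : sp Z ⊆ S) : nrm Z = ∑ a ∈ S, (Z.coeff a).natAbs :=
  sum_subset h fun a _ ha => by simp [not_not.1 (mem_sp.not.1 ha)]

theorem nrm_add : nrm (U + V) ≤ nrm U + nrm V := by
  rw [nrm_eq sp_add, nrm_eq (Z := U) subset_union_left, nrm_eq (Z := V) subset_union_right,
    ← sum_add_distrib]
  exact sum_le_sum fun a _ => Int.natAbs_add_le _ _

theorem nrm_sub : nrm (U - V) ≤ nrm U + nrm V := by
  rw [nrm_eq sp_sub, nrm_eq (Z := U) subset_union_left, nrm_eq (Z := V) subset_union_right,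
    ← sum_add_distrib]
  exact sum_le_sum fun a _ => Int.natAbs_sub_le _ _

theorem nrm_res : nrm (res κ Z) ≤ nrm Z := by
  rw [nrm_eq sp_res_subset]
  refine sum_le_sum fun a _ => ?_
  rw [coeff_res]
  split_ifs <;> simp

theorem nrm_single (a c : ℤ) : nrm (.single a c) = c.natAbs := by
  rw [nrm_eq (sp_single a c), sum_singleton, AddMonoidAlgebra.coeff_single, Finsupp.single_eq_same]

theorem nrm_int (c : ℤ) : nrm c = c.natAbs := nrm_single 0 c

theorem nrm_sum {J : Type} (S : Finset J) (F : J → LP) : nrm (∑ j ∈ S, F j) ≤ ∑ j ∈ S, nrm (F j) :=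
  le_sum_of_subadditive nrm rfl.le (fun _ _ => nrm_add) S F

theorem nrm_mul : nrm (U * V) ≤ nrm U * nrm V := by
  rw [AddMonoidAlgebra.mul_def, nrm.eq_1 U, nrm.eq_1 V, sum_mul_sum]
  refine (nrm_sum _ _).trans (sum_le_sum fun a _ => (nrm_sum _ _).trans (sum_le_sum fun b _ => ?_))
  rw [nrm_single, Int.natAbs_mul]

theorem nrm_pow (Z : LP) (n : ℕ) : nrm (Z ^ n) ≤ nrm Z ^ n := by
  induction n with
  | zero => exact (nrm_single 0 1).le
  | succ n ih => rw [pow_succ, pow_succ]; exact nrm_mul.trans (Nat.mul_le_mul_right _ ih)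

theorem card_sp : (sp Z).card ≤ nrm Z := by
  rw [card_eq_sum_ones]
  exact sum_le_sum fun a ha => Int.natAbs_pos.2 (mem_sp.1 ha)

theorem rep (hβ : Base β) (Z : LP) : Rep β (sp Z) (nrm Z) (ev hβ Z) := by
  rw [ev_apply, nrm]
  suffices h : ∀ S ⊆ sp Z, Rep β (sp Z) (∑ a ∈ S, (Z.coeff a).natAbs)
    (∑ a ∈ S, (Z.coeff a : ℝ) * β ^ a) from h _ subset_rfl
  intro S
  induction S using Finset.induction_on with
  | empty => exact fun _ => by simpa using .zero _
  | insert a S ha ih =>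
    intro h
    rw [sum_insert ha, sum_insert ha]
    exact (Rep.int_mul_pow (h (mem_insert_self _ _)) _ le_rfl).add
      (ih ((subset_insert _ _).trans h))

theorem ev_res {G : ℕ} (n : ℕ) : ∀ Z : LP, (sp Z).card ≤ n → ev hβ Z = 0 → nrm Z ≤ G →
    (∀ z ∈ sp Z, ∀ z' ∈ sp Z, κ z → ¬κ z' → G < |z - z'|) → ev hβ (res κ Z) = 0 := by
  have k : ∀ (H : LP) (a : ℤ), (∀ z ∈ sp H, κ z ↔ κ a) → ev hβ H = 0 → ev hβ (res κ H) = 0 :=
    fun H a h h0 => by
      by_cases ha : κ a
      · rwa [res_eq_self fun z hz => (h z hz).2 ha]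
      · rw [res_eq_zero fun z hz hk => ha ((h z hz).1 hk), map_zero]
  induction n with
  | zero => exact fun Z h h0 _ _ => k Z 0 (by simp [card_eq_zero.1 (Nat.le_zero.1 h)]) h0
  | succ n ih =>
    intro Z h h0 hG hs
    rcases (sp Z).eq_empty_or_nonempty with h1 | h1
    · exact k Z 0 (by simp [h1]) h0
    obtain ⟨a, a1, a2⟩ := exists_min_image (sp Z) id h1
    rcases ((sp Z).filter fun z => ¬(κ z ↔ κ a)).eq_empty_or_nonempty with h2 | h2
    · exact k Z a (fun z hz => not_not.1 (filter_eq_empty_iff.1 h2 hz)) h0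
    obtain ⟨b, b1, b2⟩ := exists_min_image _ id h2
    obtain ⟨b3, b4⟩ := mem_filter.1 b1
    have c1 : ∀ z ∈ sp (res (· < b) Z), κ z ↔ κ a := fun z hz => by
      by_contra hn
      have := b2 z (mem_filter.2 ⟨(mem_sp_res.1 hz).1, hn⟩)
      have := (mem_sp_res.1 hz).2
      simp only [id] at *
      omega
    have c2 := res_add_not (· < b) Z
    have c3 : ev hβ (res (· < b) Z) + ev hβ (res (¬· < b) Z) = 0 := by rw [← map_add, c2, h0]
    have c4 : ev hβ (res (· < b) Z) = 0 := (rep hβ _).gap hβ (rep hβ (res (¬· < b) Z))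
      (e := b - G) (e' := b) (T := b) (K := 0) (fun z hz => by
        obtain ⟨z1, z2⟩ := mem_sp_res.1 hz
        have z3 := c1 z hz
        have : G < |z - b| := by
          by_cases hb : κ b
          · rw [abs_sub_comm]
            exact hs b b3 z z1 hb (by tauto)
          · exact hs z z1 b b3 (by tauto) hb
        rw [abs_of_neg (by omega)] at this
        omega) (fun z hz => not_lt.1 (mem_sp_res.1 hz).2) (by rw [c3]; simp) le_rfl (by
        have := (nrm_res (κ := (¬· < b)) (Z := Z)).trans hG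
        omega)
    rw [← c2, res_add, map_add, k _ a c1 c4, zero_add]
    refine ih _ ?_ (by linarith) (nrm_res.trans hG) fun z hz z' hz' =>
      hs z (sp_res_subset hz) z' (sp_res_subset hz')
    refine Nat.lt_succ_iff.1 ((card_lt_card ((ssubset_iff_of_subset sp_res_subset).2
      ⟨a, a1, fun ha => ?_⟩)).trans_le h)
    have := (mem_sp_res.1 ha).2
    have := a2 b b3
    simp only [id] at *
    exact b4 (by rw [show b = a by omega])

end Pool.Agent.P.MP_c8ecb2_nt.H29
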