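import Pool.Agent.P.MP_c8ecb2_nt.H29.Ball

set_option autoImplicit false

namespace Pool.Agent.P.MP_c8ecb2_nt.H29

open Finset
open scoped Classical Pointwise

namespace Sc

variable (s : Sc)

/-- Dissociated sets modulo the balls. -/
def Top (P : Finset ℤ) (j : ℕ) (T : Finset ℤ) : Prop :=
  ∀ T' ⊆ T, T'.Nonempty → ∃ l ∈ T', ¬s.In (P ∪ T'.erase l) j 1 l

/-- The steps from `u` inside `W` with labels in `T`. -/
noncomputable def stp (P : Finset ℤ) (j : ℕ) (T W : Finset ℤ) (u : ℤ) : Finset (ℤ × ℤ × ℤ) :=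
  (({1, -1} : Finset ℤ) ×ˢ T ×ˢ W).filter fun y => s.In P j 3 (u + y.1 * y.2.1 - y.2.2)

/-- The weight of the edges entering `g`. -/
noncomputable def er (P : Finset ℤ) (j : ℕ) (w : ℤ → ℕ) (B W : Finset ℤ) (g : ℤ) : ℕ :=
  ∑ b ∈ B, ∑ v ∈ W, if s.In P j 3 (v + b - g) then w v else 0

variable {s} {P T W V B G : Finset ℤ} {j m : ℕ} {w : ℤ → ℕ}

theorem signs_key (hT : s.Top P (j + 1) T) (hm : m + 2 ≤ s.M) {T₁ : Finset ℤ} (h1 : T₁ ⊆ T)
    {F : Finset (ℤ → ℤ)} (h2 : ∀ e ∈ F, ∀ l, |e l| ≤ 1)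
    (h3 : ∀ e ∈ F, ∀ e' ∈ F, ∀ l ∉ T₁, e l = e' l)
    (h5 : ∀ e ∈ F, ∀ e' ∈ F, s.In P j m (∑ l ∈ T, e l * l - ∑ l ∈ T, e' l * l)) :
    F.card ≤ 1 ∨ ∃ l ∈ T₁, ∀ e ∈ F, e l = 1 ∨ e l = -1 := by
  set T' := T₁.filter fun l => ∃ e ∈ F, ∃ e' ∈ F, e l ≠ e' l with hT'
  have h6 : ∀ e ∈ F, ∀ e' ∈ F, ∀ l ∉ T', e l = e' l := fun e he e' he' l hl => by
    by_contra hne
    by_cases h : l ∈ T₁
    · exact hl (mem_filter.2 ⟨h, e, he, e', he', hne⟩)
    · exact hne (h3 e he e' he' l h)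
  rcases T'.eq_empty_or_nonempty with h | h
  · exact .inl (card_le_one.2 fun e he e' he' => funext fun l => h6 e he e' he' l (by simp [h]))
  obtain ⟨l, l1, l2⟩ := hT T' ((filter_subset _ _).trans h1) h
  have h7 : ∀ e ∈ F, ∀ e' ∈ F, e l - e' l ≠ 1 := fun e he e' he' hne => l2 (by
    have a1 : ∑ x ∈ T, e x * x - ∑ x ∈ T, e' x * x = l + ∑ x ∈ T'.erase l, (e x - e' x) * x := by
      rw [← sum_sub_distrib, ← sum_subset ((filter_subset _ _).trans h1 : T' ⊆ T)
        fun x _ hx => by rw [h6 e he e' he' x hx, sub_self], ← add_sum_erase _ _ l1, ← sub_mul, hne,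
        one_mul]
      simp only [sub_mul]
    have a2 : s.In (T'.erase l) j 2 (∑ x ∈ T'.erase l, (e x - e' x) * x) :=
      In.comb (e := fun x => e x - e' x) fun x => by
        have := h2 e he x
        have := h2 e' he' x
        rw [abs_le] at *
        omega
    exact ((((h5 e he e' he').mono subset_union_left le_rfl le_rfl).sub
      (a2.mono subset_union_right le_rfl le_rfl)).cast (by rw [a1]; ring)).up hm)
  obtain ⟨l3, e₁, b1, e₂, b2, b3⟩ := mem_filter.1 l1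
  refine .inr ⟨l, l3, fun e he => ?_⟩
  have := h7 e he e₁ b1
  have := h7 e₁ b1 e he
  have := h7 e he e₂ b2
  have := h7 e₂ b2 e he
  have := abs_le.1 (h2 e he l)
  have := abs_le.1 (h2 e₁ b1 l)
  have := abs_le.1 (h2 e₂ b2 l)
  omega

theorem signs (hT : s.Top P (j + 1) T) (hm : m + 2 ≤ s.M) (n : ℕ) : ∀ T₁ ⊆ T,
    ∀ F : Finset (ℤ → ℤ), (∀ e ∈ F, ∀ l, |e l| ≤ 1) → (∀ e ∈ F, ∀ e' ∈ F, ∀ l ∉ T₁, e l = e' l) →
    (∀ e ∈ F, (T₁.filter (e · ≠ 0)).card ≤ n) →
    (∀ e ∈ F, ∀ e' ∈ F, s.In P j m (∑ l ∈ T, e l * l - ∑ l ∈ T, e' l * l)) → F.card ≤ 2 ^ n := by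
  induction n with
  | zero =>
    intro T₁ h1 F h2 h3 h4 h5
    rcases signs_key hT hm h1 h2 h3 h5 with h | ⟨l, l1, l2⟩
    · simpa using h
    · rcases F.eq_empty_or_nonempty with rfl | ⟨e, he⟩
      · simp
      · have : 0 < (T₁.filter (e · ≠ 0)).card := card_pos.2 ⟨l, mem_filter.2
          ⟨l1, by rcases l2 e he with h | h <;> omega⟩⟩
        have := h4 e he
        omega
  | succ n ih =>
    intro T₁ h1 F h2 h3 h4 h5
    rcases signs_key hT hm h1 h2 h3 h5 with h | ⟨l, l1, l2⟩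
    · exact h.trans Nat.one_le_two_pow
    have k : ∀ c : ℤ, c ≠ 0 → (F.filter (· l = c)).card ≤ 2 ^ n := fun c hc => by
      refine ih (T₁.erase l) ((erase_subset _ _).trans h1) _ (fun e he => h2 e (mem_filter.1 he).1)
        (fun e he e' he' x hx => ?_) (fun e he => ?_)
        fun e he e' he' => h5 e (mem_filter.1 he).1 e' (mem_filter.1 he').1
      · by_cases hxl : x = l
        · rw [hxl, (mem_filter.1 he).2, (mem_filter.1 he').2]
        · exact h3 e (mem_filter.1 he).1 e' (mem_filter.1 he').1 x fun h => hx (mem_erase.2 ⟨hxl, h⟩)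
      · have a1 := h4 e (mem_filter.1 he).1
        have a2 := card_erase_add_one (show l ∈ T₁.filter (e · ≠ 0) from
          mem_filter.2 ⟨l1, (mem_filter.1 he).2 ▸ hc⟩)
        rw [filter_erase]
        omega
    have := card_le_card (show F ⊆ F.filter (· l = 1) ∪ F.filter (· l = -1) from fun e he => by
      rcases l2 e he with h | h <;> simp [he, h])
    have := card_union_le (F.filter (· l = 1)) (F.filter (· l = -1))
    have := k 1 one_ne_zero
    have := k (-1) (by norm_num)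
    omega

theorem mem_stp {u : ℤ} {y : ℤ × ℤ × ℤ} : y ∈ s.stp P j T W u ↔
    ((y.1 = 1 ∨ y.1 = -1) ∧ y.2.1 ∈ T ∧ y.2.2 ∈ W) ∧ s.In P j 3 (u + y.1 * y.2.1 - y.2.2) := by
  simp only [stp, mem_filter, mem_product, mem_insert, mem_singleton]

theorem walk_step (hW : ∀ v ∈ W, ∀ v' ∈ W, s.In P (j + 1) 1 (v - v') → v = v') {c k i : ℕ}
    (hi : i + 1 ≤ k) (hd : ∀ u ∈ W, c + 2 * k ≤ (s.stp P j T W u).card) (v₀ : ℤ)
    (F : Finset ((ℤ → ℤ) × ℤ)) (hF : ∀ x ∈ F, x.2 ∈ W ∧ (∀ l ∉ T, x.1 l = 0) ∧ (∀ l, |x.1 l| ≤ 1) ∧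
      (T.filter (x.1 · ≠ 0)).card ≤ i ∧ s.In P j (3 * i) (v₀ + ∑ l ∈ T, x.1 l * l - x.2)) :
    ∃ F' : Finset ((ℤ → ℤ) × ℤ), (∀ x ∈ F', x.2 ∈ W ∧ (∀ l ∉ T, x.1 l = 0) ∧ (∀ l, |x.1 l| ≤ 1) ∧
      (T.filter (x.1 · ≠ 0)).card ≤ i + 1 ∧
      s.In P j (3 * (i + 1)) (v₀ + ∑ l ∈ T, x.1 l * l - x.2)) ∧ F.card * c ≤ F'.card * k := by
  have sep : ∀ v ∈ W, ∀ v' ∈ W, s.In P j 6 (v - v') → v = v' := fun v hv v' hv' h =>
    hW v hv v' hv' (h.lift' (by omega) (by omega))
  set ex := fun x : (ℤ → ℤ) × ℤ => ((s.stp P j T W x.2).filter fun y => x.1 y.2.1 = 0).image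
    fun y => (Function.update x.1 y.2.1 y.1, y.2.2) with hex
  have inv : ∀ x ∈ F, ∀ x' ∈ ex x, x'.2 ∈ W ∧ (∀ l ∉ T, x'.1 l = 0) ∧ (∀ l, |x'.1 l| ≤ 1) ∧
      (T.filter (x'.1 · ≠ 0)).card ≤ i + 1 ∧
      s.In P j (3 * (i + 1)) (v₀ + ∑ l ∈ T, x'.1 l * l - x'.2) := fun x hx x' hx' => by
    obtain ⟨y, hy, rfl⟩ := mem_image.1 hx'
    obtain ⟨y1, y2⟩ := mem_filter.1 hy
    obtain ⟨⟨y3, y4, y5⟩, y6⟩ := mem_stp.1 y1
    obtain ⟨x1, x2, x3, x4, x5⟩ := hF x hx
    refine ⟨y5, fun l hl => ?_, fun l => ?_, ?_, ?_⟩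
    · dsimp only
      rw [Function.update_of_ne (by rintro rfl; exact hl y4), x2 l hl]
    · dsimp only
      rw [Function.update_apply]
      split_ifs
      · rcases y3 with h | h <;> simp [h]
      · exact x3 l
    · refine (card_le_card (t := insert y.2.1 (T.filter (x.1 · ≠ 0))) fun l hl => ?_).trans
        ((card_insert_le _ _).trans (by omega))
      by_cases h : l = y.2.1
      · exact h ▸ mem_insert_self _ _
      · obtain ⟨l1, l2⟩ := mem_filter.1 hl
        dsimp only at l2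
        rw [Function.update_of_ne h] at l2
        exact mem_insert_of_mem (mem_filter.2 ⟨l1, l2⟩)
    · refine (x5.add y6).cast ?_
      dsimp only
      have : ∑ l ∈ T.erase y.2.1, Function.update x.1 y.2.1 y.1 l * l =
          ∑ l ∈ T.erase y.2.1, x.1 l * l :=
        sum_congr rfl fun l hl => by rw [Function.update_of_ne (mem_erase.1 hl).1]
      rw [← add_sum_erase _ _ y4, ← add_sum_erase _ _ y4, Function.update_self, y2, this]
      ring
  refine ⟨F.biUnion ex, fun x' hx' => ?_, ?_⟩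
  · obtain ⟨x, hx, h⟩ := mem_biUnion.1 hx'
    exact inv x hx x' h
  refine card_mul_le_card_mul (fun x x' => x' ∈ ex x) (fun x hx => ?_) fun x' hx' => ?_
  · obtain ⟨x1, x2, x3, x4, x5⟩ := hF x hx
    refine le_trans ?_ (card_le_card (s := ex x) fun x' h =>
      mem_bipartiteAbove _ |>.2 ⟨mem_biUnion.2 ⟨x, hx, h⟩, h⟩)
    rw [hex, card_image_of_injOn fun y hy y' hy' h => by
      obtain ⟨y1, y2⟩ := mem_filter.1 hy
      obtain ⟨y1', y2'⟩ := mem_filter.1 hy'
      have a1 := (mem_stp.1 y1).1.1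
      obtain ⟨a2, a3⟩ := Prod.mk.inj h
      have a4 := congrFun a2 y.2.1
      rw [Function.update_self, Function.update_apply] at a4
      split_ifs at a4 with a5
      · exact Prod.ext a4 (Prod.ext a5 a3)
      · omega]
    have b1 := card_filter_add_card_filter_not (s := s.stp P j T W x.2) fun y => x.1 y.2.1 = 0
    have b2 : ((s.stp P j T W x.2).filter fun y => ¬x.1 y.2.1 = 0).card ≤
        (({1, -1} : Finset ℤ) ×ˢ T.filter (x.1 · ≠ 0)).card :=
      card_le_card_of_injOn (fun y => (y.1, y.2.1)) (fun y hy => by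
        obtain ⟨y1, y2⟩ := mem_filter.1 hy
        obtain ⟨⟨y3, y4, -⟩, -⟩ := mem_stp.1 y1
        exact mem_product.2 ⟨by simpa using y3, mem_filter.2 ⟨y4, y2⟩⟩) fun y hy y' hy' h => by
        obtain ⟨⟨-, -, y5⟩, y6⟩ := mem_stp.1 (mem_filter.1 hy).1
        obtain ⟨⟨-, -, y5'⟩, y6'⟩ := mem_stp.1 (mem_filter.1 hy').1
        obtain ⟨a2, a3⟩ := Prod.mk.inj h
        exact Prod.ext a2 (Prod.ext a3 (sep _ y5 _ y5' ((y6'.sub y6).cast (by rw [a2, a3]; ring))))
    rw [card_product, card_pair (by norm_num)] at b2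
    have := hd x.2 x1
    omega
  · obtain ⟨x₀, hx₀, h₀⟩ := mem_biUnion.1 hx'
    refine le_trans ?_ ((inv x₀ hx₀ x' h₀).2.2.2.1.trans hi)
    refine (card_le_card (t := (T.filter (x'.1 · ≠ 0)).biUnion fun b => F.filter fun x =>
      x.1 = Function.update x'.1 b 0 ∧ s.In P j 3 (x.2 + x'.1 b * b - x'.2)) fun x hx => ?_).trans
      ((card_biUnion_le_card_mul _ _ 1 fun b _ => card_le_one.2 fun x hx y hy => ?_).trans
        (by simp))
    · obtain ⟨x1, x2⟩ := (mem_bipartiteBelow _).1 hx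
      obtain ⟨y, hy, rfl⟩ := mem_image.1 x2
      obtain ⟨y1, y2⟩ := mem_filter.1 hy
      obtain ⟨⟨y3, y4, y5⟩, y6⟩ := mem_stp.1 y1
      refine mem_biUnion.2 ⟨y.2.1, mem_filter.2 ⟨y4, ?_⟩, mem_filter.2 ⟨x1, ?_, ?_⟩⟩
      · dsimp only
        rw [Function.update_self]
        omega
      · dsimp only
        rw [Function.update_idem, ← y2, Function.update_eq_self]
      · simpa using y6
    · obtain ⟨x1, x2, x3⟩ := mem_filter.1 hx
      obtain ⟨y1, y2, y3⟩ := mem_filter.1 hy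
      exact Prod.ext (x2.trans y2.symm)
        (sep _ (hF x x1).1 _ (hF y y1).1 ((x3.sub y3).cast (by ring)))

theorem walk (hT : s.Top P (j + 1) T) (hW : ∀ v ∈ W, ∀ v' ∈ W, s.In P (j + 1) 1 (v - v') → v = v')
    {k l : ℕ} (hk : 1 ≤ k) (hM : 6 * k + 2 ≤ s.M) (hl : W.card ≤ l ^ k) (h0 : W.Nonempty) :
    ∃ u ∈ W, (s.stp P j T W u).card ≤ 2 * k * l + 2 * k := by
  by_contra h
  push Not at h
  obtain ⟨v₀, hv₀⟩ := h0
  have : ∀ i ≤ k, ∃ F : Finset ((ℤ → ℤ) × ℤ), (∀ x ∈ F, x.2 ∈ W ∧ (∀ l ∉ T, x.1 l = 0) ∧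
      (∀ l, |x.1 l| ≤ 1) ∧ (T.filter (x.1 · ≠ 0)).card ≤ i ∧
      s.In P j (3 * i) (v₀ + ∑ l ∈ T, x.1 l * l - x.2)) ∧ (2 * k * l + 1) ^ i ≤ F.card * k ^ i :=
    fun i hi => by
      induction i with
      | zero => exact ⟨{(0, v₀)}, by simpa using ⟨hv₀, In.zero⟩, by simp⟩
      | succ i ih =>
        obtain ⟨F, h1, h2⟩ := ih (by omega)
        obtain ⟨F', h3, h4⟩ := walk_step hW (c := 2 * k * l + 1) hi
          (fun u hu => by have := h u hu; omega) v₀ F h1
        refine ⟨F', h3, ?_⟩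
        calc _ ≤ F.card * k ^ i * (2 * k * l + 1) := by
              rw [pow_succ]
              exact Nat.mul_le_mul_right _ h2
          _ = F.card * (2 * k * l + 1) * k ^ i := by ring
          _ ≤ F'.card * k * k ^ i := Nat.mul_le_mul_right _ h4
          _ = _ := by ring
  obtain ⟨F, h1, h2⟩ := this k le_rfl
  have h3 : F.card ≤ 2 ^ k * W.card := card_le_mul_card_image_of_maps_to (f := Prod.snd)
    (fun x hx => (h1 x hx).1) _ fun v _ => by
      rw [← card_image_of_injOn (f := Prod.fst) fun x hx y hy h =>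
        Prod.ext h ((mem_filter.1 hx).2.trans (mem_filter.1 hy).2.symm)]
      refine signs hT (m := 3 * k + 3 * k) (by omega) k T subset_rfl _ ?_ ?_ ?_ ?_ <;>
        simp only [forall_mem_image, mem_filter]
      · exact fun x hx => (h1 x hx.1).2.2.1
      · exact fun x hx y hy l hl => ((h1 x hx.1).2.1 l hl).trans ((h1 y hy.1).2.1 l hl).symm
      · exact fun x hx => (h1 x hx.1).2.2.2.1
      · exact fun x hx y hy => ((h1 x hx.1).2.2.2.2.sub (h1 y hy.1).2.2.2.2).cast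
          (by rw [hx.2, hy.2]; ring)
  have h4 : (2 * k * l) ^ k < (2 * k * l + 1) ^ k := Nat.pow_lt_pow_left (by omega) (by omega)
  have h5 : F.card * k ^ k ≤ 2 ^ k * l ^ k * k ^ k :=
    Nat.mul_le_mul_right _ (h3.trans (Nat.mul_le_mul_left _ hl))
  rw [mul_pow, mul_pow] at h4
  nlinarith

theorem card_stp (u : ℤ) : (s.stp P j T W u).card =
    ∑ b ∈ T, ∑ v ∈ W, (if s.In P j 3 (u + b - v) then 1 else 0) +
      ∑ b ∈ T, ∑ v ∈ W, if s.In P j 3 (v + b - u) then 1 else 0 := by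
  rw [stp, card_filter, sum_product, sum_pair (by norm_num), sum_product, sum_product]
  congr 1
  · simp only [one_mul]
  · refine sum_congr rfl fun b _ => sum_congr rfl fun v _ => if_congr ?_ rfl rfl
    exact ⟨fun h => h.neg.cast (by ring), fun h => h.neg.cast (by ring)⟩

theorem degen (hT : s.Top P (j + 1) T) {k l c : ℕ} (hk : 1 ≤ k) (hM : 6 * k + 2 ≤ s.M)
    (hw : ∀ v, w v ≤ c) (W : Finset ℤ) : (∀ v ∈ W, ∀ v' ∈ W, s.In P (j + 1) 1 (v - v') → v = v') →
    W.card ≤ l ^ k → ∀ G ⊆ W, ∑ g ∈ G, s.er P j w T W g ≤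
      (2 * k * l + 2 * k) * (∑ v ∈ W, w v + G.card * c) := by
  induction W using Finset.strongInductionOn with
  | _ W ih =>
    intro hW hl G hG
    rcases W.eq_empty_or_nonempty with rfl | h0
    · simp [er]
    obtain ⟨u, hu, h1⟩ := walk hT hW hk hM hl h0
    rw [card_stp] at h1
    have h2 := ih (W.erase u) (erase_ssubset hu)
      (fun v hv v' hv' => hW v (mem_of_mem_erase hv) v' (mem_of_mem_erase hv'))
      (card_erase_le.trans hl) (G.erase u) (erase_subset_erase _ hG)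
    have h3 : ∑ g ∈ G.erase u, s.er P j w T W g ≤ ∑ g ∈ G.erase u, s.er P j w T (W.erase u) g +
        (2 * k * l + 2 * k) * w u := by
      have : ∀ g, s.er P j w T W g = s.er P j w T (W.erase u) g +
          (∑ b ∈ T, if s.In P j 3 (u + b - g) then 1 else 0) * w u := fun g => by
        simp only [er, ← add_sum_erase _ _ hu, sum_add_distrib, sum_mul, ite_mul, one_mul, zero_mul]
        rw [add_comm]
      simp only [this, sum_add_distrib, ← sum_mul]
      gcongr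
      refine le_trans ?_ ((Nat.le_add_right _ _).trans h1)
      rw [sum_comm]
      exact sum_le_sum fun b _ => sum_le_sum_of_subset ((erase_subset _ _).trans hG)
    have h4 : s.er P j w T W u ≤ (2 * k * l + 2 * k) * c := by
      refine le_trans ?_ (Nat.mul_le_mul_right _ ((Nat.le_add_left _ _).trans h1))
      simp only [er, sum_mul, ite_mul, one_mul, zero_mul]
      refine sum_le_sum fun b _ => sum_le_sum fun v _ => ?_
      split_ifs
      exacts [hw v, le_rfl]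
    rw [← add_sum_erase _ _ hu]
    by_cases hG' : u ∈ G
    · rw [← add_sum_erase _ _ hG', ← card_erase_add_one hG']
      nlinarith
    · rw [erase_eq_of_notMem hG'] at h2 h3
      nlinarith

theorem er_triv (hG : ∀ v ∈ G, ∀ v' ∈ G, s.In P (j + 1) 1 (v - v') → v = v') :
    ∑ g ∈ G, s.er P j w B W g ≤ B.card * ∑ v ∈ W, w v := by
  simp only [er]
  rw [sum_comm]
  refine sum_le_card_nsmul _ _ _ fun b _ => ?_
  rw [sum_comm]
  refine sum_le_sum fun v _ => ?_
  rw [← sum_filter, sum_const, smul_eq_mul]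
  refine (Nat.mul_le_mul_right _ (card_le_one.2 fun g hg g' hg' => ?_)).trans (by simp)
  exact hG g (mem_filter.1 hg).1 g' (mem_filter.1 hg').1
    ((((mem_filter.1 hg').2.sub (mem_filter.1 hg).2).cast (by ring)).lift' (by omega) (by omega))

theorem edges (hW : ∀ v ∈ W, ∀ v' ∈ W, s.In P (j + 1) 1 (v - v') → v = v') (hG : G ⊆ W)
    {k l c : ℕ} (hk : 1 ≤ k) (hM : 6 * k + 2 ≤ s.M) (hw : ∀ v, w v ≤ c) (hl : W.card ≤ l ^ k)
    {q : ℕ} (hq : 0 < q) (B : Finset ℤ) : ∃ T : Finset ℤ, T.card ≤ q ∧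
      (∑ g ∈ G, s.er P j w B W g) * q ≤ B.card * ((2 * k * l + 2 * k) * (∑ v ∈ W, w v + G.card * c))
        + (s.ball (P ∪ T) (j + 1) 0 B).card * (∑ v ∈ W, w v) * q := by
  induction B using Finset.strongInductionOn with
  | _ B ih =>
    obtain ⟨T, h1, h2⟩ := exists_max_image
      (B.powerset.filter fun T => s.Top P (j + 1) T ∧ T.card ≤ q) card
      ⟨∅, mem_filter.2 ⟨by simp, fun T' t1 t2 => absurd (t2.mono t1) (by simp), by simp⟩⟩
    obtain ⟨h3, h4, h5⟩ := mem_filter.1 h1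
    rw [mem_powerset] at h3
    rcases h5.eq_or_lt with h6 | h6
    · obtain ⟨T', a1, a2⟩ := ih (B \ T) (sdiff_ssubset h3 (card_pos.1 (by omega)))
      refine ⟨T', a1, ?_⟩
      have a3 := degen h4 hk hM hw W hW hl G hG
      have a4 : ∑ g ∈ G, s.er P j w B W g =
          ∑ g ∈ G, s.er P j w (B \ T) W g + ∑ g ∈ G, s.er P j w T W g := by
        simp only [er, ← sum_add_distrib, sum_sdiff h3]
      have a5 := card_le_card (ball_mono (s := s) (c := 0) (P := P ∪ T') (j := j + 1) subset_rfl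
        le_rfl (sdiff_subset (s := B) (t := T)))
      have a6 := Nat.mul_le_mul_right q (Nat.mul_le_mul_right (∑ v ∈ W, w v) a5)
      have a7 := Nat.mul_le_mul_right q a3
      rw [a4, ← card_sdiff_add_card_eq_card h3, h6]
      nlinarith
    · refine ⟨T, h5, le_add_left (Nat.mul_le_mul_right _ ((er_triv fun v hv v' hv' =>
        hW v (hG hv) v' (hG hv')).trans (Nat.mul_le_mul_right _ (card_le_card fun b hb => ?_))))⟩
      refine mem_ball.2 ⟨hb, ?_⟩
      rw [sub_zero]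
      by_contra hn
      have a1 : b ∉ T := fun h => hn (In.mem (mem_union_right _ h))
      have a2 := h2 (insert b T) (mem_filter.2 ⟨mem_powerset.2 (insert_subset hb h3),
        fun T' t1 t2 => ?_, by rw [card_insert_of_notMem a1]; omega⟩)
      · rw [card_insert_of_notMem a1] at a2
        omega
      by_cases t3 : b ∈ T'
      · exact ⟨b, t3, fun h => hn (h.mono (union_subset_union_right
          (subset_insert_iff.1 t1)) le_rfl le_rfl)⟩
      · exact h4 T' ((subset_insert_iff_of_notMem t3).1 t1) t2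

end Sc

end Pool.Agent.P.MP_c8ecb2_nt.H29
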