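import Pool.Agent.P.MP_c8ecb2_nt.H29.Calc
import Pool.Agent.P.MP_c8ecb2_nt.H29.Walk
import Pool.Agent.P.MP_c8ecb2_nt.H29.Poly

set_option autoImplicit false

namespace Pool.Agent.P.MP_c8ecb2_nt.H29

open Finset Filter H14 Cx Sc
open scoped Classical Pointwise

/-- The full context: scales and a digit polynomial without vanishing subsums. -/
structure Ctx extends Cx where
  L : ℕ → ℕ
  hL : ∀ k, 2 ^ l k ≤ L k
  β : ℝ
  hβ : Base β
  f : ℕ → LP
  nz : ∀ (k : ℕ) (x : Finset ℤ), x ⊆ sp (f k) → x.Nonempty → ev hβ (res (· ∈ x) (f k)) ≠ 0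
  se : toCx.SE fun k => nrm (f k)

namespace Ctx

/-- The growth rates at index `k`. -/
def s (X : Ctx) (k : ℕ) : Sc :=
  ⟨2 ^ X.l k, X.L k, Nat.pow_le_pow_right (n := 2) two_pos (X.h4 k), X.hL k⟩

/-- The part of the digit polynomial supported on `x`. -/
noncomputable def F (X : Ctx) (x : ℕ → Finset ℤ) (k : ℕ) : LP := res (· ∈ x k) (X.f k)

/-- A small set. -/
def Sm (X : Ctx) (Q : ℕ → Finset ℤ) (η : ℝ) : Prop := X.Le (fun k => (Q k).card) η

/-- A set of digits whose mass is spread over all levels around one point. -/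
structure Good (X : Ctx) (P : ℕ → Finset ℤ) (η : ℝ) (σ τ : ℕ → ℕ) (x : ℕ → Finset ℤ) (p : ℕ → ℤ)
    (A : ℕ → Finset ℤ) (μ : ℝ) : Prop where
  mem : ∀ᶠ k in X.U, p k ∈ x k ∧ x k ⊆ sp (X.f k) ∧ (X.s k).Cv (P k) (σ k) 1 (A k) (x k)
  card : X.Sm A μ
  lb : ∀ (Q : ℕ → Finset ℤ) (σ' τ' : ℕ → ℕ), X.Sm Q η → (∀ᶠ k in X.U, σ k ≤ σ' k ∧ τ' k ≤ τ k) →
    X.Win σ' τ' → X.Ge (fun k =>
      (X.s k).cov (P k ∪ Q k) (σ' k) ((X.s k).ball (P k) (τ' k) (p k) (x k))) μ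
  cap : ∀ (Q : ℕ → Finset ℤ) (j : ℕ → ℕ), X.Sm Q η → (∀ᶠ k in X.U, j k ≤ τ k) →
    X.Le (fun k => ((X.s k).cap (P k) (Q k) (j k) (p k) (A k)).card) (μ - 1)

/-- Splitting of `Z` into a low part `Zl` and an anti-concentrated far part. -/
def SpS (X : Ctx) (P : ℕ → Finset ℤ) (η : ℝ) (σ t : ℕ → ℕ) (Z Zl : ℕ → LP) (p : ℕ → ℤ) (μ : ℝ) :
    Prop := ∃ (m : ℕ) (A B : ℕ → Finset ℤ),
  (∀ᶠ k in X.U, (X.s k).Cv (P k) (σ k) m (A k) (sp (Zl k)) ∧
    (X.s k).Cv (P k) (σ k) m (B k) (sp (Z k - Zl k)) ∧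
    ∀ z ∈ sp (Zl k), (X.s k).In (P k) (t k + 1) m (z - p k)) ∧ X.Sm A μ ∧ X.Sm B μ ∧
  (∀ Q, X.Sm Q η → X.Le (fun k => (X.s k).conc (P k ∪ Q k) (t k + 5) (B k)) (μ - 1)) ∧
  (X.SE fun k => nrm (Z k)) ∧ X.SE fun k => nrm (Zl k)

variable {X : Ctx} {P P' Q A x x' g : ℕ → Finset ℤ} {η η' μ μ' : ℝ} {σ τ σ' τ' t : ℕ → ℕ}
  {p p' : ℕ → ℤ} {Z Zl Z' Zl' : ℕ → LP}

theorem ev_M (X : Ctx) (c : ℕ) : ∀ᶠ k in X.U, c ≤ (X.s k).M :=
  (SE.const X.toCx c).lt.mono fun _ hk => hk.le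

theorem Sm.union (h : X.Sm P η) (h' : X.Sm Q η) : X.Sm (fun k => P k ∪ Q k) η :=
  (Le.add h h').mono' fun _ => card_union_le _ _

theorem Sm.add (h : X.Sm P η) (h' : X.Sm Q η') : X.Sm (fun k => P k + Q k) (η + η') :=
  (Le.mul h h').mono' fun _ => card_add_le

theorem Sm.empty (X : Ctx) (η : ℝ) : X.Sm (fun _ => ∅) η := Le.zero _ _

theorem Sm.single (X : Ctx) (hη : 0 ≤ η) (p : ℕ → ℤ) : X.Sm (fun k => {p k}) η :=
  (Le.const _ 1).weak hη

theorem se_F (X : Ctx) (x : ℕ → Finset ℤ) : X.SE fun k => nrm (X.F x k) :=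
  X.se.mono' fun _ => nrm_res

theorem Good.sub (h : X.Good P η σ τ x p A μ) (hQ : X.Sm Q η) (hη : η' ≤ η)
    (h' : ∀ᶠ k in X.U, P k ⊆ P' k ∧ P' k ⊆ P k ∪ Q k ∧ σ k ≤ σ' k ∧ τ' k ≤ τ k ∧
      (X.s k).ball (P k) (τ' k) (p k) (x k) ⊆ x' k ∧ x' k ⊆ x k) : X.Good P' η' σ' τ' x' p A μ where
  mem := by
    filter_upwards [h.mem, h'] with k ⟨h1, h2, h3⟩ ⟨a1, _, a3, _, a5, a6⟩
    exact ⟨a5 (mem_ball.2 ⟨h1, In.self⟩), a6.trans h2, h3.mono a1 a3 le_rfl subset_rfl a6⟩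
  card := h.card
  lb := fun Q₁ σ₁ τ₁ h1 h2 h3 => by
    refine (h.lb _ σ₁ τ₁ (hQ.union (h1.weak hη)) ?_ h3).mono ?_ <;>
      filter_upwards [h2, h'] with k ⟨b1, b2⟩ ⟨a1, a2, a3, a4, a5, a6⟩
    · omega
    · refine cov_mono (by rw [← union_assoc]; exact union_subset_union_left a2) le_rfl fun z hz => ?_
      exact mem_ball.2 ⟨a5 (ball_mono subset_rfl b2 subset_rfl hz),
        (mem_ball.1 hz).2.mono a1 le_rfl le_rfl⟩
  cap := fun Q₁ j h1 h2 => by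
    refine (h.cap _ j (hQ.union (h1.weak hη)) ?_).mono ?_ <;>
      filter_upwards [h2, h'] with k b1 ⟨a1, a2, a3, a4, a5, a6⟩
    · omega
    · refine card_le_card (monotone_filter_right _ fun a _ ha => ⟨ha.1.mono ?_ le_rfl le_rfl,
        fun hb => ha.2 (hb.mono a1 le_rfl le_rfl)⟩)
      rw [← union_assoc]
      exact union_subset_union_left a2

theorem good_of_pre (hη : 3 ≤ η) (hg : ∀ᶠ k in X.U, (g k).Nonempty ∧ g k ⊆ sp (X.f k) ∧ τ k ≤ X.l k)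
    (hU : X.Le (fun k => (X.s k).cov (P k) (σ k) (g k)) μ)
    (pre : ∀ (Q : ℕ → Finset ℤ) (σ' τ' : ℕ → ℕ), X.Sm Q η →
      (∀ᶠ k in X.U, σ k ≤ σ' k ∧ τ' k ≤ τ k) → X.Win σ' τ' → ∃ z : ℕ → ℤ, X.Ge (fun k =>
        (X.s k).cov (P k ∪ Q k) (σ' k) ((X.s k).ball (P k) (τ' k) (z k) (g k))) μ) :
    ∃ Q p A, X.Sm Q η ∧ X.Good (fun k => P k ∪ Q k) (η - 3) σ τ g p A μ := by
  choose A hA hA' using fun k => (X.s k).cov_spec (P k) (σ k) (g k)
  have a1 : X.Sm A μ := hU.mono' fun k => (hA k).le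
  obtain ⟨p, hp⟩ := (hg.mono fun k hk => hk.1).choice
  choose Q₁ h1 h2 using fun k => (X.s k).capture (A k) (p k) (X.l k) (X.pw (η - 5 / 2) k)
    (X.pw (μ - 1) k) (X.pw_pos _ _) (P k)
  have a2 : X.Sm Q₁ η := (((X.pw_le (a := η - 5 / 2) (by linarith)).mul (((Le.l _).addc zero_le_one
    1).mul a1)).of_mul (.of_forall h1) (X.pw_ge _)).weak (by linarith)
  have a3 : ∀ (Q : ℕ → Finset ℤ) (j : ℕ → ℕ), X.Sm Q (η - 3) → (∀ᶠ k in X.U, j k ≤ τ k) →
      X.Le (fun k => ((X.s k).cap (P k ∪ Q₁ k) (Q k) (j k) (p k) (A k)).card) (μ - 1) :=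
    fun Q j b1 b2 => Le.of_lt_pw (by
      filter_upwards [Le.lt b1 (X.pw_ge (η - 5 / 2)) (by linarith), b2, hg] with k c1 c2 c3
      exact h2 k _ _ c1.le (by omega))
  refine ⟨Q₁, p, A, a2, ?_, a1, fun Q σ' τ' b1 b2 b3 => ?_, a3⟩
  · filter_upwards [hp, hg] with k c1 c2
    exact ⟨c1, c2.2.1, (hA' k).mono subset_union_left le_rfl le_rfl subset_rfl subset_rfl⟩
  obtain ⟨z, hz⟩ := pre _ σ' (fun k => τ' k - 2) (a2.union (b1.weak (by linarith)))
    (b2.mono fun k hk => by omega) (b3.shift 2 (.of_forall fun k => by omega))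
  refine hz.of_add ?_ (a3 (fun k => {z k - p k}) (fun k => τ' k - 1) (Sm.single X (by linarith) _)
    (b2.mono fun k hk => by omega)) (by linarith)
  filter_upwards [b2, b3.ev 2] with k c1 c2
  rw [← union_assoc]
  refine (cov_union (X := (X.s k).ball (P k ∪ Q₁ k) (τ' k) (p k) (g k))
    (Y := ((X.s k).ball (P k) (τ' k - 2) (z k) (g k)).filter
      fun w => ¬(X.s k).In (P k ∪ Q₁ k) (τ' k) 1 (w - p k)) fun w hw => ?_).trans
    (Nat.add_le_add_left (cov_le fun w hw => ?_) _)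
  · by_cases hc : (X.s k).In (P k ∪ Q₁ k) (τ' k) 1 (w - p k)
    · exact mem_union_left _ (mem_ball.2 ⟨(mem_ball.1 hw).1, hc⟩)
    · exact mem_union_right _ (mem_filter.2 ⟨hw, hc⟩)
  · obtain ⟨w1, w2⟩ := mem_filter.1 hw
    obtain ⟨w3, w4⟩ := mem_ball.1 w1
    obtain ⟨a, w5, w6⟩ := hA' k w w3
    refine ⟨a, mem_filter.2 ⟨w5, ?_, fun hc => w2 ?_⟩,
      w6.mono (subset_union_left.trans subset_union_left) c1.1 le_rfl⟩
    · have u : P k ⊆ P k ∪ Q₁ k ∪ {z k - p k} := subset_union_left.trans subset_union_left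
      exact (((w4.mono u le_rfl le_rfl).sub (w6.mono u (by omega) le_rfl)).add
        (In.mem (mem_union_right _ (mem_singleton_self _)))).cast (by ring) |>.lift' (by omega)
        (by omega)
    · exact ((hc.add (w6.mono subset_union_left (by omega) le_rfl)).cast (by ring)).lift' (by omega)
        (by omega)

theorem SpS.congr (h : X.SpS P η σ t Z Zl p μ) (h1 : Z = Z') (h2 : Zl = Zl') (h3 : p = p')
    (h4 : μ = μ') : X.SpS P η σ t Z' Zl' p' μ' := by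
  subst h1 h2 h3 h4
  exact h

theorem cv_all {s : Sc} {P A B : Finset ℤ} {j m : ℕ} {Z Zl : LP} (h : s.Cv P j m A (sp Zl))
    (h' : s.Cv P j m B (sp (Z - Zl))) : s.Cv P j m (A ∪ B) (sp Z) :=
  h.union h' (by simpa using sp_add (U := Zl) (V := Z - Zl))

theorem SpS.mul (h : X.SpS P η σ t Z Zl p μ) (h' : X.SpS P η σ t Z' Zl' p' μ') :
    X.SpS P η σ t (Z * Z') (Zl * Zl') (p + p') (μ + μ') := by
  obtain ⟨m, A, B, h1, h2, h3, h4, h5, h6⟩ := h
  obtain ⟨m', A', B', a1, a2, a3, a4, a5, a6⟩ := h'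
  refine ⟨m + m', fun k => A k + A' k, fun k => (B k + (A' k ∪ B' k)) ∪ (B' k + A k), ?_,
    h2.add a2, (h3.add (a2.union a3)).union ((a3.add h2).weak (add_comm _ _).le), fun Q hQ => ?_,
    (h5.mul a5).mono' fun _ => nrm_mul, (h6.mul a6).mono' fun _ => nrm_mul⟩
  · filter_upwards [h1, a1] with k ⟨b1, b2, b3⟩ ⟨c1, c2, c3⟩
    refine ⟨b1.add c1 sp_mul, (b2.add (cv_all c1 c2) sp_mul).union
      (add_comm m' m ▸ c2.add b1 sp_mul) ?_, fun z hz => ?_⟩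
    · rw [show (Z * Z') k - (Zl * Zl') k = (Z k - Zl k) * Z' k + (Z' k - Zl' k) * Zl k by
        simp only [Pi.mul_apply]; ring]
      exact sp_add
    · obtain ⟨u, hu, v, hv, rfl⟩ := mem_add.1 (sp_mul hz)
      exact ((b3 u hu).add (c3 v hv)).cast (by simp only [Pi.add_apply]; ring)
  · exact ((((h4 Q hQ).mul (a2.union a3)).weak (by linarith)).add
      (((a4 Q hQ).mul h2).weak (by linarith))).mono' fun k =>
      conc_union.trans (add_le_add conc_add conc_add)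

theorem SpS.add (h : X.SpS P η σ t Z Zl p μ) (h' : X.SpS P η σ t Z' Zl' p μ) :
    X.SpS P η σ t (Z + Z') (Zl + Zl') p μ := by
  obtain ⟨m, A, B, h1, h2, h3, h4, h5, h6⟩ := h
  obtain ⟨m', A', B', a1, a2, a3, a4, a5, a6⟩ := h'
  refine ⟨m + m', fun k => A k ∪ A' k, fun k => B k ∪ B' k, ?_, h2.union a2, h3.union a3,
    fun Q hQ => ((h4 Q hQ).add (a4 Q hQ)).mono' fun k => conc_union,
    (h5.add a5).mono' fun _ => nrm_add, (h6.add a6).mono' fun _ => nrm_add⟩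
  filter_upwards [h1, a1] with k ⟨b1, b2, b3⟩ ⟨c1, c2, c3⟩
  refine ⟨(b1.mono subset_rfl le_rfl (by omega) subset_rfl subset_rfl).union
    (c1.mono subset_rfl le_rfl (by omega) subset_rfl subset_rfl) sp_add,
    (b2.mono subset_rfl le_rfl (by omega) subset_rfl subset_rfl).union
    (c2.mono subset_rfl le_rfl (by omega) subset_rfl subset_rfl) ?_, fun z hz => ?_⟩
  · rw [show (Z + Z') k - (Zl + Zl') k = (Z k - Zl k) + (Z' k - Zl' k) by
      simp only [Pi.add_apply]; ring]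
    exact sp_add
  · rcases mem_union.1 (sp_add hz) with hz | hz
    · exact (b3 z hz).mono subset_rfl le_rfl (by omega)
    · exact (c3 z hz).mono subset_rfl le_rfl (by omega)

theorem SpS.low (h : X.SpS P η σ t Z Zl p μ) : X.SpS P η σ t Zl Zl p μ := by
  obtain ⟨m, A, B, h1, h2, -, -, -, h6⟩ := h
  refine ⟨m, A, fun _ => ∅, h1.mono fun k hk => ⟨hk.1, ?_, hk.2.2⟩, h2, Sm.empty _ _,
    fun Q _ => by simpa only [conc_empty] using Le.zero _ _, h6, h6⟩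
  simpa [sp_zero] using Cv.refl

theorem SpS.int (c : ℤ) : X.SpS P η σ t c c 0 0 := by
  refine ⟨0, fun _ => {0}, fun _ => ∅, .of_forall fun k => ⟨Cv.refl.mono subset_rfl le_rfl le_rfl
    subset_rfl (sp_int c), by simpa [sp_zero] using Cv.refl, fun z hz => ?_⟩, Sm.single X le_rfl _,
    Sm.empty _ _, fun Q _ => by simpa only [conc_empty] using Le.zero _ _,
    (SE.const _ _).mono' fun _ => (nrm_int c).le, (SE.const _ _).mono' fun _ => (nrm_int c).le⟩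
  rw [mem_singleton.1 (sp_int c hz)]
  exact In.self

theorem SpS.zero : X.SpS P η σ t 0 0 p μ :=
  ⟨0, fun _ => ∅, fun _ => ∅, .of_forall fun k => by simpa [sp_zero] using Cv.refl, Sm.empty _ _,
    Sm.empty _ _, fun Q _ => by simpa only [conc_empty] using Le.zero _ _, SE.const _ 0,
    SE.const _ 0⟩

theorem SpS.pow (h : X.SpS P η σ t Z Zl p μ) (n : ℕ) :
    X.SpS P η σ t (Z ^ n) (Zl ^ n) (n • p) (n * μ) := by
  induction n with
  | zero => exact (SpS.int 1).congr (by simp) (by simp) (by simp) (by simp)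
  | succ n ih =>
    exact (ih.mul h).congr (pow_succ _ _).symm (pow_succ _ _).symm (succ_nsmul _ _).symm
      (by push_cast; ring)

theorem SpS.prod {I : Type} (S : Finset I) {Z Zl : I → ℕ → LP} {p : I → ℕ → ℤ} {μ : I → ℝ}
    (h : ∀ i ∈ S, X.SpS P η σ t (Z i) (Zl i) (p i) (μ i)) :
    X.SpS P η σ t (∏ i ∈ S, Z i) (∏ i ∈ S, Zl i) (∑ i ∈ S, p i) (∑ i ∈ S, μ i) := by
  induction S using Finset.induction_on with
  | empty => exact (SpS.int 1).congr (by simp) (by simp) (by simp) (by simp)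
  | insert i S hi ih =>
    simp only [prod_insert hi, sum_insert hi]
    exact (h i (mem_insert_self _ _)).mul (ih fun j hj => h j (mem_insert_of_mem hj))

theorem SpS.geom (h : X.SpS P η σ t Z Zl p μ) (n : ℕ) : ∃ G, Z ^ (n + 1) = (Z - Zl) * G + Zl ^ (n + 1)
    ∧ X.SpS P η σ t G ((n + 1 : ℕ) * Zl ^ n) (n • p) (n * μ) := by
  induction n with
  | zero => exact ⟨1, by simp, (SpS.int 1).congr (by simp) (by simp) (by simp) (by simp)⟩
  | succ n ih =>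
    obtain ⟨G, h1, h2⟩ := ih
    refine ⟨G * Z + Zl ^ (n + 1), by rw [pow_succ, h1]; ring, (((h2.mul h).congr rfl rfl
      (succ_nsmul _ _).symm (by push_cast; ring)).add (h.low.pow (n + 1))).congr rfl ?_ rfl rfl⟩
    push_cast
    ring

theorem SpS.cov (h : X.SpS P η σ t Z Zl p μ) (h' : ∀ᶠ k in X.U, P k ⊆ P' k ∧ σ k < σ' k) :
    X.Le (fun k => (X.s k).cov (P' k) (σ' k) (sp (Z k))) μ := by
  obtain ⟨m, A, B, h1, h2, h3, -⟩ := h
  refine Le.mono (h2.union h3) ?_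
  filter_upwards [h1, h', X.ev_M m] with k b1 b2 b3
  exact (cv_all b1.1 b1.2.1).cov_le b2.1 b2.2 b3

theorem SpS.far (h : X.SpS P η σ t Z Zl p μ) (hQ : X.Sm Q η) {W : ℕ → Finset ℤ}
    (h' : ∀ᶠ k in X.U, σ k < σ' k ∧ σ k ≤ t k ∧ W k ⊆ sp (Z k - Zl k) ∧
      (X.s k).Cv (P k) (t k + 4) 1 (Q k) (W k)) :
    X.Le (fun k => (X.s k).cov (P k) (σ' k) (W k)) (μ - 1) := by
  obtain ⟨m, A, B, h1, -, -, h4, -⟩ := h
  refine (h4 Q hQ).mono ?_
  filter_upwards [h1, h', X.ev_M (m + 2)] with k ⟨_, b1, _⟩ ⟨c1, c2, c3, c4⟩ b3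
  refine (Cv.cov_le (m := m) (fun z hz => ?_) subset_rfl c1 (by omega)).trans (le_conc 0)
  obtain ⟨b, d1, d2⟩ := b1 z (c3 hz)
  obtain ⟨q, d3, d4⟩ := c4 z hz
  exact ⟨b, mem_ball.2 ⟨d1, ((((d4.mono subset_union_left le_rfl le_rfl).sub
    (d2.mono subset_union_left (by omega) le_rfl)).add (In.mem (mem_union_right _ d3))).cast
    (by ring)).up (by omega)⟩, d2⟩

theorem Good.sps (h : X.Good P η σ τ x p A μ) (hη : 0 ≤ η)
    (ht : ∀ᶠ k in X.U, σ k ≤ t k ∧ t k + 6 ≤ τ k)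
    (ha : X.Le (fun k => ((X.s k).ann (P k) (t k) (p k) (A k)).card) (μ - 1)) :
    X.SpS P η σ t (X.F x) (X.F fun k => (X.s k).ball (P k) (t k + 1) (p k) (x k)) p μ := by
  refine ⟨1, A, fun k => (A k).filter fun a => ¬(X.s k).In (P k) (t k) 1 (a - p k), ?_, h.card,
    h.card.mono' fun k => card_filter_le _ _, fun Q hQ => ?_, X.se_F _, X.se_F _⟩
  · filter_upwards [h.mem, ht] with k ⟨_, _, h1⟩ h2
    refine ⟨h1.mono subset_rfl le_rfl le_rfl subset_rfl (sp_res_mem.trans ball_subset),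
      fun z hz => ?_, fun z hz => (mem_ball.1 (sp_res_mem hz)).2⟩
    rw [F, F, res_split ball_subset, add_sub_cancel_left] at hz
    obtain ⟨z1, z2⟩ := mem_sdiff.1 (sp_res_mem hz)
    obtain ⟨a, a1, a2⟩ := h1 z z1
    exact ⟨a, mem_filter.2 ⟨a1, fun hc => z2 (mem_ball.2 ⟨z1, (((a2.lev h2.1).add hc).cast
      (by ring)).lift' (by omega) (by omega)⟩)⟩, a2⟩
  choose z hz using fun k => (X.s k).conc_spec (P k ∪ Q k) (t k + 5)
    ((A k).filter fun a => ¬(X.s k).In (P k) (t k) 1 (a - p k))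
  refine ((h.cap _ (fun k => t k + 6) (hQ.union (Sm.single X hη fun k => z k - p k))
    (ht.mono fun k hk => hk.2)).add ha).mono' fun k => ?_
  rw [← hz]
  refine (card_le_card fun a ha => ?_).trans (card_union_le _ _)
  obtain ⟨a1, a2⟩ := mem_ball.1 ha
  obtain ⟨a3, a4⟩ := mem_filter.1 a1
  by_cases hc : (X.s k).In (P k) (t k + 6) 1 (a - p k)
  · exact mem_union_right _ (mem_filter.2 ⟨a3, hc, a4⟩)
  · refine mem_union_left _ (mem_filter.2 ⟨a3, ?_, hc⟩)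
    rw [← union_assoc]
    exact (((a2.mono subset_union_left le_rfl le_rfl).add
      (In.mem (mem_union_right _ (mem_singleton_self _)))).cast (by ring)).lift' (by omega)
      (by omega)

end Ctx

end Pool.Agent.P.MP_c8ecb2_nt.H29
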