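import Pool.Agent.P.MP_c8ecb2_nt.H29.Ball
import Pool.Agent.P.MP_c8ecb2_nt.H29.Poly

set_option autoImplicit false

namespace Pool.Agent.P.MP_c8ecb2_nt.H29

open Finset H14 Polynomial
open scoped Classical Pointwise

namespace Sc

variable {s : Sc} {P : Finset ℤ} {j m : ℕ}

theorem In.sum {J : Type} (S : Finset J) {z : J → ℤ} (h : ∀ i ∈ S, s.In P j m (z i)) :
    s.In P j (S.card * m) (∑ i ∈ S, z i) := by
  induction S using Finset.induction_on with
  | empty => simpa using In.zero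
  | insert i S hi ih =>
    rw [sum_insert hi, card_insert_of_notMem hi, add_mul, one_mul, add_comm (S.card * m)]
    exact (h i (mem_insert_self _ _)).add (ih fun i hi => h i (mem_insert_of_mem hi))

theorem ball_count {J : Type} (S : Finset J) (y : J → ℤ) (h : ∀ i ∈ S, s.In P j m (y i))
    (h' : ∀ i ∈ S, ∀ i' ∈ S, |y i - y i'| ≤ 2 * (m * (s.L : ℤ) ^ j) → i = i') :
    S.card ≤ (2 * (m * s.M ^ j) + 1) ^ P.card := by
  choose! c h1 h2 using h
  refine (card_le_card_of_injOn (t := P.pi fun _ => Icc (-(m * (s.M : ℤ) ^ j)) (m * (s.M : ℤ) ^ j))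
    (fun i p _ => c i p) (fun i hi => mem_pi.2 fun p _ => mem_Icc.2 (abs_le.1 (h1 i hi p)))
    fun i hi i' hi' h => h' i hi i' hi' ?_).trans ?_
  · have : ∑ p ∈ P, c i p * p = ∑ p ∈ P, c i' p * p :=
      sum_congr rfl fun p hp => by rw [show c i p = c i' p from congrFun (congrFun h p) hp]
    have a1 := abs_le.1 (h2 i hi)
    have a2 := abs_le.1 (h2 i' hi')
    rw [abs_le]
    constructor <;> linarith
  · rw [card_pi, prod_const, Int.card_Icc]
    refine Nat.pow_le_pow_left (Int.toNat_le.2 (le_of_eq ?_)) _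
    push_cast
    ring

theorem lac {u ρ : ℕ} (hρ : 1 ≤ ρ) (J : Finset ℕ) (z : ℕ → ℤ) (hz : ∀ i ∈ J,
    ((u * (3 * ρ) ^ i : ℕ) : ℤ) ≤ z i ∧ z i < (ρ * (u * (3 * ρ) ^ i) : ℕ) ∧ s.In P j m (z i))
    (hu : 4 * (J.card * m * s.L ^ j) < u) :
    2 ^ J.card ≤ (2 * (J.card * m * s.M ^ j) + 1) ^ P.card := by
  have a1 : ∀ n, 2 * ∑ i ∈ J.filter (· < n), z i ≤ (u * (3 * ρ) ^ n : ℕ) := fun n => by
    induction n with
    | zero => simp
    | succ n ih =>
      have b1 : (0 : ℤ) ≤ (u * (3 * ρ) ^ n : ℕ) := Nat.cast_nonneg _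
      have b2 : (1 : ℤ) ≤ ρ := by exact_mod_cast hρ
      have b3 : ((u * (3 * ρ) ^ (n + 1) : ℕ) : ℤ) = 3 * ρ * (u * (3 * ρ) ^ n : ℕ) := by
        push_cast
        ring
      by_cases hn : n ∈ J
      · rw [show J.filter (· < n + 1) = insert n (J.filter (· < n)) by
          ext i
          simp only [mem_filter, mem_insert]
          grind, sum_insert (by simp)]
        have := (hz n hn).2.1
        rw [Nat.cast_mul] at this
        nlinarith
      · rw [show J.filter (· < n + 1) = J.filter (· < n) by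
          ext i
          simp only [mem_filter]
          grind]
        nlinarith
  rw [← card_powerset]
  refine ball_count J.powerset (fun S => ∑ i ∈ S, z i) (fun S hS => (In.sum S fun i hi =>
    (hz i (mem_powerset.1 hS hi)).2.2).mono subset_rfl le_rfl
    (Nat.mul_le_mul_right _ (card_le_card (mem_powerset.1 hS)))) fun S hS S' hS' h => ?_
  by_contra hne
  rw [mem_powerset] at hS hS'
  have p0 : ∀ i ∈ J, 0 ≤ z i := fun i hi => (Nat.cast_nonneg _).trans (hz i hi).1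
  have k : ∀ S ⊆ J, ∀ S' ⊆ J, ∀ n ∈ S \ S', (∀ i ∈ S' \ S, i ≤ n) →
      (u : ℤ) ≤ 2 * (∑ i ∈ S, z i - ∑ i ∈ S', z i) := fun S hS S' hS' n h1 h2 => by
    have b1 := single_le_sum (fun i hi => p0 i (hS (mem_sdiff.1 hi).1)) h1
    have b2 : ∑ i ∈ S' \ S, z i ≤ ∑ i ∈ J.filter (· < n), z i :=
      sum_le_sum_of_subset_of_nonneg (fun i hi => mem_filter.2 ⟨hS' (mem_sdiff.1 hi).1,
        (h2 i hi).lt_of_ne fun h => (mem_sdiff.1 hi).2 (h ▸ (mem_sdiff.1 h1).1)⟩)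
        fun i hi _ => p0 i (mem_filter.1 hi).1
    have b3 := (hz n (hS (mem_sdiff.1 h1).1)).1
    have b4 : (u : ℤ) ≤ (u * (3 * ρ) ^ n : ℕ) := by
      exact_mod_cast Nat.le_mul_of_pos_right _ (by positivity)
    have b5 := a1 n
    rw [← sum_sdiff_sub_sum_sdiff]
    linarith
  obtain ⟨n, n1, n2⟩ := exists_max_image (S \ S' ∪ S' \ S) id (by
    rw [nonempty_iff_ne_empty]
    intro h0
    rw [union_eq_empty, sdiff_eq_empty_iff_subset, sdiff_eq_empty_iff_subset] at h0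
    exact hne (subset_antisymm h0.1 h0.2))
  have hu' : 4 * ((J.card * m : ℕ) * (s.L : ℤ) ^ j) < u := by exact_mod_cast hu
  rw [abs_le] at h
  rcases mem_union.1 n1 with n1 | n1
  · have := k S hS S' hS' n n1 fun i hi => n2 i (mem_union_right _ hi)
    linarith
  · have := k S' hS' S hS n n1 fun i hi => n2 i (mem_union_left _ hi)
    linarith

theorem sum_top {u ρ I : ℕ} (hρ : 1 ≤ ρ) {X : Finset ℤ} (T : ℕ → Finset ℤ) (hT : ∀ i < I, T i ⊆ X ∧
    ∀ z ∈ T i, ((u * (3 * ρ) ^ i : ℕ) : ℤ) ≤ z ∧ z < (ρ * (u * (3 * ρ) ^ i) : ℕ))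
    (hu : 4 * (I * 2 * s.L ^ j) < u) : ∑ i ∈ range I, s.cov P j (T i) ≤
      s.cov P j X * ((2 * (I * 2 * s.M ^ j) + 1).size * (P.card + 1)) := by
  obtain ⟨C, h1, h2⟩ := s.cov_spec P j X
  calc _ ≤ ∑ i ∈ range I, (C.filter fun c => ∃ z ∈ T i, s.In P j 1 (z - c)).card :=
        sum_le_sum fun i hi => cov_le fun z hz => by
          obtain ⟨c, c1, c2⟩ := h2 z ((hT i (mem_range.1 hi)).1 hz)
          exact ⟨c, mem_filter.2 ⟨c1, z, hz, c2⟩, c2⟩
    _ = ∑ c ∈ C, ((range I).filter fun i => ∃ z ∈ T i, s.In P j 1 (z - c)).card := by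
        simp only [card_filter]
        rw [sum_comm]
    _ ≤ _ := h1 ▸ sum_le_card_nsmul _ _ _ fun c _ => by
        set J := (range I).filter fun i => ∃ z ∈ T i, s.In P j 1 (z - c) with hJ
        have a1 : J.card ≤ I := (card_filter_le _ _).trans (card_range I).le
        choose! z z1 z2 using fun i (hi : i ∈ J) => (mem_filter.1 hi).2
        have a2 := lac (s := s) (P := insert c P) (j := j) (m := 2) hρ J z (fun i hi =>
          have := (hT i (mem_range.1 (mem_filter.1 hi).1)).2 _ (z1 i hi)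
          ⟨this.1, this.2, (((z2 i hi).mono (subset_insert _ _) le_rfl le_rfl).add
            (In.mem (mem_insert_self _ _))).cast (by ring)⟩) (lt_of_le_of_lt (by gcongr) hu)
        refine (Nat.pow_le_pow_iff_right (a := 2) (by norm_num)).1 (a2.trans ?_)
        rw [pow_mul]
        exact (Nat.pow_le_pow_left (le_trans (by gcongr) (Nat.lt_size_self _).le) _).trans
          (Nat.pow_le_pow_right (by positivity) (card_insert_le _ _))

end Sc

variable {β θ : ℝ}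

theorem exists_nz (hβ : Base β) (n : ℕ) : ∀ Z : LP, (sp Z).card ≤ n → ∃ f : LP, ev hβ f = ev hβ Z ∧
    sp f ⊆ sp Z ∧ nrm f ≤ nrm Z ∧ ∀ x ⊆ sp f, x.Nonempty → ev hβ (res (· ∈ x) f) ≠ 0 := by
  induction n with
  | zero =>
    refine fun Z h => ⟨Z, rfl, subset_rfl, le_rfl, fun x hx h0 => absurd (h0.mono hx) ?_⟩
    simp [card_eq_zero.1 (Nat.le_zero.1 h)]
  | succ n ih =>
    intro Z h
    by_cases h' : ∀ x ⊆ sp Z, x.Nonempty → ev hβ (res (· ∈ x) Z) ≠ 0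
    · exact ⟨Z, rfl, subset_rfl, le_rfl, h'⟩
    push Not at h'
    obtain ⟨x, h1, ⟨a, ha⟩, h2⟩ := h'
    obtain ⟨f, a1, a2, a3, a4⟩ := ih (res (¬· ∈ x) Z) (Nat.lt_succ_iff.1 ((card_lt_card
      ((ssubset_iff_of_subset sp_res_subset).2 ⟨a, h1 ha, fun h => by
        exact (mem_sp_res.1 h).2 ha⟩)).trans_le h))
    refine ⟨f, ?_, a2.trans sp_res_subset, a3.trans nrm_res, a4⟩
    conv_rhs => rw [← res_add_not (· ∈ x) Z, map_add, h2, zero_add, ← a1]

theorem exists_f (hβ : Base β) {c : ℕ → ℤ} {A : ℕ} (dig : ∀ n, (c n).natAbs ≤ A) (T : ℕ) :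
    ∃ f : LP, ev hβ f = ps β c T ∧ sp f ⊆ Wn c 0 T ∧ nrm f ≤ (Wn c 0 T).card * A ∧
      ∀ x ⊆ sp f, x.Nonempty → ev hβ (res (· ∈ x) f) ≠ 0 := by
  obtain ⟨f, h1, h2, h3, h4⟩ := exists_nz hβ _
    (∑ n ∈ (Ico 0 T).filter (c · ≠ 0), AddMonoidAlgebra.single (n : ℤ) (c n)) le_rfl
  refine ⟨f, ?_, h2.trans fun z hz => ?_, h3.trans ((nrm_sum _ _).trans ?_), h4⟩
  · rw [h1, map_sum, ps, range_eq_Ico, ← sum_filter_of_ne (s := Ico 0 T) (p := (c · ≠ 0))
      fun n _ hn h0 => hn (by simp [h0])]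
    exact sum_congr rfl fun n _ => (AddMonoidAlgebra.lift_single _ _ _).trans (zsmul_eq_mul _ _)
  · rw [sp, AddMonoidAlgebra.coeff_sum] at hz
    obtain ⟨n, n1, n2⟩ := mem_biUnion.1 (Finsupp.support_finsetSum hz)
    exact mem_image.2 ⟨n, n1, (mem_singleton.1 (sp_single _ _ n2)).symm⟩
  · rw [Wn, card_image_of_injective _ Nat.cast_injective]
    exact sum_le_card_nsmul _ _ _ fun n _ => (nrm_single _ _).trans_le (dig n)

theorem liou (hβ : Base β) (hθ : Irrational θ) {P : ℤ[X]} (hP : P ≠ 0)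
    (h0 : (P.map (algebraMap ℤ ℝ)).eval θ = 0) :
    ∃ C : ℕ, ∀ (u : ℕ) (m : ℤ), β ^ ((P.natDegree * u + C : ℕ) : ℤ) ≤ |θ - m * β ^ (u : ℤ)| := by
  obtain ⟨Λ, hΛ, h⟩ := Liouville.exists_pos_real_of_irrational_root hθ hP h0
  obtain ⟨C, hC⟩ := exists_nat_ge Λ
  refine ⟨C, fun u m => ?_⟩
  have a1 := hβ.lt (m := C) (e := 0) (T := C) (by omega)
  have hp := hβ.pos
  obtain ⟨b, hb, hb'⟩ := hβ
  have hb0 : (0 : ℝ) < b := by positivity
  obtain ⟨n, hn⟩ : ∃ n : ℕ, b ^ u = n + 1 := ⟨b ^ u - 1, by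
    have : 1 ≤ b ^ u := Nat.one_le_pow _ _ (by omega)
    omega⟩
  have a3 : (n : ℝ) + 1 = (b : ℝ) ^ u := by exact_mod_cast hn.symm
  have a4 := h m n
  have a5 : (m : ℝ) / (b : ℝ) ^ u = m * β ^ (u : ℤ) := by
    rw [div_eq_mul_inv, ← inv_pow, ← hb', zpow_natCast]
  have a6 : ((b : ℝ) ^ u) ^ P.natDegree * β ^ (P.natDegree * u) = 1 := by
    rw [hb', mul_comm _ u, pow_mul, ← mul_pow, ← mul_pow, mul_inv_cancel₀ hb0.ne']
    simp
  rw [a3, a5] at a4
  rw [zpow_zero, zpow_natCast] at a1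
  rw [zpow_natCast, pow_add]
  have a7 := mul_le_mul_of_nonneg_left a4 (show 0 ≤ β ^ (P.natDegree * u) * β ^ C by positivity)
  have a8 : Λ * β ^ C ≤ 1 := (mul_le_mul_of_nonneg_right hC (by positivity)).trans a1.le
  have a9 := mul_le_of_le_one_right (abs_nonneg (θ - m * β ^ (u : ℤ))) a8
  calc _ = _ := (mul_one _).symm
    _ ≤ _ := a7
    _ = ((b : ℝ) ^ u) ^ P.natDegree * β ^ (P.natDegree * u) *
        (|θ - m * β ^ (u : ℤ)| * (Λ * β ^ C)) := by ring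
    _ ≤ _ := by rwa [a6, one_mul]

theorem head_app (hβ : Base β) {f : LP} {A T d u : ℕ} (h : |θ - ev hβ f| ≤ A * β ^ (T : ℤ))
    (hd : d ≤ T) (hu : ∀ z ∈ sp f, (u : ℤ) ≤ z → (d : ℤ) ≤ z) :
    |θ - ev hβ (res (· < u) f)| ≤ (A + nrm f : ℕ) * β ^ (d : ℤ) := by
  have a1 := (rep hβ (res (¬· < u) f)).abs_le hβ (e := d) fun z hz =>
    hu z (mem_sp_res.1 hz).1 (not_lt.1 (mem_sp_res.1 hz).2)
  have a2 : (nrm (res (¬· < u) f) : ℝ) ≤ nrm f := by exact_mod_cast nrm_res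
  have a3 := zpow_pos hβ.pos (d : ℤ)
  have a4 : (A : ℝ) * β ^ (T : ℤ) ≤ A * β ^ (d : ℤ) :=
    mul_le_mul_of_nonneg_left (hβ.anti (by omega)) A.cast_nonneg
  rw [← res_add_not (· < u) f, map_add] at h
  have a5 := abs_add_le (θ - (ev hβ (res (· < u) f) + ev hβ (res (¬· < u) f)))
    (ev hβ (res (¬· < u) f))
  rw [show ∀ a b c : ℝ, a - (b + c) + c = a - b from fun _ _ _ => by ring] at a5
  push_cast
  nlinarith

theorem exists_pt (hβ : Base β) {f : LP} {A T D C u d : ℕ} (h : |θ - ev hβ f| ≤ A * β ^ (T : ℤ))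
    (hL : ∀ (u : ℕ) (m : ℤ), β ^ ((D * u + C : ℕ) : ℤ) ≤ |θ - m * β ^ (u : ℤ)|) (hd : d ≤ T)
    (hu : D * u + C + (A + nrm f) ≤ d) : ∃ z ∈ sp f, (u : ℤ) ≤ z ∧ z < d := by
  by_contra hn
  push Not at hn
  have a1 := head_app hβ h hd hn
  obtain ⟨m, hm⟩ := (rep hβ (res (· < u) f)).int hβ (e := u) fun z hz => (mem_sp_res.1 hz).2.le
  have a2 := hβ.lt (m := A + nrm f) (e := (D * u + C : ℕ)) (T := d) (by omega)
  have := hL u m
  rw [hm] at a1
  linarith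

theorem cut (hβ : Base β) {P : ℤ[X]} (h0 : (P.map (algebraMap ℤ ℝ)).eval θ = 0) {κ B d s : ℕ}
    (hκ : ∀ i, (P.coeff i).natAbs ≤ κ) {Z : LP} (hZ : ∀ z ∈ sp Z, 0 ≤ z) (hB : 1 ≤ B)
    (h1 : nrm Z ≤ B) (h2 : |θ| ≤ B) (h3 : |θ - ev hβ Z| ≤ B * β ^ (d : ℤ))
    (h4 : s + (nrm (aeval Z P) + 1) * (nrm (aeval Z P) +
      (P.natDegree + 1) * κ * P.natDegree * B ^ P.natDegree * B) ≤ d) :
    ∃ e : ℤ, s ≤ e ∧ ev hβ (aeval Z P) = ev hβ (res (¬· < e) (aeval Z P)) := by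
  set K := (P.natDegree + 1) * κ * P.natDegree * B ^ P.natDegree * B with hK
  obtain ⟨e, e1, e2, e3⟩ := exists_gap (nrm (aeval Z P) + K) (sp (aeval Z P)) s
  have a1 := res_add_not (· < e) (aeval Z P)
  refine ⟨e, e1, ?_⟩
  suffices h : ev hβ (res (· < e) (aeval Z P)) = 0 by
    conv_lhs => rw [← a1, map_add, h, zero_add]
  refine (rep hβ _).gap hβ (rep hβ (res (¬· < e) (aeval Z P))) (e := e)
    (e' := e + (nrm (aeval Z P) + K : ℕ)) (T := d) (K := K) (fun z hz => (mem_sp_res.1 hz).2.le)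
    (fun z hz => (e3 z (mem_sp_res.1 hz).1).resolve_left (mem_sp_res.1 hz).2) ?_ ?_ ?_
  · rw [← map_add, a1, ← aeval_algHom_apply, aeval_def, eval₂_eq_eval_map, ← sub_zero (eval _ _),
      ← h0]
    have b1 : |ev hβ Z| ≤ B := by
      have := (rep hβ Z).abs_le hβ (e := 0) hZ
      rw [zpow_zero, mul_one] at this
      exact this.trans (by exact_mod_cast h1)
    refine (eval_lip (κ := κ) natDegree_map_le (fun i => ?_) (by exact_mod_cast hB) b1 h2).trans ?_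
    · rw [coeff_map, eq_intCast, ← Int.cast_abs, ← Nat.cast_natAbs]
      exact_mod_cast hκ i
    · rw [abs_sub_comm, hK]
      push_cast
      rw [mul_assoc _ (B : ℝ)]
      gcongr
  · have := Nat.mul_le_mul_right (nrm (aeval Z P) + K) (card_sp (Z := aeval Z P))
    rw [add_mul, one_mul] at h4
    zify at this h4 e2 ⊢
    linarith
  · have := nrm_res (κ := (¬· < e)) (Z := aeval Z P)
    omega

end Pool.Agent.P.MP_c8ecb2_nt.H29
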