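import Pool.Agent.P.MP_c8ecb2_nt.H29.Step
import Pool.Agent.P.MP_c8ecb2_nt.H29.Lac

set_option autoImplicit false

namespace Pool.Agent.P.MP_c8ecb2_nt.H29

open Finset Filter H14 Cx Sc Polynomial
open scoped Classical Pointwise

theorem sp_zsmul (c : ℤ) (Z : LP) : sp (c • Z) ⊆ sp Z := Finsupp.support_smul

theorem sp_sum {J : Type} (S : Finset J) (F : J → LP) :
    sp (∑ j ∈ S, F j) ⊆ S.biUnion fun j => sp (F j) := by
  rw [sp, AddMonoidAlgebra.coeff_sum]
  exact Finsupp.support_finsetSum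

theorem nrm_zsmul (c : ℤ) (Z : LP) : nrm (c • Z) ≤ c.natAbs * nrm Z := by
  rw [zsmul_eq_mul, ← nrm_int]
  exact nrm_mul

namespace Ctx

variable {X : Ctx}

theorem cov_pow {P g top : ℕ → Finset ℤ} {σ : ℕ → ℕ} {u : ℕ → ℤ} {μ : ℝ}
    (hg : X.Le (fun k => (X.s k).cov (P k) (σ k) (g k)) μ)
    (ht : X.Le (fun k => (X.s k).cov (P k) (σ k) (top k)) (μ - 1))
    (h : ∀ k, ∀ z ∈ g k, u k < z → z ∈ top k) (j : ℕ) :
    X.Le (fun k => (X.s k).cov (P k) (σ k + j) (sp (X.F g k ^ j))) (j * μ) ∧ X.Le (fun k =>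
      (X.s k).cov (P k) (σ k + j) ((sp (X.F g k ^ j)).filter (j * u k < ·))) (j * μ - 1) := by
  induction j with
  | zero =>
    refine ⟨((Le.const _ 1).weak (by simp)).mono' fun k => cov_le_card.trans
      (card_le_card (t := {0}) (sp_single 0 1)), Le.of_zero (.of_forall fun k => ?_)⟩
    rw [filter_eq_empty_iff.2, cov_empty]
    intro z hz
    simp [mem_singleton.1 (sp_single 0 1 hz)]
  | succ j ih =>
    have m : ∀ k x, (X.s k).cov (P k) (σ k + j) x ≤ (X.s k).cov (P k) (σ k) x :=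
      fun k x => cov_mono subset_rfl (by omega) subset_rfl
    refine ⟨((ih.1.mul hg).weak (by push_cast; linarith)).mono' fun k => (cov_add (by omega)
      (pow_succ (X.F g k) j ▸ sp_mul.trans (add_subset_add_left sp_res_mem))).trans
      (Nat.mul_le_mul_left _ (m k _)), (((ih.2.mul hg).weak (by push_cast; linarith)).add
      ((ih.1.mul ht).weak (by push_cast; linarith))).mono' fun k => (cov_union fun z hz => ?_).trans
      (add_le_add ((cov_add (by omega) subset_rfl).trans (Nat.mul_le_mul_left _ (m k _)))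
      ((cov_add (by omega) subset_rfl).trans (Nat.mul_le_mul_left _ (m k _))))⟩
    obtain ⟨z1, z2⟩ := mem_filter.1 hz
    rw [pow_succ] at z1
    obtain ⟨a, ha, x, hx, rfl⟩ := mem_add.1 (sp_mul z1)
    by_cases hc : u k < x
    · exact mem_union_right _ (add_mem_add ha (h k x (sp_res_mem hx) hc))
    · refine mem_union_left _ (add_mem_add (mem_filter.2 ⟨ha, ?_⟩) (sp_res_mem hx))
      push_cast at z2
      linarith

theorem mem_ball_zero {s : Sc} {j : ℕ} {S : Finset ℤ} {z : ℤ} :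
    z ∈ s.ball ∅ j 0 S ↔ z ∈ S ∧ |z| ≤ (s.L : ℤ) ^ j := by
  rw [mem_ball]
  exact and_congr_right fun _ => ⟨fun ⟨_, _, h⟩ => by simpa using h,
    fun h => In.small (by simpa using h)⟩

theorem init (X : Ctx) {θ : ℝ} (hθ : Irrational θ) {F : ℤ[X]} (hF : F ≠ 0)
    (h0 : (F.map (algebraMap ℤ ℝ)).eval θ = 0) {A : ℕ} (hA : 1 ≤ A) (hA' : |θ| ≤ A) {Q : ℕ}
    {η a₀ : ℝ} (hη : 3 ≤ η) (hQ : η + 3 ≤ Q) (hL : ∀ k, X.L k = 2 ^ X.l k ^ (Q + 1))
    (hf : ∀ k, (∀ z ∈ sp (X.f k), 0 ≤ z) ∧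
      |θ - ev X.hβ (X.f k)| ≤ A * X.β ^ ((X.L k ^ X.l k : ℕ) : ℤ))
    (hn : X.Le (fun k => (sp (X.f k)).card) a₀) :
    ∃ μ ≤ a₀, X.St (fun _ : Unit => F.natDegree) (fun _ => μ) (η - 3) := by
  obtain ⟨C, hC⟩ := liou X.hβ hθ hF h0
  set D := F.natDegree with hD
  have L1 : ∀ k, 1 ≤ X.L k := fun k => Nat.one_le_two_pow.trans (X.hL k)
  have se : ∀ {n : ℕ → ℕ}, X.SE n → ∀ᶠ k in X.U, ∀ j, 1 ≤ j → n k < X.L k ^ j := fun h =>
    h.lt.mono fun k hk j hj => hk.trans_le ((X.hL k).trans (Nat.le_self_pow (by omega) _))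
  have c0 := se ((SE.const _ C).add ((SE.const _ A).add X.se))
  obtain ⟨μ, m1, ⟨z, hz⟩, m2⟩ := X.inf_att (Z := Finset ℤ × ℕ × ℕ) (fun a δ k z => z.2.2 ≤ X.l k ∧
      X.le δ k z.1.card η ∧ X.ge δ k (z.2.2 - z.2.1) 1 ∧
      X.le δ k ((X.s k).cov z.1 z.2.1 ((X.s k).ball ∅ z.2.2 0 (sp (X.f k)))) a)
    (fun a a' δ δ' k z _ _ _ ⟨h1, h2, h3, h4⟩ => ⟨h1, h2.mono (by linarith), h3.mono (by linarith),
      h4.mono (by linarith)⟩) a₀ ⟨fun k => (∅, 0, X.l k), fun δ hδ => by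
      filter_upwards [Ge.l X.toCx δ hδ, hn.mono' (fun k => cov_le_card.trans
        (card_le_card ball_subset)) δ hδ] with k h1 h2
      exact ⟨le_rfl, by simpa [le] using (X.rp_pos k _).le, h1, h2⟩⟩ 0 fun a z hz => by
      refine Ge.le_of (Ge.of_pos ?_) fun δ hδ => (hz δ hδ).mono fun k hk => hk.2.2.2
      filter_upwards [c0, hz 1 one_pos, Win.ev (σ := fun k => (z k).2.1) (τ := fun k => (z k).2.2)
        (fun δ hδ => (hz δ hδ).mono fun k hk => hk.2.2.1) 1] with k h1 h2 h3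
      obtain ⟨w, w1, w2, w3⟩ := exists_pt X.hβ (u := 0) (d := X.L k ^ (z k).2.2) (hf k).2 hC
        (Nat.pow_le_pow_right (L1 k) h2.1) (by simpa using (h1 _ (by omega)).le)
      exact one_le_cov ⟨w, mem_ball_zero.2 ⟨w1, by
        rw [abs_of_nonneg w2]
        exact_mod_cast w3.le⟩⟩
  set P := fun k => (z k).1 with hP
  set σ := fun k => (z k).2.1 with hσ
  set τ := fun k => (z k).2.2 with hτ
  have z1 : ∀ᶠ k in X.U, τ k ≤ X.l k := (hz 1 one_pos).mono fun _ hk => hk.1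
  have z2 : X.Sm P η := fun δ hδ => (hz δ hδ).mono fun _ hk => hk.2.1
  have z3 : X.Win σ τ := fun δ hδ => (hz δ hδ).mono fun _ hk => hk.2.2.1
  have z4 : X.Le (fun k => (X.s k).cov (P k) (σ k) ((X.s k).ball ∅ (τ k) 0 (sp (X.f k)))) μ :=
    fun δ hδ => (hz δ hδ).mono fun _ hk => hk.2.2.2
  set T := fun k i => (sp (X.f k)).filter fun w => ((X.L k ^ (τ k - 1) * (3 * (D + 2)) ^ i : ℕ) : ℤ)
    ≤ w ∧ w < ((D + 2) * (X.L k ^ (τ k - 1) * (3 * (D + 2)) ^ i) : ℕ) with hT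
  have t1 : ∀ᶠ k in X.U, ∀ i < X.l k ^ Q,
      (D + 2) * (X.L k ^ (τ k - 1) * (3 * (D + 2)) ^ i) ≤ X.L k ^ τ k := by
    filter_upwards [X.ev_M (3 * (D + 2)), z3.ev 1] with k h1 h2 i hi
    have : (3 * (D + 2)) ^ (i + 1) ≤ X.L k := by
      rw [hL, pow_succ' _ Q, pow_mul]
      exact (Nat.pow_le_pow_right (by omega) hi).trans (Nat.pow_le_pow_left h1 _)
    calc _ ≤ X.L k ^ (τ k - 1) * (3 * (D + 2)) ^ (i + 1) := by
          rw [pow_succ, mul_comm (D + 2), mul_assoc]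
          gcongr
          omega
      _ ≤ X.L k ^ (τ k - 1) * X.L k := Nat.mul_le_mul_left _ this
      _ = _ := by rw [← pow_succ, Nat.sub_add_cancel (by omega)]
  have lQ : X.Le (fun k => X.l k ^ Q) Q := by simpa using (Le.l X.toCx).pow Q
  have t2 : ∀ᶠ k in X.U, ∑ i ∈ range (X.l k ^ Q), (X.s k).cov (P k) (σ k) (T k i) ≤
      (X.s k).cov (P k) (σ k) ((X.s k).ball ∅ (τ k) 0 (sp (X.f k))) *
      (((4 * X.l k ^ Q + 1).size + (X.l k * X.l k + 1)) * ((P k).card + 1)) := by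
    filter_upwards [t1, z1, z3.ev 2, (lQ.cmul 8).se.lt] with k h1 h2 h3 h4
    refine (sum_top (ρ := D + 2) (u := X.L k ^ (τ k - 1)) (by omega) (T k)
      (X := (X.s k).ball ∅ (τ k) 0 (sp (X.f k))) (fun i hi => ⟨fun w hw => ?_,
      fun w hw => (mem_filter.1 hw).2⟩) ?_).trans ?_
    · obtain ⟨w1, w2, w3⟩ := mem_filter.1 hw
      refine mem_ball_zero.2 ⟨w1, ?_⟩
      rw [abs_of_nonneg ((hf k).1 w w1)]
      exact_mod_cast w3.le.trans (Nat.cast_le.2 (h1 i hi))
    · have : X.L k ^ σ k * X.L k ≤ X.L k ^ (τ k - 1) :=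
        pow_succ (X.L k) _ ▸ Nat.pow_le_pow_right (L1 k) (by omega)
      have := X.hL k
      have : 0 < X.L k ^ σ k := Nat.pow_pos (L1 k)
      change 4 * (_ * 2 * X.L k ^ σ k) < _
      nlinarith
    · gcongr
      refine le_trans (Nat.size_le_size ?_) ((size_mul (4 * X.l k ^ Q + 1)
        (2 ^ (X.l k * X.l k))).trans_eq (by rw [Nat.size_pow]))
      have : (2 ^ X.l k) ^ σ k ≤ 2 ^ (X.l k * X.l k) := by
        rw [← pow_mul]
        exact Nat.pow_le_pow_right two_pos (Nat.mul_le_mul_left _ (by omega))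
      have := Nat.mul_le_mul_left (X.l k ^ Q) this
      have : 0 < 2 ^ (X.l k * X.l k) := by positivity
      change 2 * (_ * 2 * (2 ^ X.l k) ^ σ k) + 1 ≤ _
      nlinarith
  obtain ⟨i, i1, i2⟩ := typ (X := X.toCx) (R := Unit) (Γ := fun k => range (X.l k ^ Q)) (g := Q)
    (by simpa using (Ge.l X.toCx).pow Q) (fun _ k i => (X.s k).cov (P k) (σ k) (T k i))
    (fun _ => μ + (2 + η)) fun _ => (z4.mul (((Le.weak ((lQ.cmul 4).addc Q.cast_nonneg 1).se
      zero_le_two).add ((((Le.l _).mul (Le.l _)).weak (by norm_num)).addc zero_le_two 1)).mul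
      (Le.addc z2 (by linarith) 1))).mono t2
  have i3 := (i2 ()).weak (a' := μ - 1) (by linarith)
  set u := fun k => X.L k ^ (τ k - 1) * (3 * (D + 2)) ^ i k with hu
  have u1 : ∀ k, X.L k ^ (τ k - 1) ≤ u k := fun k => Nat.le_mul_of_pos_right _ (by positivity)
  have u2 : ∀ᶠ k in X.U, (D + 2) * u k ≤ X.L k ^ τ k ∧ (D + 2) * u k ≤ X.L k ^ X.l k := by
    filter_upwards [t1, i1, z1] with k h1 h2 h3
    exact ⟨h1 _ (mem_range.1 h2), (h1 _ (mem_range.1 h2)).trans (Nat.pow_le_pow_right (L1 k) h3)⟩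
  have u3 : ∀ᶠ k in X.U, (T k (i k)).Nonempty := by
    filter_upwards [u2, c0, z3.ev 2] with k h1 h2 h3
    obtain ⟨w, w1, w2⟩ := exists_pt X.hβ (u := u k) (hf k).2 hC h1.2 (by
      have := (h2 (τ k - 1) (by omega)).trans_le (u1 k)
      rw [add_mul]
      omega)
    exact ⟨w, mem_filter.2 ⟨w1, w2⟩⟩
  have hμ : 0 < μ := by linarith [(Ge.of_pos (u3.mono fun k hk => one_le_cov hk)).le_of i3]
  set g := fun k => (sp (X.f k)).filter (· < (((D + 2) * u k : ℕ) : ℤ)) with hg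
  have g1 : X.Le (fun k => (X.s k).cov (P k) (σ k) (g k)) μ := z4.mono (u2.mono fun k hk =>
    cov_mono subset_rfl le_rfl fun w hw => mem_ball_zero.2 ⟨(mem_filter.1 hw).1, by
      rw [abs_of_nonneg ((hf k).1 w (mem_filter.1 hw).1)]
      exact_mod_cast (mem_filter.1 hw).2.le.trans (Nat.cast_le.2 hk.1)⟩)
  obtain ⟨Q₁, p, A₁, q1, q2⟩ := good_of_pre (τ := fun k => τ k - 1) hη (by
    filter_upwards [u3, z1] with k h1 h2
    exact ⟨h1.mono (monotone_filter_right _ fun _ _ h => h.2), filter_subset _ _, by omega⟩) g1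
    fun Q' σ' τ' a1 a2 a3 => ⟨0, Ge.of_lt fun a ha h => absurd (m2 a (fun k =>
      (P k ∪ Q' k, σ' k, τ' k)) fun δ hδ => by
      have := h.mono (m := fun k => (X.s k).cov (P k ∪ Q' k) (σ' k)
        ((X.s k).ball ∅ (τ' k) 0 (sp (X.f k)))) (a2.mono fun k hk => cov_mono subset_rfl le_rfl
        fun w hw => mem_ball.2 ⟨mem_filter.2 ⟨ball_subset hw, by
          have b1 := (le_abs_self _).trans (mem_ball_zero.1 hw).2
          have b2 := (Nat.pow_le_pow_right (L1 k) hk.2).trans (u1 k)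
          have b3 : 0 < u k := (Nat.pow_pos (L1 k)).trans_le (u1 k)
          have b4 : X.L k ^ τ' k < (D + 2) * u k := by nlinarith
          exact b1.trans_lt (by exact_mod_cast b4)⟩,
          (mem_ball.1 hw).2.mono (empty_subset _) le_rfl le_rfl⟩)
      filter_upwards [this δ hδ, z1, a2, a3 δ hδ, z2.union a1 δ hδ] with k b1 b2 b3 b4 b5
      exact ⟨by omega, b5, b4, b1⟩) (not_le.2 ha)⟩
  have p1 := cov_pow (u := fun k => u k) g1 i3 fun k w hw h =>
    mem_filter.2 ⟨(mem_filter.1 hw).1, h.le, (mem_filter.1 hw).2⟩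
  obtain ⟨κ, hκ⟩ : ∃ κ, ∀ i, (F.coeff i).natAbs ≤ κ := ⟨∑ i ∈ F.support, (F.coeff i).natAbs, fun i => by
    by_cases hi : i ∈ F.support
    · exact single_le_sum (f := fun i => (F.coeff i).natAbs) (fun _ _ => Nat.zero_le _) hi
    · simp [notMem_support_iff.1 hi]⟩
  have s1 : ∀ n, X.SE fun k => nrm (∑ j ∈ range n, F.coeff j • X.F g k ^ j) := fun n =>
    (SE.sum _ fun j _ => (SE.const _ _).mul ((X.se_F g).pow j)).mono' fun k => (nrm_sum _ _).trans
      (sum_le_sum fun j _ => (nrm_zsmul _ _).trans (Nat.mul_le_mul_left _ (nrm_pow _ _)))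
  have s2 : X.SE fun k => nrm (aeval (X.F g k) F) := by simpa only [aeval_eq_sum_range] using s1 _
  have s3 := (SE.const _ A).add X.se
  obtain ⟨e, he⟩ := ((u2.and ((z3.ev 2).and (se ((s2.add (SE.const _ 1)).mul (s2.add
      (((SE.const _ ((D + 1) * κ * D)).mul (s3.pow D)).mul s3)))))).mono fun k hk =>
    cut X.hβ h0 hκ (Z := X.F g k) (s := D * u k + 1) (d := (D + 2) * u k) (B := A + nrm (X.f k))
      (fun w hw => (hf k).1 w (sp_res_subset hw)) (by omega) (nrm_res.trans (by omega))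
      (hA'.trans (by exact_mod_cast Nat.le_add_right _ _)) (by
        rw [Ctx.F, res_congr (θ := (· < (((D + 2) * u k : ℕ) : ℤ))) fun a ha => by simp [hg, ha]]
        exact head_app X.hβ (hf k).2 hk.1.2 fun _ _ h => h) (by
        have := (hk.2.2 (τ k - 1) (by omega)).trans_le (u1 k)
        rw [← hD, add_mul D 2]
        omega)).choice
  refine ⟨μ, m1, _, fun k => σ k + D, _, fun _ => g, fun _ => p, fun _ => A₁, F.leadingCoeff,
    fun k => res (¬· < e k) (aeval (X.F g k) F) - ∑ j ∈ range D, F.coeff j • X.F g k ^ j,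
    max (D * μ - 1) ((D - 1) * μ), fun _ => q2.sub (Sm.empty _ _) le_rfl (.of_forall fun k =>
      ⟨subset_rfl, subset_union_left, by omega, le_rfl, ball_subset, subset_rfl⟩),
    z3.shift (D + 1) (.of_forall fun k => by omega), leadingCoeff_ne_zero.2 hF, ?_,
    (s2.add (s1 D)).mono' fun k => nrm_sub.trans (Nat.add_le_add_right nrm_res _), ?_, ?_⟩
  · filter_upwards [he, z1] with k h1 h2
    refine ⟨by omega, ?_⟩
    rw [map_sub, ← h1.2, ← map_sub, aeval_eq_sum_range, sum_range_succ, add_sub_cancel_left]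
    simp [hD]
  · refine ((Le.sum (range (D + 1)) fun j hj => (p1 j).2.weak (le_max_of_le_left ?_)).add
      (Le.sum (range D) fun j hj => (p1 j).1.weak (le_max_of_le_right ?_))).mono ?_
    · have : (j : ℝ) ≤ D := by exact_mod_cast Nat.lt_succ_iff.1 (mem_range.1 hj)
      nlinarith
    · have : (j : ℝ) + 1 ≤ D := by exact_mod_cast mem_range.1 hj
      nlinarith
    filter_upwards [he] with k hk
    refine (cov_union sp_sub).trans (add_le_add
      ((cov_mono subset_rfl le_rfl fun w hw => ?_).trans ((cov_biUnion _ _).trans (sum_le_sum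
        fun j hj => cov_mono subset_union_left (by have := mem_range.1 hj; omega) subset_rfl)))
      ((cov_mono subset_rfl le_rfl (sp_sum _ _)).trans ((cov_biUnion _ _).trans (sum_le_sum
        fun j hj => cov_mono subset_union_left (by have := mem_range.1 hj; omega) (sp_zsmul _ _)))))
    obtain ⟨w1, w2⟩ := mem_sp_res.1 hw
    rw [aeval_eq_sum_range] at w1
    obtain ⟨j, j1, j2⟩ := mem_biUnion.1 (sp_sum _ _ w1)
    refine mem_biUnion.2 ⟨j, j1, mem_filter.2 ⟨sp_zsmul _ _ j2, ?_⟩⟩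
    have a1 : j * u k ≤ D * u k := Nat.mul_le_mul_right _ (Nat.lt_succ_iff.1 (mem_range.1 j1))
    have a2 := hk.1
    zify at a1
    push_cast at a2
    linarith
  · simp only [univ_unique, sum_singleton]
    exact max_lt (by linarith) (by linarith)

end Ctx

end Pool.Agent.P.MP_c8ecb2_nt.H29
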