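import Pool.Agent.P.MP_c8ecb2_nt.H29.Good
import Pool.Agent.P.MP_c8ecb2_nt.H29.Dom

set_option autoImplicit false

namespace Pool.Agent.P.MP_c8ecb2_nt.H29

open Finset Filter H14 Cx Sc
open scoped Classical Pointwise

theorem region_ev {β : ℝ} (hβ : Base β) (s : Sc) (P : Finset ℤ) (j : ℕ) (c : ℤ) {Z : LP}
    (h0 : ev hβ Z = 0) (T : Finset ℤ) (hn : nrm Z + T.card + 3 ≤ s.M) : ∃ m, 2 ≤ m ∧ m + 1 ≤ s.M ∧
      ev hβ (res (fun z => s.In P (j + 1) m (z - c)) Z) = 0 ∧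
      ∀ z ∈ T, s.In P (j + 1) (m + 1) (z - c) → s.In P (j + 1) m (z - c) := by
  obtain ⟨m, h1, h2, h3⟩ := s.region P (j + 1) c (sp Z ∪ T)
  have := card_union_le (sp Z) T
  have := card_sp (Z := Z)
  refine ⟨m, h1, by omega, ev_res (G := s.L ^ (j + 1)) _ Z le_rfl h0 ?_ fun z _ z' hz' a1 a2 => ?_,
    fun z hz => h3 z (mem_union_right _ hz)⟩
  · have := s.hL
    have : s.L ≤ s.L ^ (j + 1) := Nat.le_self_pow (by omega) _
    omega
  · by_contra hc
    refine a2 (h3 z' (mem_union_left _ hz') ((a1.sub (In.small (m := 1) (z := z - z') ?_)).cast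
      (by ring)))
    simpa using hc

theorem loc_pt {β : ℝ} (hβ : Base β) {s : Sc} {P P' V B y : Finset ℤ} {σ t s₁ m m' : ℕ}
    {f Y Yl U W E : LP} {p p' γ : ℤ} (hV : ∀ v ∈ V, ∀ v' ∈ V, s.In P (t + 5) 1 (v - v') → v = v')
    (hγ : γ ∈ V) (hy : s.Cv P (t + 3) 1 V y) (hB : s.Cv P σ m B (sp (Y - Yl)))
    (hY : ∀ z ∈ sp Yl, s.In P (t + 1) m (z - p)) (hU : ∀ z ∈ sp U, s.In P (t + 1) m' (z - p'))
    (hm : m + 1 ≤ s.M) (hm' : m' + m' ≤ s.M) (h1 : σ ≤ s₁) (h2 : σ ≤ t) (hP : P ⊆ P')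
    (hid : ev hβ (res (· ∈ y) f * Y + U * W) = ev hβ E)
    (hn : nrm (res (· ∈ y) f * Y + U * W - E) + nrm U * nrm W + 3 ≤ s.M) :
    ∃ W' E', ev hβ (res (· ∈ s.ball P (t + 3) γ y) f * Yl + U * W') = ev hβ E' ∧
      sp W' ⊆ s.ball P (t + 4) (γ + (p - p')) (sp W) ∧ nrm W' ≤ nrm W ∧
      nrm E' ≤ nrm E + nrm f * (nrm Y + nrm Yl) ∧
      s.cov P' (s₁ + 1) (sp E') ≤ s.cov P' (s₁ + 1) (s.ball P (t + 4) (γ + p) (sp E)) +
        s.er P (t + 4) (fun v => s.cov P' s₁ (s.ball P (t + 3) v y)) (B.image (· - p)) V γ := by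
  obtain ⟨n, n1, n2, n3, n4⟩ := region_ev hβ s P (t + 2) (γ + p)
    (Z := res (· ∈ y) f * Y + U * W - E) (by rw [map_sub, hid, sub_self]) (sp U + sp W)
    (le_trans (by gcongr; exact card_add_le.trans (Nat.mul_le_mul card_sp card_sp)) hn)
  set κ := fun z => s.In P (t + 2 + 1) n (z - (γ + p)) with hκ
  have k1 : ∀ z, κ z → s.In P (t + 4) 1 (z - (γ + p)) := fun z hz => hz.up (by omega)
  have a1 : res κ (U * W) = U * res (fun v => ∃ u ∈ sp U, κ (u + v)) W :=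
    res_mul fun u hu v hv => ⟨fun h => ⟨u, hu, h⟩, fun ⟨u', hu', h⟩ => n4 _ (add_mem_add hu hv)
      ((h.add (((hU u hu).sub (hU u' hu')).lift subset_rfl (by omega) hm')).cast (by ring))⟩
  have a2 : res κ (res (· ∈ s.ball P (t + 3) γ y) f * Yl) = res (· ∈ s.ball P (t + 3) γ y) f * Yl :=
    res_eq_self fun z hz => by
      obtain ⟨a, ha, u, hu, rfl⟩ := mem_add.1 (sp_mul hz)
      exact (((mem_ball.1 (sp_res_mem ha)).2.add ((hY u hu).lift subset_rfl (by omega)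
        (by omega))).cast (by ring)).mono subset_rfl le_rfl n1
  have a3 : res κ (res (· ∈ y \ s.ball P (t + 3) γ y) f * Yl) = 0 := res_eq_zero fun z hz hk => by
    obtain ⟨a, ha, u, hu, rfl⟩ := mem_add.1 (sp_mul hz)
    obtain ⟨b1, b2⟩ := mem_sdiff.1 (sp_res_mem ha)
    obtain ⟨v, b3, b4⟩ := hy a b1
    have := hV v b3 γ hγ (((((k1 _ hk).sub (b4.lev (by omega))).sub ((hY u hu).lift subset_rfl
      (by omega) (by omega))).cast (by ring)).lift' (by omega) (by omega))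
    exact b2 (mem_ball.2 ⟨b1, this ▸ b4⟩)
  refine ⟨res (fun v => ∃ u ∈ sp U, κ (u + v)) W, res κ E - res κ (res (· ∈ y) f * (Y - Yl)), ?_,
    fun v hv => ?_, nrm_res, nrm_sub.trans (add_le_add nrm_res (nrm_res.trans (nrm_mul.trans
      (Nat.mul_le_mul nrm_res nrm_sub)))), (cov_union sp_sub).trans (add_le_add
      (cov_mono subset_rfl le_rfl fun z hz => ?_) ?_)⟩
  · rw [show res (· ∈ y) f * Y = res (· ∈ s.ball P (t + 3) γ y) f * Yl +
      res (· ∈ y \ s.ball P (t + 3) γ y) f * Yl + res (· ∈ y) f * (Y - Yl) by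
        rw [← add_mul, ← res_split ball_subset]; ring, res_sub, res_add, res_add, res_add, a1, a2,
      a3] at n3
    simp only [map_add, map_sub, map_zero] at n3 ⊢
    linarith
  · obtain ⟨b1, u, b2, b3⟩ := mem_sp_res.1 hv
    exact mem_ball.2 ⟨b1, ((b3.sub ((hU u b2).lift subset_rfl (by omega) (by omega))).cast
      (by ring)).up n2⟩
  · exact mem_ball.2 ⟨(mem_sp_res.1 hz).1, k1 _ (mem_sp_res.1 hz).2⟩
  choose C hC hC' using fun v => s.cov_spec P' s₁ (s.ball P (t + 3) v y)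
  refine (Cv.cov_le (C := (B.image (· - p)).biUnion fun b => V.biUnion fun v =>
    if s.In P (t + 4) 3 (v + b - γ) then (C v).image (· + (b + p)) else ∅) (P := P') (j := s₁)
    (m := 1 + m) (fun z hz => ?_) subset_rfl (by omega) (by omega)).trans ?_
  · obtain ⟨b1, b2⟩ := mem_sp_res.1 hz
    obtain ⟨a, ha, u, hu, rfl⟩ := mem_add.1 (sp_mul b1)
    obtain ⟨v, b3, b4⟩ := hy a (sp_res_mem ha)
    obtain ⟨b, b5, b6⟩ := hB u hu
    obtain ⟨c, b7, b8⟩ := hC' v a (mem_ball.2 ⟨sp_res_mem ha, b4⟩)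
    refine ⟨c + b, mem_biUnion.2 ⟨b - p, mem_image_of_mem _ b5, mem_biUnion.2 ⟨v, b3, ?_⟩⟩,
      (b8.add (b6.mono hP h1 le_rfl)).cast (by ring)⟩
    rw [if_pos ((((k1 _ b2).sub (b4.lev (by omega))).sub (b6.lift subset_rfl (by omega)
      (by omega))).cast (by ring))]
    exact mem_image.2 ⟨c, b7, by ring⟩
  · refine card_biUnion_le.trans (sum_le_sum fun b _ => card_biUnion_le.trans
      (sum_le_sum fun v _ => ?_))
    split_ifs
    · exact card_image_le.trans (hC v).le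
    · simp

theorem sum_ball_le {s : Sc} {P G X : Finset ℤ} {j i : ℕ} (c : ℤ) (hi : i ≤ j)
    (hG : ∀ v ∈ G, ∀ v' ∈ G, s.In P (j + 1) 1 (v - v') → v = v') :
    ∑ v ∈ G, s.cov P i (s.ball P j (v + c) X) ≤ s.cov P i X :=
  sum_cov_le _ _ (fun _ _ => ball_subset) fun v hv v' hv' z hz z' hz' h => hG v hv v' hv'
    (((((mem_ball.1 hz').2.sub (mem_ball.1 hz).2).add (h.lev hi)).cast (by ring)).lift' (by omega)
      (by omega))

namespace Ctx

variable {X : Ctx} {P P' A x y : ℕ → Finset ℤ} {η μ μ' μ'' ν e : ℝ} {σ ρ t : ℕ → ℕ}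
  {p p' : ℕ → ℤ} {Z Zl Y Yl U W E : ℕ → LP}

theorem loc0 (h : X.SpS P η σ t Z Zl p μ) (hη : 0 ≤ η) (hσ : ∀ᶠ k in X.U, σ k < ρ k ∧ σ k ≤ t k)
    (hE : X.Le (fun k => (X.s k).cov (P k) (ρ k) (sp (E k))) e) (hE' : X.SE fun k => nrm (E k))
    (hid : ∀ᶠ k in X.U, ev X.hβ (Z k) = ev X.hβ (E k)) :
    ∃ E₀ : ℕ → LP, (∀ᶠ k in X.U, ev X.hβ (Zl k) = ev X.hβ (E₀ k)) ∧ (X.SE fun k => nrm (E₀ k)) ∧
      X.Le (fun k => (X.s k).cov (P k) (ρ k) (sp (E₀ k))) (max e (μ - 1)) := by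
  obtain ⟨m, _, _, h1, -, -, -, h5, h6⟩ := id h
  obtain ⟨n, hn⟩ : ∃ n : ℕ → ℕ, ∀ᶠ k in X.U, 2 ≤ n k ∧ n k + 1 ≤ (X.s k).M ∧ ev X.hβ
      (res (fun z => (X.s k).In (P k) (t k + 2 + 1) (n k) (z - p k)) (Z k - E k)) = 0 := by
    refine Eventually.choice (l := X.U) (r := fun k n => 2 ≤ n ∧ n + 1 ≤ (X.s k).M ∧ ev X.hβ
      (res (fun z => (X.s k).In (P k) (t k + 2 + 1) n (z - p k)) (Z k - E k)) = 0) ?_
    filter_upwards [hid, ((h5.add hE').add (SE.const _ 3)).lt] with k a1 a2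
    obtain ⟨n, n1, n2, n3, -⟩ := region_ev X.hβ (X.s k) (P k) (t k + 2) (p k) (Z := Z k - E k)
      (by rw [map_sub, a1, sub_self]) ∅ (by
        have := nrm_sub (U := Z k) (V := E k)
        simp only [s, card_empty]
        omega)
    exact ⟨n, n1, n2, n3⟩
  set κ := fun k z => (X.s k).In (P k) (t k + 2 + 1) (n k) (z - p k) with hκ
  refine ⟨fun k => res (κ k) (E k) - res (κ k) (Z k - Zl k), ?_, (hE'.add (h5.add h6)).mono'
    fun k => nrm_sub.trans (add_le_add nrm_res (nrm_res.trans nrm_sub)),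
    ((hE.weak (le_max_left _ _)).add ((h.far (Sm.single X hη p) (σ' := ρ)
      (W := fun k => sp (res (κ k) (Z k - Zl k))) ?_).weak (le_max_right _ _))).mono' fun k =>
      (cov_union sp_sub).trans (add_le_add (cov_mono subset_rfl le_rfl sp_res_subset) le_rfl)⟩
  · filter_upwards [hn, h1, X.ev_M m] with k ⟨a1, _, a2⟩ ⟨_, _, a3⟩ a4
    have : res (κ k) (Zl k) = Zl k := res_eq_self fun z hz =>
      ((a3 z hz).lift subset_rfl (by omega) a4).mono subset_rfl le_rfl (by omega)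
    rw [res_sub, map_sub] at a2
    rw [res_sub, this, map_sub, map_sub]
    linarith
  · filter_upwards [hσ, hn] with k a1 a2
    exact ⟨a1.1, a1.2, sp_res_subset, fun z hz =>
      ⟨p k, mem_singleton_self _, (mem_sp_res.1 hz).2.up (by omega)⟩⟩

theorem edge_sum (hη : 3 ≤ η) {V Γ B : ℕ → Finset ℤ} {w : ℕ → ℤ → ℕ} {M ζ : ℝ} (hM : 0 ≤ M)
    (hζ : ζ ≤ 1) (hV : X.Sm V μ) (hΓ : X.Sm Γ (μ - M)) (hB : X.Sm B μ')
    (hs : ∀ᶠ k in X.U, Γ k ⊆ V k ∧
      ∀ v ∈ V k, ∀ v' ∈ V k, (X.s k).In (P k) (t k + 5) 1 (v - v') → v = v')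
    (hc : ∀ Q, X.Sm Q η → X.Le (fun k => (X.s k).conc (P k ∪ Q k) (t k + 5) (B k)) (μ' - 1))
    (hw : X.Le (fun k => ∑ v ∈ V k, w k v) μ)
    (hh : X.Le (fun k => hv (V k) (w k) (X.pw (M + 1) k)) (μ - ζ)) :
    X.Le (fun k => ∑ γ ∈ Γ k, (X.s k).er (P k) (t k + 4) (w k) ((B k).image (· - p k)) (V k) γ)
      (μ + μ' - ζ) := by
  obtain ⟨c, c1, c2⟩ := Le.le_pow hV
  set wl := fun k v => if X.pw (M + 1) k ≤ w k v then 0 else w k v with hwl
  have a1 : X.Le (fun k => ∑ v ∈ V k, wl k v) μ := hw.mono' fun k => sum_le_sum fun v _ => by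
    simp only [hwl]
    split_ifs <;> omega
  have a2 : X.Sm (fun k => (B k).image (· - p k)) μ' := Le.mono' hB fun _ => card_image_le
  obtain ⟨T, hT⟩ := ((hs.and (c2.and (X.ev_M (6 * c + 2)))).mono fun k b =>
    edges (j := t k + 4) b.1.2 b.1.1 c1 b.2.2 (w := wl k) (c := X.pw (M + 1) k) (fun v => by
      simp only [hwl]
      split_ifs <;> omega) b.2.1 (X.pw_pos η k) ((B k).image (· - p k))).choice
  have a3 : X.Le (fun k => ((X.s k).ball (P k ∪ T k) (t k + 4 + 1) 0 ((B k).image (· - p k))).card)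
      (μ' - 1) := (hc T ((X.pw_le (by linarith)).mono (hT.mono fun _ hk => hk.1))).mono' fun k => by
    refine le_trans (card_le_card fun z hz => ?_) (card_image_le (f := (· - p k)).trans (le_conc (p k)))
    obtain ⟨z1, z2⟩ := mem_ball.1 hz
    obtain ⟨b, hb, rfl⟩ := mem_image.1 z1
    exact mem_image_of_mem _ (mem_ball.2 ⟨hb, z2.cast (by ring)⟩)
  have a4 := (((a2.mul ((((Le.l _).cmul (2 * c)).addc zero_le_one (2 * c)).mul
    ((a1.weak (a' := μ + 1) (by linarith)).add ((hΓ.mul (X.pw_le (a := M + 1) (by linarith))).weak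
    (by linarith))))).weak (a' := μ + μ' - 1 + η) (by linarith)).add (((a3.mul a1).mul
    (X.pw_le (a := η) (by linarith))).weak (by linarith))).of_mul (hT.mono fun _ hk => hk.2)
    (X.pw_ge η)
  refine ((a4.weak (by linarith)).add ((a2.mul hh).weak (by linarith))).mono ?_
  filter_upwards [hs] with k b1
  rw [hv, sum_filter]
  refine le_trans ?_ (Nat.add_le_add_left (er_triv (j := t k + 4) fun v hv v' hv' =>
    b1.2 v (b1.1 hv) v' (b1.1 hv')) _)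
  simp only [er, ← sum_add_distrib]
  refine sum_le_sum fun _ _ => sum_le_sum fun _ _ => sum_le_sum fun _ _ => ?_
  simp only [hwl]
  split_ifs <;> omega

theorem loc (hη : 3 ≤ η) (hx : ∀ᶠ k in X.U, y k ⊆ x k ∧ (X.s k).Cv (P k) (σ k) 1 (A k) (x k) ∧
      P k ⊆ P' k ∧ σ k + 2 ≤ ρ k) (hA : X.Sm A μ) (hW : X.Win ρ t)
    (hu : X.Le (fun k => ((X.s k).uns (P k) (t k) (A k)).card) (μ - 1))
    (hy : X.Ge (fun k => (X.s k).cov (P k) (t k + 3) (y k)) μ)
    (hY : X.SpS P η σ t Y Yl p μ') (hU : X.SpS P η σ t U U p' μ'')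
    (hV : X.Le (fun k => (X.s k).cov (P k) (ρ k) (sp (W k))) ν) (hV' : X.SE fun k => nrm (W k))
    (hE : X.Le (fun k => (X.s k).cov (P k) (ρ k) (sp (E k))) e) (hE' : X.SE fun k => nrm (E k))
    (hid : ∀ᶠ k in X.U, ev X.hβ (X.F y k * Y k + U k * W k) = ev X.hβ (E k)) :
    ∃ (M ζ : ℝ) (s s₂ : ℕ → ℕ) (γ : ℕ → ℤ) (g Γ y' : ℕ → Finset ℤ) (W' E' : ℕ → LP),
      0 < ζ ∧ (μ - 1 < M → ζ = 1) ∧ (∀ᶠ k in X.U, ρ k ≤ s k ∧ s₂ k ≤ t k ∧
        g k ⊆ (X.s k).ball (P k) (t k + 3) (γ k) (y k) ∧ y' k ⊆ y k ∧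
        (X.s k).Cv (P k) (t k + 4) 1 (Γ k) (y' k) ∧
        ev X.hβ (X.F g k * Yl k + U k * W' k) = ev X.hβ (E' k)) ∧ X.Win s s₂ ∧
      X.Le (fun k => (X.s k).cov (P' k) (s k) (g k)) M ∧
      X.Ge (fun k => (X.s k).cov (P' k) (s₂ k) (g k)) M ∧
      X.Le (fun k => (X.s k).cov (P' k) (s k) (sp (W' k))) (ν - (μ - M)) ∧
      (X.SE fun k => nrm (W' k)) ∧ (X.SE fun k => nrm (E' k)) ∧
      X.Le (fun k => (X.s k).cov (P' k) (s k) (sp (E' k))) (max e (μ + μ' - ζ) - (μ - M)) ∧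
      X.Sm Γ (μ - M) ∧ X.Ge (fun k => (X.s k).cov (P k) (ρ k) (y' k)) μ := by
  choose V v1 v2 v3 using fun k =>
    (X.s k).exists_sep (P k) (t k + 5) (A k \ (X.s k).uns (P k) (t k) (A k))
  set y₀ := fun k => (y k).filter fun z => ∃ v ∈ V k, (X.s k).In (P k) (t k + 3) 1 (z - v) with hy₀
  have a0 : ∀ k, y₀ k ⊆ y k := fun k => filter_subset _ _
  have a1 : ∀ k, (X.s k).Cv (P k) (t k + 3) 1 (V k) (y₀ k) := fun k z hz => (mem_filter.1 hz).2
  have a2 : X.Le (fun k => (X.s k).cov (P k) (σ k) (y k \ y₀ k)) (μ - 1) := hu.mono (by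
    filter_upwards [hx, hW.ev 0] with k ⟨b1, b2, _, b3⟩ b4
    refine cov_le fun z hz => ?_
    obtain ⟨z1, z2⟩ := mem_sdiff.1 hz
    obtain ⟨a, z3, z4⟩ := b2 z (b1 z1)
    refine ⟨a, ?_, z4⟩
    by_contra hc
    obtain ⟨v, z5, z6⟩ := v3 k a (mem_sdiff.2 ⟨z3, hc⟩)
    exact z2 (mem_filter.2 ⟨z1, v, z5, (((z4.lev (by omega)).add
      (stable_close (mem_sdiff.2 ⟨z3, hc⟩) (v1 k z5) z6)).cast (by ring)).lift' (by omega)
      (by omega)⟩))
  set w := fun k s v => (X.s k).cov (P' k) s ((X.s k).ball (P k) (t k + 3) v (y₀ k)) with hw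
  have a3 : ∀ᶠ k in X.U, ∀ G ⊆ V k, ∀ s, ρ k ≤ s → ∑ v ∈ G, w k s v ≤
      (X.s k).cov (P k) (ρ k) (G.biUnion fun v => (X.s k).ball (P k) (t k + 3) v (y₀ k)) := by
    filter_upwards [hx, hW.ev 0] with k ⟨_, _, b1, _⟩ b2 G hG s hs
    refine (sum_le_sum fun v _ => cov_mono b1 hs subset_rfl).trans (sum_cov_le _ _
      (fun v hv => subset_biUnion_of_mem (fun v => (X.s k).ball (P k) (t k + 3) v (y₀ k)) hv) fun v hv v' hv' z hz z' hz' h => ?_)
    exact v2 k v (hG hv) v' (hG hv') (((((mem_ball.1 hz').2.sub (mem_ball.1 hz).2).add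
      (h.lev (by omega))).cast (by ring)).lift' (by omega) (by omega))
  have a4 : ∀ s : ℕ → ℕ, (∀ᶠ k in X.U, ρ k ≤ s k) → X.Le (fun k => ∑ v ∈ V k, w k (s k) v) μ :=
    fun s hs => Le.mono hA (by
      filter_upwards [a3, hx, hs] with k b1 ⟨b2, b3, _, b4⟩ b5
      exact (b1 _ subset_rfl _ b5).trans (cov_le (b3.mono subset_rfl (by omega) le_rfl subset_rfl
        (biUnion_subset.2 fun v _ => ball_subset.trans ((a0 k).trans b2)))))
  obtain ⟨M, ζ, s₁, s, s₂, Γ, d1, d2, d3, d4, d5, d6, d7, d8, d9, d10, d11⟩ := dom (X := X.toCx)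
    (V := V) (w := w) (fun k s s' v h => cov_mono subset_rfl h subset_rfl) hW
    (a4 ρ (.of_forall fun _ => le_rfl)) fun s => hy.of_add (by
      filter_upwards [hx, hW.ev 0] with k ⟨_, _, _, b1⟩ b2
      refine (cov_union (X := (V k).biUnion fun v => (X.s k).ball (P k) (t k + 3) v (y₀ k))
        (Y := y k \ y₀ k) fun z hz => ?_).trans (add_le_add ((cov_biUnion _ _).trans
        (sum_le_sum fun v _ => ?_)) (cov_mono subset_rfl (by omega) subset_rfl))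
      · by_cases hc : z ∈ y₀ k
        · obtain ⟨v, c1, c2⟩ := a1 k z hc
          exact mem_union_left _ (mem_biUnion.2 ⟨v, c1, mem_ball.2 ⟨hc, c2⟩⟩)
        · exact mem_union_right _ (mem_sdiff.2 ⟨hz, hc⟩)
      · rcases ((X.s k).ball (P k) (t k + 3) v (y₀ k)).eq_empty_or_nonempty with h | h
        · simp [h, cov_empty]
        · exact cov_ball.trans (one_le_cov h)) a2 (by linarith)
  obtain ⟨m, _, B, y1, -, y2, y3, y4, y5⟩ := id hY
  obtain ⟨m', _, _, u1, -, -, -, u2, -⟩ := hU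
  set E₁ := fun k => E k - X.F (fun k => y k \ y₀ k) k * Y k with hE₁
  have e1 : X.SE fun k => nrm (E₁ k) := (hE'.add ((X.se_F _).mul y4)).mono' fun k =>
    nrm_sub.trans (Nat.add_le_add_left nrm_mul _)
  have e2 : X.Le (fun k => (X.s k).cov (P k) (ρ k) (sp (E₁ k))) (max e (μ + μ' - ζ)) := by
    refine ((hE.weak (le_max_left _ _)).add ((a2.mul (hY.cov (P' := P) (σ' := fun k => σ k + 1)
      (.of_forall fun k => ⟨subset_rfl, by omega⟩))).weak (le_max_of_le_right (by linarith)))).mono ?_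
    filter_upwards [hx] with k ⟨_, _, _, b1⟩
    exact (cov_union sp_sub).trans (Nat.add_le_add_left ((cov_add (j := σ k + 1) b1 sp_mul).trans
      (Nat.mul_le_mul_right _ (cov_mono subset_rfl (by omega) sp_res_mem))) _)
  have e3 := edge_sum (p := p) hη d1 d3 (Le.mono' hA fun k => card_le_card ((v1 k).trans
    sdiff_subset)) d8 y2 (d5.mono fun k hk => ⟨hk.2.2.2, v2 k⟩) y3 (a4 s₁ (d5.mono fun k hk => hk.1))
    d7
  obtain ⟨γ, g1, g2⟩ := typ d9 (fun r k γ => match r with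
    | true => (X.s k).cov (P k) (ρ k) ((X.s k).ball (P k) (t k + 4) (γ + p k) (sp (E₁ k))) +
        (X.s k).er (P k) (t k + 4) (w k (s₁ k)) ((B k).image (· - p k)) (V k) γ
    | false => (X.s k).cov (P k) (ρ k) ((X.s k).ball (P k) (t k + 4) (γ + (p k - p' k)) (sp (W k))))
    (fun r => match r with | true => max e (μ + μ' - ζ) | false => ν) fun r => by
      cases r
      · refine hV.mono ?_
        filter_upwards [d5, hW.ev 0] with k b1 b2
        exact sum_ball_le _ (by omega) fun v hv v' hv' => v2 k v (b1.2.2.2 hv) v' (b1.2.2.2 hv')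
      · refine (e2.add (e3.weak (le_max_right _ _))).mono ?_
        filter_upwards [d5, hW.ev 0] with k b1 b2
        rw [sum_add_distrib]
        exact Nat.add_le_add_right (sum_ball_le _ (by omega)
          fun v hv v' hv' => v2 k v (b1.2.2.2 hv) v' (b1.2.2.2 hv')) _
  have hR : ∀ᶠ k in X.U, ∃ R : LP × LP, ev X.hβ (res (· ∈ (X.s k).ball (P k) (t k + 3) (γ k) (y₀ k))
      (X.f k) * Yl k + U k * R.1) = ev X.hβ R.2 ∧
      sp R.1 ⊆ (X.s k).ball (P k) (t k + 4) (γ k + (p k - p' k)) (sp (W k)) ∧ nrm R.1 ≤ nrm (W k) ∧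
      nrm R.2 ≤ nrm (E₁ k) + nrm (X.f k) * (nrm (Y k) + nrm (Yl k)) ∧
      (X.s k).cov (P' k) (s₁ k + 1) (sp R.2) ≤ (X.s k).cov (P' k) (s₁ k + 1)
        ((X.s k).ball (P k) (t k + 4) (γ k + p k) (sp (E₁ k))) +
        (X.s k).er (P k) (t k + 4) (w k (s₁ k)) ((B k).image (· - p k)) (V k) (γ k) := by
    filter_upwards [hx, hW.ev 0, d5, g1, y1, u1, X.ev_M (m + 1), X.ev_M (m' + m'), hid,
      ((((((X.se_F y₀).mul y4).add (u2.mul hV')).add e1).add (u2.mul hV')).add (SE.const _ 3)).lt]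
      with k ⟨_, _, b1, b2⟩ b3 b4 b5 b6 b7 b8 b9 b10 b11
    exact Prod.exists.2 (loc_pt X.hβ (s₁ := s₁ k) (f := X.f k) (W := W k) (E := E₁ k) (v2 k)
      (b4.2.2.2 b5) (a1 k) b6.2.1 b6.2.2 b7.2.2 b8 b9 (by omega) (by omega) b1 (by
        rw [hE₁, map_sub, ← b10, F, F, res_split (a0 k), add_mul]
        simp only [map_add]
        ring) (le_trans (by
        gcongr
        exact nrm_sub.trans (Nat.add_le_add_right (nrm_add.trans (add_le_add nrm_mul nrm_mul)) _))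
        b11.le))
  obtain ⟨R, hR⟩ := hR.choice
  refine ⟨M, ζ, s, s₂, γ, fun k => (X.s k).ball (P k) (t k + 3) (γ k) (y₀ k), Γ,
    fun k => (Γ k).biUnion fun v => (X.s k).ball (P k) (t k + 3) v (y₀ k), fun k => (R k).1,
    fun k => (R k).2, d2, d4, ?_, d6, (d11 γ g1).2, (d11 γ g1).1, (g2 false).mono ?_,
    hV'.mono (hR.mono fun k hk => hk.2.2.1), (e1.add (X.se.mul (y4.add y5))).mono
    (hR.mono fun k hk => hk.2.2.2.1), (g2 true).mono ?_, d8, d10.mono ?_⟩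
  · filter_upwards [d5, hR] with k b1 b2
    refine ⟨by omega, b1.2.2.1, ball_mono subset_rfl le_rfl (a0 k),
      biUnion_subset.2 fun v _ => ball_subset.trans (a0 k), fun z hz => ?_, b2.1⟩
    obtain ⟨v, c1, c2⟩ := mem_biUnion.1 hz
    exact ⟨v, c1, (mem_ball.1 c2).2.lev (by omega)⟩
  · filter_upwards [d5, hR, hx] with k b1 b2 b3
    exact cov_mono b3.2.2.1 (by omega) b2.2.1
  · filter_upwards [d5, hR, hx] with k b1 b2 b3
    exact (cov_mono subset_rfl b1.2.1 subset_rfl).trans (b2.2.2.2.2.trans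
      (Nat.add_le_add_right (cov_mono b3.2.2.1 (by omega) subset_rfl) _))
  · filter_upwards [d5, a3, d6.ev 0] with k b1 b2 b3
    exact b2 _ b1.2.2.2 _ (by omega)

end Ctx

end Pool.Agent.P.MP_c8ecb2_nt.H29
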