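import Pool.Agent.P.MP_c8ecb2_nt.H29.Loc

set_option autoImplicit false

namespace Pool.Agent.P.MP_c8ecb2_nt.H29

open Finset Filter H14 Cx Sc
open scoped Classical Pointwise

/-- The data of a state with a new-born factor. -/
structure Dt (I : Type) where
  Q : Finset ℤ
  σ : ℕ
  τ : ℕ
  x : I → Finset ℤ
  g : Finset ℤ
  E : LP

namespace Ctx

variable {I : Type} [Fintype I]

/-- A product of good factors equals a sparse number of smaller mass. -/
def St (X : Ctx) (n : I → ℕ) (μ : I → ℝ) (η : ℝ) : Prop :=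
  ∃ (P : ℕ → Finset ℤ) (σ τ : ℕ → ℕ) (x : I → ℕ → Finset ℤ) (p : I → ℕ → ℤ) (A : I → ℕ → Finset ℤ)
    (c : ℤ) (E : ℕ → LP) (e : ℝ), (∀ i, X.Good P η σ τ (x i) (p i) (A i) (μ i)) ∧ X.Win σ τ ∧
    c ≠ 0 ∧ (∀ᶠ k in X.U, τ k ≤ X.l k ∧ ev X.hβ (c * ∏ i, X.F (x i) k ^ n i) = ev X.hβ (E k)) ∧
    (X.SE fun k => nrm (E k)) ∧ X.Le (fun k => (X.s k).cov (P k) (σ k) (sp (E k))) e ∧
    e < ∑ i, n i * μ i

/-- Pointwise form of a state with a new-born factor. -/
def nb (X : Ctx) (c : ℤ) (n : I → ℕ) (a e δ : ℝ) (k : ℕ) (z : Dt I) : Prop :=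
  (z.g ⊆ sp (X.f k) ∧ z.g.Nonempty ∧ z.τ ≤ X.l k ∧ ev X.hβ (res (· ∈ z.g) (X.f k) *
    (c * ∏ i, res (· ∈ z.x i) (X.f k) ^ n i)) = ev X.hβ z.E) ∧
  X.le δ k ((X.s k).cov z.Q z.σ z.g) a ∧ X.ge δ k ((X.s k).cov z.Q z.τ z.g) a ∧
  X.ge δ k (z.τ - z.σ) 1 ∧ X.le δ k (nrm z.E).size 0 ∧ X.le δ k ((X.s k).cov z.Q z.σ (sp z.E)) e

/-- Pointwise form of passing to a smaller frame. -/
def sb (X : Ctx) (p : I → ℕ → ℤ) (η δ : ℝ) (k : ℕ) (z₀ z : Dt I) : Prop :=
  (z₀.Q ⊆ z.Q ∧ z₀.σ ≤ z.σ ∧ z.τ ≤ z₀.τ ∧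
    ∀ i, (X.s k).ball z₀.Q z.τ (p i k) (z₀.x i) ⊆ z.x i ∧ z.x i ⊆ z₀.x i) ∧
  X.le δ k (z.Q \ z₀.Q).card η

/-- All old factors are good. -/
def Gd (X : Ctx) (η : ℝ) (p : I → ℕ → ℤ) (A : I → ℕ → Finset ℤ) (μ : I → ℝ) (z : ℕ → Dt I) : Prop :=
  ∀ i, X.Good (fun k => (z k).Q) η (fun k => (z k).σ) (fun k => (z k).τ) (fun k => (z k).x i) (p i)
    (A i) (μ i)

variable {X : Ctx} {η a e : ℝ} {n : I → ℕ} {μ : I → ℝ} {p : I → ℕ → ℤ} {A : I → ℕ → Finset ℤ}
  {c : ℤ} {z z' : ℕ → Dt I}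

omit [Fintype I] in
theorem Gd.sub (h : X.Gd η p A μ z) (h' : ∀ δ, 0 < δ → ∀ᶠ k in X.U, X.sb p η δ k (z k) (z' k)) :
    X.Gd η p A μ z' := fun i =>
  (h i).sub (Q := fun k => (z' k).Q \ (z k).Q) (fun δ hδ => (h' δ hδ).mono fun _ hk => hk.2) le_rfl
    ((h' 1 one_pos).mono fun _ ⟨⟨h1, h2, h3, h4⟩, _⟩ =>
      ⟨h1, by simp, h2, h3, (h4 i).1, (h4 i).2⟩)

theorem split {P A₀ : ℕ → Finset ℤ} {σ τ σ' τ' : ℕ → ℕ} {x : I → ℕ → Finset ℤ} (hη : 0 ≤ η)
    (h : ∀ i, X.Good P η σ τ (x i) (p i) (A i) (μ i)) (hA : X.Sm A₀ a)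
    (h' : ∀ᶠ k in X.U, σ k ≤ σ' k ∧ τ' k ≤ τ k) (hW : X.Win σ' τ') : ∃ t, X.Win σ' t ∧ X.Win t τ' ∧
      X.Le (fun k => ((X.s k).uns (P k) (t k) (A₀ k)).card) (a - 1) ∧ ∀ i, X.SpS P η σ t (X.F (x i))
        (X.F fun k => (X.s k).ball (P k) (t k + 1) (p i k) (x i k)) (p i) (μ i) := by
  obtain ⟨t, h1, h2, h3⟩ := hW.typ (R := Option I) (fun r k t => match r with
    | none => ((X.s k).uns (P k) t (A₀ k)).card
    | some i => ((X.s k).ann (P k) t (p i k) (A i k)).card) (fun r => r.elim a μ)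
    (fun r k => match r with
      | none => (A₀ k).card * (A₀ k).card.size
      | some i => (A i k).card) (fun r => by
      cases r
      · simpa using Le.mul hA (Le.se hA)
      · exact (h _).card) fun r k t I => by
      cases r
      exacts [sum_uns _ _, sum_ann _ _]
  refine ⟨t, h1, h2, h3 none, fun i => (h i).sps hη ?_ (h3 (some i))⟩
  filter_upwards [h', h1.ev 0, h2.ev 6] with k a1 a2 a3
  omega

omit [Fintype I] in
theorem SpS.pr {P : ℕ → Finset ℤ} {σ t : ℕ → ℕ} {Z Zl : I → ℕ → LP}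
    (h : ∀ i, X.SpS P η σ t (Z i) (Zl i) (p i) (μ i)) (c : ℤ) (n : I → ℕ) (S : Finset I) :
    X.SpS P η σ t (fun k => c * ∏ i ∈ S, Z i k ^ n i) (fun k => c * ∏ i ∈ S, Zl i k ^ n i)
      (∑ i ∈ S, n i • p i) (∑ i ∈ S, n i * μ i) :=
  ((SpS.int c).mul (SpS.prod S fun i _ => (h i).pow (n i))).congr (funext fun k => by simp)
    (funext fun k => by simp) (zero_add _) (zero_add _)

theorem descent (hη : 3 ≤ η) (h : X.Gd η p A μ z)
    (hz : ∀ δ, 0 < δ → ∀ᶠ k in X.U, X.nb c n a e δ k (z k)) {Q : ℕ → Finset ℤ} {σ' τ' : ℕ → ℕ}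
    (hQ : X.Sm Q η) (h1 : ∀ᶠ k in X.U, (z k).σ ≤ σ' k ∧ τ' k ≤ (z k).τ) (h2 : X.Win σ' τ')
    (h3 : ∀ w : ℕ → ℤ, ¬X.Ge (fun k => (X.s k).cov ((z k).Q ∪ Q k) (σ' k)
      ((X.s k).ball (z k).Q (τ' k) (w k) (z k).g)) a) :
    ∃ (M ζ : ℝ) (z' : ℕ → Dt I), M < a ∧ 0 < ζ ∧ (a - 1 < M → ζ = 1) ∧ ∀ δ, 0 < δ → ∀ᶠ k in X.U,
      X.sb p η δ k (z k) (z' k) ∧
        X.nb c n M (max e (a + ∑ i, n i * μ i - ζ) - (a - M)) δ k (z' k) := by
  choose A₀ hA hA' using fun k => (X.s k).cov_spec (z k).Q (z k).σ (z k).g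
  have a0 := (hz 1 one_pos).mono fun _ hk => hk.1
  have a1 : X.Sm A₀ a := Le.mono' (n := fun k => (X.s k).cov (z k).Q (z k).σ (z k).g)
    (fun δ hδ => (hz δ hδ).mono fun k hk => hk.2.1) fun k => (hA k).le
  obtain ⟨t, t1, t2, t3, t4⟩ := split (by linarith) h a1 (σ' := fun k => σ' k + 2) (τ' := τ')
    (h1.mono fun k hk => by omega) (h2.shift 2 (.of_forall fun k => by omega))
  obtain ⟨M, ζ, s, s₂, γ, g, Γ, y', W', E', b1, b2, b3, b4, b5, b6, -, -, b7, b8, -⟩ :=
    loc (x := fun k => (z k).g) (y := fun k => (z k).g) (P' := fun k => (z k).Q ∪ Q k) hη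
    (h1.mono fun k hk => ⟨subset_rfl, hA' k, subset_union_left, by omega⟩) a1 t1 t3
    (Ge.mono (n := fun k => (X.s k).cov (z k).Q (z k).τ (z k).g)
      (fun δ hδ => (hz δ hδ).mono fun k hk => hk.2.2.1) (by
      filter_upwards [h1, t2.ev 3] with k c1 c2
      exact cov_mono subset_rfl (by omega) subset_rfl)) (SpS.pr t4 c n univ)
    (SpS.zero (p := 0) (μ := 0)) (W := 0) (Le.of_zero (a := 0) (.of_forall fun k => cov_empty))
    (SE.const _ 0) (E := fun k => (z k).E) (e := e)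
    (Le.mono (n := fun k => (X.s k).cov (z k).Q (z k).σ (sp (z k).E))
      (fun δ hδ => (hz δ hδ).mono fun k hk => hk.2.2.2.2.2)
      (h1.mono fun k hk => cov_mono subset_rfl (by omega) subset_rfl))
    (fun δ hδ => (hz δ hδ).mono fun k hk => hk.2.2.2.2.1)
    (a0.mono fun k hk => by simpa [F] using hk.2.2.2)
  refine ⟨M, ζ, fun k => ⟨(z k).Q ∪ Q k, s k, s₂ k, fun i =>
    (X.s k).ball (z k).Q (t k + 1) (p i k) ((z k).x i), g k, E' k⟩, not_le.1 fun hM => h3 γ
    ((b6.weak hM).mono ?_), b1, b2, fun δ hδ => ?_⟩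
  · filter_upwards [b3, b4.ev 0, t2.ev 3] with k c1 c2 c3
    exact cov_mono subset_rfl (by omega) (c1.2.2.1.trans (ball_mono subset_rfl c3 subset_rfl))
  filter_upwards [a0, h1, b3, t2.ev 0, b6.pos, hQ δ hδ, b4 δ hδ, b5 δ hδ, b6 δ hδ, b7 δ hδ, b8 δ hδ]
    with k c0 c1 c2 c3 c4 c5 c6 c7 c8 c9 c10
  refine ⟨⟨⟨subset_union_left, by dsimp only; omega, by dsimp only; omega, fun i =>
    ⟨ball_mono subset_rfl (by dsimp only; omega) subset_rfl, ball_subset⟩⟩, le_trans ?_ c5⟩,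
    ⟨c2.2.2.1.trans (ball_subset.trans c0.1), nonempty_iff_ne_empty.2 fun h0 => ?_,
    by dsimp only; omega, by simpa [F] using c2.2.2.2.2.2⟩, c7, c8, c6, c9, c10⟩
  · exact_mod_cast card_le_card (by simp [union_sdiff_left])
  · dsimp only at h0
    simp [h0, cov_empty] at c4

theorem birth (hη : 3 ≤ η) (hc : c ≠ 0) (N : ℕ) : ∀ (z : ℕ → Dt I) (a e : ℝ), X.Gd η p A μ z →
    (∀ δ, 0 < δ → ∀ᶠ k in X.U, X.nb c n a e δ k (z k)) → e < a + ∑ i, n i * μ i → a < N →
    ∃ a' ≤ a, X.St (fun o : Option I => o.elim 1 n) (fun o => o.elim a' μ) (η - 3) := by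
  have bd : ∀ (z : ℕ → Dt I) (a e : ℝ), (∀ δ, 0 < δ → ∀ᶠ k in X.U, X.nb c n a e δ k (z k)) → 0 ≤ a :=
    fun z a e hz => Ge.le_of (n := fun k => (X.s k).cov (z k).Q (z k).σ (z k).g)
      (Ge.of_pos ((hz 1 one_pos).mono fun k hk => one_le_cov hk.1.2.1))
      fun δ hδ => (hz δ hδ).mono fun k hk => hk.2.1
  induction N with
  | zero => exact fun z a e _ hz _ h => absurd (bd z a e hz) (by simpa using h)
  | succ N ih =>
    intro z₀ a₀ e₀ h₀ hz₀ he hN
    set S := ∑ i, n i * μ i with hS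
    set d := min (a₀ + S - e₀) 1 with hd
    have d0 : 0 < d := lt_min (by linarith) one_pos
    have d1 : d ≤ 1 := min_le_right _ _
    have d2 : d ≤ a₀ + S - e₀ := min_le_left _ _
    obtain ⟨a, ha, ⟨z, hz⟩, hmin⟩ := X.inf_att
      (fun a δ k z => X.sb p η δ k (z₀ k) z ∧ X.nb c n a (a + S - d) δ k z)
      (fun a a' δ δ' k z _ _ _ ⟨⟨h1, h2⟩, h3, h4, h5, h6, h7, h8⟩ => ⟨⟨h1, h2.mono (by linarith)⟩, h3,
        h4.mono (by linarith), h5.mono (by linarith), h6.mono (by linarith), h7.mono (by linarith),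
        h8.mono (by linarith)⟩) a₀
      ⟨z₀, fun δ hδ => (hz₀ δ hδ).mono fun k ⟨h3, h4, h5, h6, h7, h8⟩ => ⟨⟨⟨subset_rfl, le_rfl,
        le_rfl, fun i => ⟨ball_subset, subset_rfl⟩⟩, by simpa [le] using (X.rp_pos k _).le⟩, h3, h4,
        h5, h6, h7, h8.mono (by linarith)⟩⟩ 0
      fun a z hz => bd z a _ fun δ hδ => (hz δ hδ).mono fun _ hk => hk.2
    have z1 := fun δ hδ => (hz δ hδ).mono fun _ hk => hk.1
    have z2 := fun δ hδ => (hz δ hδ).mono fun _ hk => hk.2
    have z3 := (z2 1 one_pos).mono fun _ hk => hk.1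
    have h := h₀.sub z1
    by_cases pre : ∀ (Q : ℕ → Finset ℤ) (σ' τ' : ℕ → ℕ), X.Sm Q η →
      (∀ᶠ k in X.U, (z k).σ ≤ σ' k ∧ τ' k ≤ (z k).τ) → X.Win σ' τ' → ∃ w : ℕ → ℤ, X.Ge (fun k =>
        (X.s k).cov ((z k).Q ∪ Q k) (σ' k) ((X.s k).ball (z k).Q (τ' k) (w k) (z k).g)) a
    · obtain ⟨Q, p', A', g1, g2⟩ := good_of_pre hη (z3.mono fun k hk => ⟨hk.2.1, hk.1, hk.2.2.1⟩)
        (fun δ hδ => (z2 δ hδ).mono fun k hk => hk.2.1) pre
      refine ⟨a, ha, _, _, _, fun o k => o.elim (z k).g (z k).x, fun o => o.elim p' p,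
        fun o => o.elim A' A, c, fun k => (z k).E, a + S - d, fun o => ?_,
        fun δ hδ => (z2 δ hδ).mono fun k hk => hk.2.2.2.1, hc, z3.mono fun k hk => ⟨hk.2.2.1, ?_⟩,
        fun δ hδ => (z2 δ hδ).mono fun k hk => hk.2.2.2.2.1,
        Le.mono' (n := fun k => (X.s k).cov (z k).Q (z k).σ (sp (z k).E))
          (fun δ hδ => (z2 δ hδ).mono fun k hk => hk.2.2.2.2.2)
          fun k => cov_mono (subset_union_left (s₂ := Q k)) le_rfl subset_rfl, ?_⟩
      · cases o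
        · exact g2
        · exact (h _).sub g1 (by linarith) (.of_forall fun k =>
            ⟨subset_union_left, subset_rfl, le_rfl, le_rfl, ball_subset, subset_rfl⟩)
      · rw [← hk.2.2.2, Fintype.prod_option]
        simp only [F, Option.elim, pow_one]
        rw [mul_left_comm]
      · rw [Fintype.sum_option]
        simp only [Option.elim, Nat.cast_one, one_mul]
        linarith
    push Not at pre
    obtain ⟨Q, σ', τ', q1, q2, q3, q4⟩ := pre
    obtain ⟨M, ζ, z', m1, m2, m3, m4⟩ := descent hη h z2 q1 q2 q3 q4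
    have m5 := fun δ hδ => (m4 δ hδ).mono fun _ hk => hk.1
    by_cases hM : a - 1 < M
    · refine absurd (hmin M z' fun δ hδ => ?_) (not_le.2 m1)
      have : X.Le (fun k => ((z' k).Q \ (z₀ k).Q).card) η :=
        (Le.add (n := fun k => ((z' k).Q \ (z k).Q).card) (m := fun k => ((z k).Q \ (z₀ k).Q).card)
          (fun δ hδ => (m5 δ hδ).mono fun _ hk => hk.2)
          fun δ hδ => (z1 δ hδ).mono fun _ hk => hk.2).mono' fun k =>
          (card_le_card (sdiff_triangle _ _ _)).trans (card_union_le _ _)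
      filter_upwards [this δ hδ, z1 δ hδ, m4 δ hδ] with k c0 ⟨⟨c1, c2, c3, c4⟩, _⟩
        ⟨⟨⟨c5, c6, c7, c8⟩, _⟩, e1, e2, e3, e4, e5, e6⟩
      refine ⟨⟨⟨c1.trans c5, c2.trans c6, c7.trans c3, fun i => ⟨fun w hw => (c8 i).1 (mem_ball.2
        ⟨(c4 i).1 (ball_mono subset_rfl c7 subset_rfl hw), (mem_ball.1 hw).2.mono c1 le_rfl le_rfl⟩),
        (c8 i).2.trans (c4 i).2⟩⟩, c0⟩, e1, e2, e3, e4, e5, e6.mono ?_⟩
      rw [m3 hM, max_eq_left (by linarith)]
      linarith
    · obtain ⟨a', b1, b2⟩ := ih z' M _ (h.sub m5) (fun δ hδ => (m4 δ hδ).mono fun _ hk => hk.2)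
        (by have : max (a + S - d) (a + S - ζ) < a + S := max_lt (by linarith) (by linarith)
            linarith) (by push_cast at hN; linarith)
      exact ⟨a', by linarith, b2⟩

theorem St.base (h : X.St n μ η) (h0 : ∑ i, n i * μ i ≤ 0) : False := by
  obtain ⟨P, σ, τ, x, p, A, c, E, e, h1, -, h2, h3, -, h4, h5⟩ := h
  obtain ⟨k, ⟨-, a1⟩, a2, a3⟩ := (h3.and ((h4.neg (by linarith)).and
    (eventually_all.2 fun i => (h1 i).mem))).exists
  have : sp (E k) = ∅ := not_nonempty_iff_eq_empty.1 fun h => by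
    have := one_le_cov (s := X.s k) (P := P k) (j := σ k) h
    omega
  rw [sp_eq_empty this, map_zero, map_mul, map_prod, map_intCast] at a1
  refine mul_ne_zero (Int.cast_ne_zero.2 h2) (prod_ne_zero_iff.2 fun i _ => ?_) a1
  rw [map_pow]
  exact pow_ne_zero _ (X.nz k _ (a3 i).2.1 ⟨_, (a3 i).1⟩)

theorem St.step (h : X.St n μ η) (hη : 3 ≤ η) {b : I} {m : ℕ} (hb : n b = m + 1) (hμ : 0 < μ b) :
    ∃ a ≤ μ b - η, X.St (fun o : Option I => o.elim 1 fun i => if i = b then m else 2 * n i)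
      (fun o => o.elim a μ) (η - 3) := by
  obtain ⟨P, σ, τ, x, p, A, c, E, e, h1, h2, h3, h4, h5, h6, h7⟩ := h
  obtain ⟨t, t1, t2, t3, t4⟩ := split (by linarith) h1 (h1 b).card (σ' := fun k => σ k + 2)
    (τ' := τ) (.of_forall fun k => by omega) (h2.shift 2 (.of_forall fun k => by omega))
  set lo := fun i k => (X.s k).ball (P k) (t k + 1) (p i k) (x i k) with hlo
  set ν := ∑ i ∈ univ.erase b, n i * μ i with hν
  have s1 : ∑ i, n i * μ i = (m + 1 : ℕ) * μ b + ν := by rw [← add_sum_erase _ _ (mem_univ b), hb]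
  have c1 := SpS.pr t4 c n (univ.erase b)
  rw [← hν] at c1
  obtain ⟨G, g1, g2⟩ := (t4 b).geom m
  have e1 : X.Le (fun k => (X.s k).cov (P k) (σ k + 2) (sp (E k))) e :=
    h6.mono' fun k => cov_mono subset_rfl (by omega) subset_rfl
  have i1 : ∀ᶠ k in X.U, ev X.hβ (X.F (x b) k ^ (m + 1) *
      (c * ∏ i ∈ univ.erase b, X.F (x i) k ^ n i)) = ev X.hβ (E k) := h4.mono fun k hk => by
    rw [← hk.2, ← mul_prod_erase _ _ (mem_univ b), hb, mul_left_comm]
  obtain ⟨E₀, f1, f2, f3⟩ := loc0 (((t4 b).pow (m + 1)).mul c1) (by linarith)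
    ((t1.ev 0).mono fun k hk => ⟨by omega, by omega⟩) e1 h5 i1
  have i2 : ∀ k, X.F (x b) k - X.F (lo b) k = X.F (fun k => x b k \ lo b k) k := fun k => by
    rw [F, F, res_split ball_subset, add_sub_cancel_left, F]
  obtain ⟨M, ζ, s, s₂, γ, g, Γ, y', W', E', b1, -, b3, b4, b5, b6, b7, b8, b9, b10, b11, b12⟩ :=
    loc (x := x b) (y := fun k => x b k \ lo b k) (P' := P) hη ((h1 b).mem.mono fun k hk =>
      ⟨sdiff_subset, hk.2.2, subset_rfl, le_rfl⟩) (h1 b).card t1 t3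
    (((h1 b).lb (fun _ => ∅) (fun k => t k + 3) τ (Sm.empty _ _) ((t1.ev 0).mono fun k hk =>
      ⟨by omega, le_rfl⟩) (t2.shift 3 (.of_forall fun k => by omega))).of_add (.of_forall fun k => by
      rw [union_empty]
      refine (cov_union (Y := (X.s k).ball (P k) (t k + 3) (p b k) (x b k)) fun w hw => ?_).trans
        (Nat.add_le_add_left cov_ball _)
      by_cases hc : w ∈ lo b k
      · exact mem_union_right _ (ball_mono subset_rfl (by omega) subset_rfl hc)
      · exact mem_union_left _ (mem_sdiff.2 ⟨ball_subset hw, hc⟩)) (Le.const _ 1) hμ)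
    (g2.mul c1) ((t4 b).low.pow (m + 1)) (c1.cov (.of_forall fun k => ⟨subset_rfl, by omega⟩))
    (let ⟨_, _, _, _, _, _, _, h, _⟩ := c1; h) e1 h5 (i1.mono fun k hk => by
      rw [← hk, ← i2, show X.F (x b) k ^ (m + 1) = _ from congrFun g1 k]
      simp only [Pi.add_apply, Pi.mul_apply, Pi.sub_apply, Pi.pow_apply]
      congr 1
      ring)
  have hM : M ≤ μ b - η := not_lt.1 fun hM => by
    refine absurd (b12.le_of ((t4 b).far (Le.weak b11 (by linarith)) ?_)) (by linarith)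
    filter_upwards [b3, t1.ev 0, (h1 b).mem] with k d1 d2 d3
    refine ⟨by omega, by omega, fun w hw => ?_, d1.2.2.2.2.1⟩
    rw [i2]
    exact mem_sp_res.2 ⟨d3.2.1 (sdiff_subset (d1.2.2.2.1 hw)), d1.2.2.2.1 hw⟩
  obtain ⟨N, hN⟩ := exists_nat_gt M
  set e' := max (max e (μ b + (m * μ b + ν) - ζ)) (max e ((m + 1 : ℕ) * μ b + ν - 1)) with he'
  have l1 : X.Le (fun k => (X.s k).cov (P k) (s k + 1) (sp ((c * ∏ i ∈ univ.erase b,
      X.F (lo i) k ^ n i) * E' k - W' k * E₀ k))) (ν + e' - (μ b - M)) := by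
    have m1 : max e (μ b + (m * μ b + ν) - ζ) ≤ e' := le_max_left _ _
    have m2 : max e ((m + 1 : ℕ) * μ b + ν - 1) ≤ e' := le_max_right _ _
    refine ((((c1.low.cov (P' := P) (σ' := s) (b3.mono fun k hk => ⟨subset_rfl, by omega⟩)).mul
      b10).weak (by linarith)).add ((b7.mul f3).weak (by linarith))).mono ?_
    filter_upwards [b3] with k hk
    exact (cov_union sp_sub).trans (add_le_add (cov_add (by omega) sp_mul) ((cov_add (by omega)
      sp_mul).trans (Nat.mul_le_mul_left _ (cov_mono subset_rfl hk.1 subset_rfl))))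
  have l2 : X.SE fun k => nrm ((c * ∏ i ∈ univ.erase b, X.F (lo i) k ^ n i) * E' k - W' k * E₀ k) :=
    ((SE.mul (let ⟨_, _, _, _, _, _, _, _, h⟩ := c1; h) b9).add (b8.mul f2)).mono' fun k =>
      nrm_sub.trans (add_le_add nrm_mul nrm_mul)
  have l3 : X.Le (fun k => (X.s k).cov (P k) (s k + 1) (g k)) M :=
    b5.mono' fun k => cov_mono subset_rfl (by omega) subset_rfl
  have l4 : X.Win (fun k => s k + 1) s₂ := b4.shift 1 (.of_forall fun k => by omega)
  obtain ⟨a, a1, a2⟩ := birth (p := p) (A := A) (μ := μ) (c := (m + 1 : ℕ) * c ^ 2)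
    (n := fun i => if i = b then m else 2 * n i) hη (by positivity) N (fun k => ⟨P k, s k + 1, s₂ k,
      fun i => lo i k, g k, (c * ∏ i ∈ univ.erase b, X.F (lo i) k ^ n i) * E' k - W' k * E₀ k⟩) M _
    (fun i => (h1 i).sub (Sm.empty _ _) le_rfl (by
      filter_upwards [b3, t2.ev 0] with k d1 d2
      exact ⟨subset_rfl, subset_union_left, by omega, by omega,
        ball_mono subset_rfl (by omega) subset_rfl, ball_subset⟩)) (fun δ hδ => by
      filter_upwards [b3, t2.ev 0, (h1 b).mem, h4, f1, b6.pos, l3 δ hδ, b6 δ hδ, l4 δ hδ, l2 δ hδ,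
        l1 δ hδ] with k d1 d2 d3 d4 d5 d6 d7 d8 d9 d10 d11
      refine ⟨⟨d1.2.2.1.trans (ball_subset.trans (sdiff_subset.trans d3.2.1)),
        nonempty_iff_ne_empty.2 fun h0 => ?_, by dsimp only; omega, ?_⟩, d7, d8, d9, d10, d11⟩
      · dsimp only at h0
        simp [h0, cov_empty] at d6
      · have d12 := d1.2.2.2.2.2
        have d13 : ∏ i ∈ univ.erase b, X.F (lo i) k ^ (if i = b then m else 2 * n i) =
            (∏ i ∈ univ.erase b, X.F (lo i) k ^ n i) ^ 2 := by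
          rw [← prod_pow]
          exact prod_congr rfl fun i hi => by rw [if_neg (mem_erase.1 hi).1, mul_comm, pow_mul]
        change ev X.hβ (X.F g k * (_ * ∏ i, X.F (lo i) k ^ (if i = b then m else 2 * n i))) = _
        rw [← mul_prod_erase _ _ (mem_univ b), d13, if_pos rfl]
        simp only [Pi.mul_apply, Pi.pow_apply, Pi.natCast_apply, map_add, map_mul, map_sub, map_pow,
          map_natCast, map_intCast] at d5 d12 ⊢
        rw [← d5, ← d12]
        push_cast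
        ring) (by
      have : ∑ i, ((if i = b then m else 2 * n i : ℕ) : ℝ) * μ i = m * μ b + 2 * ν := by
        rw [← add_sum_erase _ _ (mem_univ b), if_pos rfl, hν, mul_sum]
        congr 1
        exact sum_congr rfl fun i hi => by rw [if_neg (mem_erase.1 hi).1]; push_cast; ring
      have : e' < (m + 1 : ℕ) * μ b + ν := max_lt (max_lt (s1 ▸ h7) (by push_cast; linarith))
        (max_lt (s1 ▸ h7) (by linarith))
      push_cast at *
      linarith) hN
  exact ⟨a, a1.trans hM, a2⟩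

end Ctx

theorem not_St (L : ℕ) : ∀ (I : Type) [Fintype I] (n lev : I → ℕ), (∀ i, lev i ≤ L) →
    ∃ R : ℕ, ∀ (X : Ctx) (H η : ℝ) (μ : I → ℝ), 3 ≤ H → H + 3 * R ≤ η →
      (∀ i, n i ≠ 0 → μ i ≤ lev i * H) → ¬X.St n μ η := by
  induction L with
  | zero =>
    refine fun I _ n lev hl => ⟨0, fun X H η μ _ _ h hs => hs.base (sum_nonpos fun i _ => ?_)⟩
    by_cases h0 : n i = 0
    · simp [h0]
    · have := h i h0
      rw [Nat.le_zero.1 (hl i)] at this
      exact mul_nonpos_of_nonneg_of_nonpos (Nat.cast_nonneg _) (by simpa using this)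
  | succ L ih =>
    suffices h : ∀ (C : ℕ) (I : Type) [Fintype I] (n lev : I → ℕ), (∀ i, lev i ≤ L + 1) →
        (univ.filter fun i => lev i = L + 1).card ≤ C → ∃ R : ℕ, ∀ (X : Ctx) (H η : ℝ) (μ : I → ℝ),
          3 ≤ H → H + 3 * R ≤ η → (∀ i, n i ≠ 0 → μ i ≤ lev i * H) → ¬X.St n μ η from
      fun I _ n lev hl => h _ I n lev hl le_rfl
    intro C
    induction C with
    | zero =>
      refine fun I _ n lev hl hC => ih I n lev fun i => Nat.lt_succ_iff.1 ((hl i).lt_of_ne ?_)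
      exact filter_eq_empty_iff.1 (card_eq_zero.1 (Nat.le_zero.1 hC)) (mem_univ i)
    | succ C ihC =>
      suffices h : ∀ (m : ℕ) (I : Type) [Fintype I] (n lev : I → ℕ) (b : I), (∀ i, lev i ≤ L + 1) →
          (univ.filter fun i => lev i = L + 1).card ≤ C + 1 → lev b = L + 1 → n b = m →
          ∃ R : ℕ, ∀ (X : Ctx) (H η : ℝ) (μ : I → ℝ), 3 ≤ H → H + 3 * R ≤ η →
            (∀ i, n i ≠ 0 → μ i ≤ lev i * H) → ¬X.St n μ η by
        intro I _ n lev hl hC
        rcases (univ.filter fun i => lev i = L + 1).eq_empty_or_nonempty with h0 | ⟨b, hb⟩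
        · exact ihC I n lev hl (by simp [h0])
        · exact h _ I n lev b hl hC (mem_filter.1 hb).2 rfl
      have rel : ∀ (I : Type) [Fintype I] (n lev : I → ℕ) (b : I), (∀ i, lev i ≤ L + 1) →
          (univ.filter fun i => lev i = L + 1).card ≤ C + 1 → lev b = L + 1 →
          ∃ R : ℕ, ∀ (X : Ctx) (H η : ℝ) (μ : I → ℝ), 3 ≤ H → H + 3 * R ≤ η →
            (∀ i, n i ≠ 0 → μ i ≤ lev i * H) → (n b ≠ 0 → μ b ≤ 0) → ¬X.St n μ η := by
        intro I _ n lev b hl hC hb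
        obtain ⟨R, hR⟩ := ihC I n (Function.update lev b 0) (fun i => by
          rw [Function.update_apply]
          split_ifs
          exacts [Nat.zero_le _, hl i]) (by
          have a1 := card_erase_add_one (show b ∈ univ.filter fun i => lev i = L + 1 by simp [hb])
          have a2 := card_le_card (show (univ.filter fun i => Function.update lev b 0 i = L + 1) ⊆
            (univ.filter fun i => lev i = L + 1).erase b from fun i hi => by
              have := (mem_filter.1 hi).2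
              rw [Function.update_apply] at this
              split_ifs at this with h
              simp [h, this])
          omega)
        refine ⟨R, fun X H η μ h1 h2 h3 h4 => hR X H η μ h1 h2 fun i hi => ?_⟩
        rw [Function.update_apply]
        split_ifs with h
        · subst h
          simpa using h4 hi
        · exact h3 i hi
      intro m
      induction m with
      | zero =>
        intro I _ n lev b hl hC hb hn
        obtain ⟨R, hR⟩ := rel I n lev b hl hC hb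
        exact ⟨R, fun X H η μ h1 h2 h3 => hR X H η μ h1 h2 h3 fun h => absurd hn h⟩
      | succ m ihm =>
        intro I _ n lev b hl hC hb hn
        obtain ⟨R, hR⟩ := rel I n lev b hl hC hb
        obtain ⟨R', hR'⟩ := ihm (Option I) (fun o => o.elim 1 fun i => if i = b then m else 2 * n i)
          (fun o => o.elim L lev) (some b) (fun o => by cases o <;> simp [hl]) (by
            refine le_trans (card_le_card (t := (univ.filter fun i => lev i = L + 1).image some)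
              fun o ho => ?_) (card_image_le.trans hC)
            cases o
            · simp at ho
            · simpa using ho) hb (by simp)
        refine ⟨R + R' + 1, fun X H η μ h1 h2 h3 hs => ?_⟩
        have p1 : (0 : ℝ) ≤ R := Nat.cast_nonneg _
        have p2 : (0 : ℝ) ≤ R' := Nat.cast_nonneg _
        push_cast at h2
        by_cases hμ : μ b ≤ 0
        · exact hR X H η μ h1 (by linarith) h3 (fun _ => hμ) hs
        obtain ⟨a, a1, a2⟩ := hs.step (by linarith) hn (not_le.1 hμ)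
        refine hR' X H (η - 3) _ h1 (by linarith) (fun o ho => ?_) a2
        cases o with
        | none =>
          have := h3 b (by omega)
          rw [hb] at this
          push_cast at this
          simp only [Option.elim]
          linarith
        | some i =>
          refine h3 i fun h0 => ho ?_
          simp only [Option.elim]
          split_ifs with h
          · subst h
            omega
          · omega

end Pool.Agent.P.MP_c8ecb2_nt.H29
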